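import Pool.Agent.K4H63.PI.OneD

/-!
# Asymptotics: the ADM mass
-/

set_option autoImplicit false

namespace Pool.Agent.K4H63.PI

open scoped BigOperators Topology
open Matrix Filter Set MeasureTheory

/-- Surface measure on the unit sphere of `ℝ³`. -/
noncomputable def sph : Measure (Metric.sphere (0 : E) 1) := (volume : Measure E).toSphere

/-- The ADM mass integral over the sphere of radius `r`:
`(16 π)⁻¹ ∫_{|x| = r} (∂_i g_{ij} - ∂_j g_{ii}) ν^j dA`. -/
noncomputable def admFlux (G : E → Matrix (Fin 3) (Fin 3) ℝ) (r : ℝ) : ℝ :=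
  (16 * Real.pi)⁻¹ * (r ^ 2 * ∫ ω, ∑ j, (∑ i, (pd i (fun y => G y i j) (r • (ω : E)) -
    pd j (fun y => G y i i) (r • (ω : E)))) * (ω : E) j ∂sph)

instance : IsFiniteMeasure sph := by unfold sph; infer_instance

theorem sph_real_univ : sph.real univ = 4 * Real.pi := by
  unfold sph
  rw [Measure.toSphere_real_apply_univ, Measure.real, EuclideanSpace.volume_ball_fin_three]
  simp only [finrank_euclideanSpace, Fintype.card_fin]
  rw [ENNReal.toReal_mul, ENNReal.toReal_ofReal (by positivity)]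
  norm_num
  ring

theorem sphere_norm (ω : Metric.sphere (0 : E) 1) : ‖(ω : E)‖ = 1 := by
  simpa using ω.2

theorem admFlux_metric {φ : ℝ → ℝ} (hφ : Good φ) {r : ℝ} (hr : 0 < r) :
    admFlux (metric φ) r = -(r ^ 3 * (φ r) ^ 4 * psi φ r) := by
  unfold admFlux
  have h1 : ∀ ω : Metric.sphere (0 : E) 1,
      ∑ j, (∑ i, (pd i (fun y => metric φ y i j) (r • (ω : E)) -
        pd j (fun y => metric φ y i i) (r • (ω : E)))) * (ω : E) j =
        -4 * (φ r) ^ 4 * psi φ r * r := by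
    intro ω
    have hω := sphere_norm ω
    have hx := ray_ne hω hr
    have hn := ray_norm hω hr
    have h0 : φ ‖r • (ω : E)‖ ≠ 0 := by rw [hn]; exact (hφ.pos r hr).ne'
    have hd : DifferentiableAt ℝ φ ‖r • (ω : E)‖ := by rw [hn]; exact hφ.diff hr
    have hs := norm_sq_eq (ω : E)
    rw [hω] at hs
    simp only [pd_metric φ hx hd _ _ _ h0, ff_eq, hn]
    simp only [Fin.sum_univ_three, kd, PiLp.smul_apply, smul_eq_mul]
    simp only [if_true, Fin.reduceEq, if_false]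
    linear_combination (4 * (φ r) ^ 4 * psi φ r * r) * hs
  simp only [h1]
  rw [integral_const, sph_real_univ]
  have := Real.pi_ne_zero
  simp only [smul_eq_mul]
  field_simp
  ring

/-- Asymptotic flatness of `φ⁴ δ` at infinity, with total mass `m`. -/
structure FlatEnd (φ : ℝ → ℝ) (m : ℝ) : Prop where
  one : Tendsto φ atTop (𝓝 1)
  mass : Tendsto (admFlux (metric φ)) atTop (𝓝 m)

theorem FlatEnd.r3psi {φ : ℝ → ℝ} {m : ℝ} (hφ : Good φ) (h : FlatEnd φ m) :
    Tendsto (fun r => r ^ 3 * psi φ r) atTop (𝓝 (-m)) := by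
  have h1 : Tendsto (fun r => -(admFlux (metric φ) r) / (φ r) ^ 4) atTop (𝓝 (-m / 1 ^ 4)) :=
    h.mass.neg.div (h.one.pow 4) (by norm_num)
  rw [one_pow, div_one] at h1
  refine h1.congr' ?_
  filter_upwards [eventually_gt_atTop 0] with r hr
  rw [admFlux_metric hφ hr]
  have := hφ.pos r hr
  field_simp

theorem FlatEnd.pp {φ : ℝ → ℝ} {m : ℝ} (hφ : Good φ) (h : FlatEnd φ m) :
    Tendsto (pp φ) atTop (𝓝 1) := by
  have h1 : Tendsto (fun r => 1 + (r ^ 3 * psi φ r) * r⁻¹) atTop (𝓝 (1 + (-m) * 0)) :=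
    ((h.r3psi hφ).mul tendsto_inv_atTop_zero).const_add 1
  rw [mul_zero, add_zero] at h1
  refine h1.congr' ?_
  filter_upwards [eventually_gt_atTop 0] with r hr
  unfold PI.pp
  field_simp

theorem FlatEnd.YY {φ : ℝ → ℝ} {m : ℝ} (hφ : Good φ) (h : FlatEnd φ m) :
    Tendsto (YY φ) atTop (𝓝 (2 * m)) := by
  have h1 : Tendsto (fun r => -(φ r) ^ 2 * (2 * (r ^ 3 * psi φ r) +
      (r ^ 3 * psi φ r) ^ 2 * r⁻¹)) atTop (𝓝 (-(1 : ℝ) ^ 2 * (2 * (-m) + (-m) ^ 2 * 0))) :=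
    (h.one.pow 2).neg.mul (((h.r3psi hφ).const_mul 2).add
      (((h.r3psi hφ).pow 2).mul tendsto_inv_atTop_zero))
  rw [show -(1 : ℝ) ^ 2 * (2 * (-m) + (-m) ^ 2 * 0) = 2 * m by ring] at h1
  refine h1.congr' ?_
  filter_upwards [eventually_gt_atTop 0] with r hr
  unfold PI.YY PI.pp
  field_simp
  ring

theorem tendsto_sq_term {φ q : ℝ → ℝ} {C : ℝ} (h1 : Tendsto φ atTop (𝓝 1))
    (hq : ∀ r, 1 ≤ r → |q r| ≤ C / r ^ 2) :
    Tendsto (fun r => r ^ 3 * (q r) ^ 2 / (4 * (φ r) ^ 2)) atTop (𝓝 0) := by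
  have h2 : Tendsto (fun r => r ^ 3 * (q r) ^ 2) atTop (𝓝 0) := by
    have h3 : Tendsto (fun r : ℝ => C ^ 2 * r⁻¹) atTop (𝓝 (C ^ 2 * 0)) :=
      tendsto_inv_atTop_zero.const_mul _
    rw [mul_zero] at h3
    refine squeeze_zero' ?_ ?_ h3
    · filter_upwards [eventually_ge_atTop 1] with r hr
      positivity
    · filter_upwards [eventually_ge_atTop 1] with r hr
      have h4 : (q r) ^ 2 ≤ (C / r ^ 2) ^ 2 := by
        rw [← sq_abs]
        exact pow_le_pow_left₀ (abs_nonneg _) (hq r hr) 2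
      calc r ^ 3 * (q r) ^ 2 ≤ r ^ 3 * (C / r ^ 2) ^ 2 :=
            mul_le_mul_of_nonneg_left h4 (by positivity)
        _ = C ^ 2 * r⁻¹ := by field_simp
  have h5 := h2.div ((h1.pow 2).const_mul 4) (by norm_num)
  rw [zero_div] at h5
  exact h5

theorem tendsto_X {φ q : ℝ → ℝ} {C : ℝ} (h1 : Tendsto φ atTop (𝓝 1))
    (hq : ∀ r, 1 ≤ r → |q r| ≤ C / r ^ 2) :
    Tendsto (fun r => r * q r / (2 * (φ r) ^ 2)) atTop (𝓝 0) := by
  have h2 : Tendsto (fun r => r * q r) atTop (𝓝 0) := by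
    have h3 : Tendsto (fun r : ℝ => C * r⁻¹) atTop (𝓝 (C * 0)) :=
      tendsto_inv_atTop_zero.const_mul _
    rw [mul_zero] at h3
    refine squeeze_zero_norm' ?_ h3
    filter_upwards [eventually_ge_atTop 1] with r hr
    rw [norm_mul, Real.norm_eq_abs, Real.norm_eq_abs, abs_of_pos (by linarith : (0:ℝ) < r)]
    calc r * |q r| ≤ r * (C / r ^ 2) := mul_le_mul_of_nonneg_left (hq r hr) (by linarith)
      _ = C * r⁻¹ := by field_simp
  have h5 := h2.div ((h1.pow 2).const_mul 2) (by norm_num)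
  rw [zero_div] at h5
  exact h5

/-- Decay of the second fundamental form. -/
def Decay (h : E → Matrix (Fin 3) (Fin 3) ℝ) : Prop :=
  ∃ C : ℝ, ∀ x : E, 1 ≤ ‖x‖ → ∀ i j, |h x i j| ≤ C / ‖x‖ ^ 2

theorem unit_le_one {x : E} (hx : x ≠ 0) (i : Fin 3) : |x i / ‖x‖| ≤ 1 := by
  have hr : 0 < ‖x‖ := norm_pos_iff.2 hx
  rw [abs_div, abs_of_pos hr, div_le_one hr]
  exact PiLp.norm_apply_le x i

theorem qq_bound {h : E → Matrix (Fin 3) (Fin 3) ℝ} {x : E} (hx : x ≠ 0) {c : ℝ}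
    (hc : ∀ i j, |h x i j| ≤ c) : |qq h x| ≤ 12 * c := by
  have hc0 : 0 ≤ c := (abs_nonneg _).trans (hc 0 0)
  have h1 : |tr0 h x| ≤ 3 * c := by
    unfold tr0
    refine (Finset.abs_sum_le_sum_abs _ _).trans ?_
    refine (Finset.sum_le_sum fun i _ => hc i i).trans ?_
    simp
  have h2 : |hrad h x| ≤ 9 * c := by
    unfold hrad
    refine (Finset.abs_sum_le_sum_abs _ _).trans ?_
    have : ∀ i : Fin 3, |∑ j, h x i j * (x i / ‖x‖) * (x j / ‖x‖)| ≤ 3 * c := by
      intro i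
      refine (Finset.abs_sum_le_sum_abs _ _).trans ?_
      refine (Finset.sum_le_sum (g := fun _ => c) fun j _ => ?_).trans (by simp)
      rw [abs_mul, abs_mul]
      calc |h x i j| * |x i / ‖x‖| * |x j / ‖x‖| ≤ c * 1 * 1 :=
            mul_le_mul (mul_le_mul (hc i j) (unit_le_one hx i) (abs_nonneg _) hc0)
              (unit_le_one hx j) (abs_nonneg _) (by positivity)
        _ = c := by ring
    refine (Finset.sum_le_sum fun i _ => this i).trans ?_
    simp
    linarith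
  unfold qq
  calc |tr0 h x - hrad h x| ≤ |tr0 h x| + |hrad h x| := by
        rw [sub_eq_add_neg, ← abs_neg (hrad h x)]; exact abs_add_le _ _
    _ ≤ 12 * c := by linarith

/-- Area of the centred sphere of radius `r` in the metric `φ⁴ δ`. -/
noncomputable def sphereArea (φ : ℝ → ℝ) (r : ℝ) : ℝ := 4 * Real.pi * ((φ r) ^ 2 * r) ^ 2

theorem sqrt_area {φ : ℝ → ℝ} (hφ : Good φ) {r : ℝ} (hr : 0 < r) :
    Real.sqrt (sphereArea φ r / (16 * Real.pi)) = (φ r) ^ 2 * r / 2 := by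
  have hp := hφ.pos r hr
  have := Real.pi_ne_zero
  have e : sphereArea φ r / (16 * Real.pi) = ((φ r) ^ 2 * r / 2) ^ 2 := by
    unfold sphereArea
    field_simp
    ring
  rw [e, Real.sqrt_sq (by positivity)]

end Pool.Agent.K4H63.PI
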