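import Pool.Agent.K4H63.PI.Main1

/-!
# Averages over centred spheres
-/

set_option autoImplicit false

namespace Pool.Agent.K4H63.PI

open scoped BigOperators Topology
open Matrix Filter Set MeasureTheory

/-- The average of `F` over the centred sphere of radius `r`. -/
noncomputable def sphAvg (F : E → ℝ) (r : ℝ) : ℝ :=
  (4 * Real.pi)⁻¹ * ∫ ω, F (r • (ω : E)) ∂sph

theorem coe_cont : Continuous fun ω : Metric.sphere (0 : E) 1 => (ω : E) :=
  continuous_subtype_val

theorem sph_cont {F : E → ℝ} (hF : ContinuousOn F {0}ᶜ) {r : ℝ} (hr : 0 < r) :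
    Continuous fun ω : Metric.sphere (0 : E) 1 => F (r • (ω : E)) := by
  rw [← continuousOn_univ]
  refine hF.comp (Continuous.continuousOn (by fun_prop)) ?_
  intro ω _
  exact ray_ne (sphere_norm ω) hr

theorem sph_integrable {F : E → ℝ} (hF : ContinuousOn F {0}ᶜ) {r : ℝ} (hr : 0 < r) :
    Integrable (fun ω : Metric.sphere (0 : E) 1 => F (r • (ω : E))) sph :=
  (sph_cont hF hr).integrable_of_hasCompactSupport (HasCompactSupport.of_compactSpace _)

/-- A function continuous away from the origin is bounded on closed annuli. -/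
theorem annulus_bound {F : E → ℝ} (hF : ContinuousOn F {0}ᶜ) {r : ℝ} (hr : 0 < r) :
    ∃ C, ∀ s, s ∈ Icc (r / 2) (2 * r) → ∀ ω : Metric.sphere (0 : E) 1,
      ‖F (s • (ω : E))‖ ≤ C := by
  set K : Set (ℝ × Metric.sphere (0 : E) 1) := Icc (r / 2) (2 * r) ×ˢ univ with hK
  have hc : IsCompact K := isCompact_Icc.prod isCompact_univ
  have h1 : ContinuousOn (fun z : ℝ × Metric.sphere (0 : E) 1 => F (z.1 • (z.2 : E))) K := by
    refine hF.comp (Continuous.continuousOn (by fun_prop)) ?_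
    rintro ⟨s, ω⟩ hs
    have h2 : 0 < s := by
      have := hs.1.1
      simp only at this
      linarith
    exact ray_ne (sphere_norm ω) h2
  obtain ⟨C, hC⟩ := hc.exists_bound_of_continuousOn h1
  exact ⟨C, fun s hs ω => hC (s, ω) ⟨hs, mem_univ _⟩⟩

theorem annulus_nhds {r : ℝ} (hr : 0 < r) : Ioo (r / 2) (2 * r) ∈ 𝓝 r :=
  Ioo_mem_nhds (by linarith) (by linarith)

theorem sphInt_continuousAt {F : E → ℝ} (hF : ContinuousOn F {0}ᶜ) {r : ℝ} (hr : 0 < r) :
    ContinuousAt (fun s => ∫ ω, F (s • (ω : E)) ∂sph) r := by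
  obtain ⟨C, hC⟩ := annulus_bound hF hr
  refine continuousAt_of_dominated (bound := fun _ => C) ?_ ?_ (integrable_const _) ?_
  · filter_upwards [annulus_nhds hr] with s hs
    exact (sph_cont hF (by linarith [hs.1])).aestronglyMeasurable
  · filter_upwards [annulus_nhds hr] with s hs
    exact Eventually.of_forall fun ω => hC s ⟨hs.1.le, hs.2.le⟩ ω
  · refine Eventually.of_forall fun ω => ?_
    have h1 : ContinuousAt F (r • (ω : E)) :=
      hF.continuousAt (isOpen_compl_singleton.mem_nhds (ray_ne (sphere_norm ω) hr))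
    exact ContinuousAt.comp (f := fun s : ℝ => s • (ω : E)) h1 (by fun_prop)

theorem sphAvg_continuousAt {F : E → ℝ} (hF : ContinuousOn F {0}ᶜ) {r : ℝ} (hr : 0 < r) :
    ContinuousAt (sphAvg F) r :=
  (sphInt_continuousAt hF hr).const_mul _

theorem pd_cont {F : E → ℝ} (hF : ContDiffOn ℝ 1 F {0}ᶜ) (i : Fin 3) :
    ContinuousOn (pd i F) {0}ᶜ := by
  have h1 : ContinuousOn (fderiv ℝ F) {0}ᶜ :=
    hF.continuousOn_fderiv_of_isOpen isOpen_compl_singleton (by norm_num)
  exact h1.clm_apply continuousOn_const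

theorem unit_cont (i : Fin 3) : ContinuousOn (fun y : E => y i / ‖y‖) {0}ᶜ := by
  refine ContinuousOn.div (Continuous.continuousOn (pr i).continuous)
    continuous_norm.continuousOn ?_
  intro y hy
  exact norm_ne_zero_iff.2 hy

theorem dr_cont {F : E → ℝ} (hF : ContDiffOn ℝ 1 F {0}ᶜ) : ContinuousOn (dr F) {0}ᶜ := by
  unfold dr
  exact continuousOn_finsetSum _ fun i _ => (unit_cont i).mul (pd_cont hF i)

theorem sphAvg_hasDerivAt {F : E → ℝ} (hF : ContDiffOn ℝ 1 F {0}ᶜ) {r : ℝ} (hr : 0 < r) :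
    HasDerivAt (sphAvg F) (sphAvg (dr F) r) r := by
  obtain ⟨C, hC⟩ := annulus_bound (dr_cont hF) hr
  have h1 := hasDerivAt_integral_of_dominated_loc_of_deriv_le (μ := sph)
    (F := fun s (ω : Metric.sphere (0 : E) 1) => F (s • (ω : E)))
    (F' := fun s (ω : Metric.sphere (0 : E) 1) => dr F (s • (ω : E)))
    (bound := fun _ => C) (x₀ := r) (s := Ioo (r / 2) (2 * r)) (annulus_nhds hr)
    (by
      filter_upwards [annulus_nhds hr] with s hs
      exact (sph_cont hF.continuousOn (by linarith [hs.1])).aestronglyMeasurable)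
    (sph_integrable hF.continuousOn hr)
    ((sph_cont (dr_cont hF) hr).aestronglyMeasurable)
    (Eventually.of_forall fun ω s hs => hC s ⟨hs.1.le, hs.2.le⟩ ω)
    (integrable_const _)
    (Eventually.of_forall fun ω s hs => by
      have hs0 : 0 < s := by linarith [hs.1]
      have hx := ray_ne (sphere_norm ω) hs0
      exact hasDerivAt_ray (sphere_norm ω) hs0
        ((hF.contDiffAt (isOpen_compl_singleton.mem_nhds hx)).differentiableAt (by norm_num)))
  exact h1.2.const_mul _

theorem sphAvg_const (c : ℝ) (r : ℝ) : sphAvg (fun _ => c) r = c := by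
  unfold sphAvg
  rw [integral_const, sph_real_univ]
  have := Real.pi_ne_zero
  simp only [smul_eq_mul]
  field_simp

theorem sphAvg_mono {F G : E → ℝ} (hF : ContinuousOn F {0}ᶜ) (hG : ContinuousOn G {0}ᶜ) {r : ℝ}
    (hr : 0 < r) (h : ∀ ω : E, ‖ω‖ = 1 → F (r • ω) ≤ G (r • ω)) : sphAvg F r ≤ sphAvg G r := by
  unfold sphAvg
  have := Real.pi_pos
  refine mul_le_mul_of_nonneg_left ?_ (by positivity)
  exact integral_mono (sph_integrable hF hr) (sph_integrable hG hr)
    fun ω => h ω (sphere_norm ω)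

theorem sphAvg_congr {F G : E → ℝ} {r : ℝ}
    (h : ∀ ω : E, ‖ω‖ = 1 → F (r • ω) = G (r • ω)) : sphAvg F r = sphAvg G r := by
  unfold sphAvg
  congr 1
  exact integral_congr_ae (Eventually.of_forall fun ω => h ω (sphere_norm ω))

theorem sphAvg_add {F G : E → ℝ} (hF : ContinuousOn F {0}ᶜ) (hG : ContinuousOn G {0}ᶜ) {r : ℝ}
    (hr : 0 < r) : sphAvg (fun x => F x + G x) r = sphAvg F r + sphAvg G r := by
  unfold sphAvg
  rw [integral_add (sph_integrable hF hr) (sph_integrable hG hr), mul_add]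

theorem sphAvg_sub {F G : E → ℝ} (hF : ContinuousOn F {0}ᶜ) (hG : ContinuousOn G {0}ᶜ) {r : ℝ}
    (hr : 0 < r) : sphAvg (fun x => F x - G x) r = sphAvg F r - sphAvg G r := by
  unfold sphAvg
  rw [integral_sub (sph_integrable hF hr) (sph_integrable hG hr), mul_sub]

theorem sphAvg_mul (c : ℝ) (F : E → ℝ) (r : ℝ) :
    sphAvg (fun x => c * F x) r = c * sphAvg F r := by
  unfold sphAvg
  rw [integral_const_mul]
  ring

theorem sphAvg_abs_le {F G : E → ℝ} (hF : ContinuousOn F {0}ᶜ) (hG : ContinuousOn G {0}ᶜ) {r : ℝ}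
    (hr : 0 < r) (h : ∀ ω : E, ‖ω‖ = 1 → |F (r • ω)| ≤ G (r • ω)) :
    |sphAvg F r| ≤ sphAvg G r := by
  rw [abs_le]
  constructor
  · have h1 := sphAvg_mono (F := fun x => (-1) * G x) (G := F) (continuousOn_const.mul hG) hF hr
      (fun ω hω => by have := (abs_le.1 (h ω hω)).1; linarith)
    rw [sphAvg_mul] at h1
    linarith
  · exact sphAvg_mono hF hG hr fun ω hω => (abs_le.1 (h ω hω)).2

end Pool.Agent.K4H63.PI
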