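import Pool.Agent.K4H63.PI.Main3

/-!
# Two cases in which the averaged condition holds
-/

set_option autoImplicit false

namespace Pool.Agent.K4H63.PI

open scoped BigOperators Topology
open Matrix Filter Set MeasureTheory

/-- The averaged condition holds if `tr_S h` is constant on the sphere. -/
theorem avgCond_of_trS {φ : ℝ → ℝ} (hφ : Good φ) {h : E → Matrix (Fin 3) (Fin 3) ℝ}
    (H : Tensor h) {r : ℝ} (hr : 0 < r)
    (hc : ∃ c, ∀ w : E, ‖w‖ = 1 → trS φ h (r • w) = c) : AvgCond φ h r := by
  rw [avgCond_iff hφ h hr]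
  obtain ⟨c, hc⟩ := hc
  have hp := hφ.pos r hr
  have cA := H.hrad_smooth.continuousOn
  have cQ := H.qq_smooth.continuousOn
  have cN := H.transverse_cont
  set q : ℝ := (φ r) ^ 4 * c with hq
  have hQ : ∀ w : E, ‖w‖ = 1 → qq h (r • w) = q := by
    intro w hw
    have := hc w hw
    unfold trS at this
    rw [ray_norm hw hr] at this
    rw [hq, ← this]
    field_simp
  have h1 : sphAvg (qq h) r = q := by
    rw [sphAvg_congr (G := fun _ => q) hQ, sphAvg_const]
  have h2 := sphAvg_mono (r := r)
    (F := fun x => 2 * hrad h x * qq h x + (qq h x) ^ 2 / 2 - transverse h x)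
    (G := fun x => 2 * q * hrad h x + q ^ 2 / 2)
    ((((continuousOn_const.mul cA).mul cQ).add ((cQ.pow 2).div_const _)).sub cN)
    ((continuousOn_const.mul cA).add continuousOn_const) hr
    (fun w hw => by
      have := transverse_nonneg h (ray_ne hw hr)
      rw [hQ w hw]
      linarith)
  rw [sphAvg_add (F := fun x => 2 * q * hrad h x) (G := fun _ => q ^ 2 / 2)
    (continuousOn_const.mul cA) continuousOn_const hr, sphAvg_mul, sphAvg_const] at h2
  rw [h1]
  linarith

/-- The averaged condition holds if `tr_g h` is constant on the sphere. -/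
theorem avgCond_of_trg {φ : ℝ → ℝ} (hφ : Good φ) {h : E → Matrix (Fin 3) (Fin 3) ℝ}
    (H : Tensor h) {r : ℝ} (hr : 0 < r)
    (hc : ∃ c, ∀ w : E, ‖w‖ = 1 → trg (metric φ) h (r • w) = c) : AvgCond φ h r := by
  rw [avgCond_iff hφ h hr]
  obtain ⟨c, hc⟩ := hc
  have hp := hφ.pos r hr
  have cA := H.hrad_smooth.continuousOn
  have cQ := H.qq_smooth.continuousOn
  have cN := H.transverse_cont
  set t : ℝ := (φ r) ^ 4 * c with ht
  have hA : ∀ w : E, ‖w‖ = 1 → hrad h (r • w) = t - qq h (r • w) := by
    intro w hw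
    have h0 : φ ‖r • w‖ ≠ 0 := by rw [ray_norm hw hr]; exact hp.ne'
    have := hc w hw
    rw [trg_metric h h0, ray_norm hw hr] at this
    rw [ht, ← this]
    unfold qq
    field_simp
    ring
  have h1 : sphAvg (hrad h) r = t - sphAvg (qq h) r := by
    rw [sphAvg_congr (G := fun x => t - qq h x) hA,
      sphAvg_sub (F := fun _ => t) (G := qq h) continuousOn_const cQ hr, sphAvg_const]
  set b := sphAvg (qq h) r with hb
  have h2 := sphAvg_mono (r := r)
    (F := fun x => 2 * hrad h x * qq h x + (qq h x) ^ 2 / 2 - transverse h x)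
    (G := fun x => (2 * t - 3 * b) * qq h x + 3 / 2 * b ^ 2)
    ((((continuousOn_const.mul cA).mul cQ).add ((cQ.pow 2).div_const _)).sub cN)
    ((continuousOn_const.mul cQ).add continuousOn_const) hr
    (fun w hw => by
      have h3 := transverse_nonneg h (ray_ne hw hr)
      rw [hA w hw]
      nlinarith [sq_nonneg (qq h (r • w) - b)])
  rw [sphAvg_add (F := fun x => (2 * t - 3 * b) * qq h x) (G := fun _ => 3 / 2 * b ^ 2)
    (continuousOn_const.mul cQ) continuousOn_const hr, sphAvg_mul, sphAvg_const, ← hb] at h2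
  rw [h1]
  nlinarith

end Pool.Agent.K4H63.PI
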