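import Mathlib

/-!
# Initial data sets in coordinates

Riemannian metrics and symmetric 2-tensors on (open subsets of) `ℝ³`, written in coordinates:
Christoffel symbols, scalar curvature, covariant divergence, energy and momentum densities.
-/

set_option autoImplicit false

namespace Pool.Agent.K4H63.PI

open scoped BigOperators
open Matrix

/-- Euclidean three-space (the coordinate space). -/
abbrev E := EuclideanSpace ℝ (Fin 3)

/-- The `i`-th partial derivative. -/
noncomputable def pd (i : Fin 3) (F : E → ℝ) (x : E) : ℝ :=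
  fderiv ℝ F x (EuclideanSpace.single i 1)

/-- The Christoffel symbol `Γ^k_{ij}` of the metric `G`. -/
noncomputable def chr (G : E → Matrix (Fin 3) (Fin 3) ℝ) (k i j : Fin 3) (x : E) : ℝ :=
  1 / 2 * ∑ l, (G x)⁻¹ k l *
    (pd i (fun y => G y j l) x + pd j (fun y => G y i l) x - pd l (fun y => G y i j) x)

/-- The scalar curvature of the metric `G`:
`R = g^{jk} (∂_i Γ^i_{jk} - ∂_k Γ^i_{ij} + Γ^i_{il} Γ^l_{jk} - Γ^i_{kl} Γ^l_{ij})`. -/
noncomputable def scal (G : E → Matrix (Fin 3) (Fin 3) ℝ) (x : E) : ℝ :=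
  ∑ j, ∑ k, (G x)⁻¹ j k * ∑ i, (pd i (chr G i j k) x - pd k (chr G i i j) x +
    ∑ l, (chr G i i l x * chr G l j k x - chr G i k l x * chr G l i j x))

/-- The trace `tr_g h`. -/
noncomputable def trg (G h : E → Matrix (Fin 3) (Fin 3) ℝ) (x : E) : ℝ :=
  ∑ i, ∑ j, (G x)⁻¹ i j * h x i j

/-- The square of the norm, `|h|_g ^ 2`. -/
noncomputable def nsq (G h : E → Matrix (Fin 3) (Fin 3) ℝ) (x : E) : ℝ :=
  ∑ i, ∑ j, ∑ k, ∑ l, (G x)⁻¹ i k * (G x)⁻¹ j l * h x i j * h x k l

/-- The covariant derivative `∇_i T_{kj}` of a 2-tensor. -/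
noncomputable def cov (G T : E → Matrix (Fin 3) (Fin 3) ℝ) (i k j : Fin 3) (x : E) : ℝ :=
  pd i (fun y => T y k j) x - ∑ l, chr G l i k x * T x l j - ∑ l, chr G l i j x * T x k l

/-- The energy density `μ = (R - |h|² + (tr h)²) / 2`. -/
noncomputable def energy (G h : E → Matrix (Fin 3) (Fin 3) ℝ) (x : E) : ℝ :=
  1 / 2 * (scal G x - nsq G h x + (trg G h x) ^ 2)

/-- The momentum density `J = div (h - (tr h) g)` (a covector). -/
noncomputable def momentum (G h : E → Matrix (Fin 3) (Fin 3) ℝ) (j : Fin 3) (x : E) : ℝ :=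
  ∑ i, ∑ k, (G x)⁻¹ i k * cov G (fun y => h y - trg G h y • G y) i k j x

/-- The norm `|J|_g` of the momentum density. -/
noncomputable def momentumNorm (G h : E → Matrix (Fin 3) (Fin 3) ℝ) (x : E) : ℝ :=
  Real.sqrt (∑ i, ∑ j, (G x)⁻¹ i j * momentum G h i x * momentum G h j x)

/-- The spherically symmetric metric `g = φ(|x|)⁴ δ`. -/
noncomputable def metric (φ : ℝ → ℝ) (x : E) : Matrix (Fin 3) (Fin 3) ℝ :=
  (φ ‖x‖) ^ 4 • (1 : Matrix (Fin 3) (Fin 3) ℝ)

/-- The Euclidean trace of a tensor. -/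
noncomputable def tr0 (h : E → Matrix (Fin 3) (Fin 3) ℝ) (x : E) : ℝ := ∑ i, h x i i

/-- The radial component `h(x/|x|, x/|x|)` (Euclidean unit vector). -/
noncomputable def hrad (h : E → Matrix (Fin 3) (Fin 3) ℝ) (x : E) : ℝ :=
  ∑ i, ∑ j, h x i j * (x i / ‖x‖) * (x j / ‖x‖)

/-- The mixed part of `h`: the vector `h(x/|x|, ·)` minus its radial component. -/
noncomputable def mixed (h : E → Matrix (Fin 3) (Fin 3) ℝ) (i : Fin 3) (x : E) : ℝ :=
  ∑ j, h x i j * (x j / ‖x‖) - hrad h x * (x i / ‖x‖)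

/-- The Euclidean divergence of the mixed part. -/
noncomputable def divMixed (h : E → Matrix (Fin 3) (Fin 3) ℝ) (x : E) : ℝ :=
  ∑ i, pd i (mixed h i) x

end Pool.Agent.K4H63.PI
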