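import Pool.Agent.K4H63.PI.Polar

/-!
# The divergence of a tangential vector field has average zero on every centred sphere
-/

set_option autoImplicit false

namespace Pool.Agent.K4H63.PI

open scoped BigOperators Topology
open Matrix Filter Set MeasureTheory

theorem tsupport_radial {χ : ℝ → ℝ} {x : E} (hx : x ∈ tsupport fun y : E => χ ‖y‖) :
    ‖x‖ ∈ tsupport χ :=
  tsupport_comp_subset_preimage (f := fun y : E => ‖y‖) χ continuous_norm hx

theorem radial_contDiff {χ : ℝ → ℝ} (hχ : ContDiff ℝ ((⊤ : ℕ∞) : WithTop ℕ∞) χ) (h0 : (0 : ℝ) ∉ tsupport χ) :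
    ContDiff ℝ 1 fun x : E => χ ‖x‖ := by
  rw [contDiff_iff_contDiffAt]
  intro x
  by_cases hx : x = 0
  · have h1 : (fun x : E => χ ‖x‖) =ᶠ[𝓝 x] fun _ => 0 := by
      have h2 : ∀ᶠ t in 𝓝 (0 : ℝ), χ t = 0 := (notMem_tsupport_iff_eventuallyEq).1 h0
      have h3 : Tendsto (fun y : E => ‖y‖) (𝓝 x) (𝓝 0) := by
        have := (continuous_norm (E := E)).tendsto x
        rwa [hx, norm_zero, ← hx] at this
      filter_upwards [h3.eventually h2] with y hy
      exact hy
    exact contDiffAt_const.congr_of_eventuallyEq h1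
  · have h4 : ContDiffAt ℝ 1 χ ‖x‖ := (hχ.of_le (by norm_num)).contDiffAt
    exact h4.comp x (contDiffAt_norm ℝ hx)

theorem integral_cutoff_div {X : Fin 3 → E → ℝ} (hX : ∀ i, ContDiffOn ℝ 1 (X i) {0}ᶜ)
    (ht : ∀ x, x ≠ 0 → ∑ i, X i x * x i = 0) {χ : ℝ → ℝ} (hχ : ContDiff ℝ ((⊤ : ℕ∞) : WithTop ℕ∞) χ)
    (hs : HasCompactSupport χ) (hU : tsupport χ ⊆ Ioi 0) :
    ∫ x : E, χ ‖x‖ * ∑ i, pd i (X i) x = 0 := by
  have h0 : (0 : ℝ) ∉ tsupport χ := fun h => absurd (hU h) (lt_irrefl (0 : ℝ))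
  have hc : Continuous χ := hχ.continuous
  have hf := radial_contDiff hχ h0
  have hne : ∀ x : E, x ∈ tsupport (fun y : E => χ ‖y‖) → x ≠ 0 := by
    intro x hx hx0
    have := hU (tsupport_radial hx)
    rw [hx0, norm_zero] at this
    exact absurd this (lt_irrefl (0 : ℝ))
  have hdc : Continuous (deriv χ) := (hχ.of_le (by norm_num : (1 : WithTop ℕ∞) ≤ ((⊤ : ℕ∞) : WithTop ℕ∞))).continuous_deriv
    (by norm_num)
  have hds : HasCompactSupport (deriv χ) := hs.deriv
  have hd0 : (0 : ℝ) ∉ tsupport (deriv χ) := fun h => h0 (tsupport_deriv_subset h)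
  have hpd : ∀ (x : E) (i : Fin 3), pd i (fun y : E => χ ‖y‖) x = deriv χ ‖x‖ * (x i / ‖x‖) := by
    intro x i
    by_cases hx : x = 0
    · subst hx
      have h1 : (fun x : E => χ ‖x‖) =ᶠ[𝓝 (0 : E)] fun _ => 0 := by
        have h2 : ∀ᶠ t in 𝓝 (0 : ℝ), χ t = 0 := (notMem_tsupport_iff_eventuallyEq).1 h0
        have h3 : Tendsto (fun y : E => ‖y‖) (𝓝 (0 : E)) (𝓝 0) := by
          have := (continuous_norm (E := E)).tendsto 0
          rwa [norm_zero] at this
        filter_upwards [h3.eventually h2] with y hy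
        exact hy
      rw [pd_congr h1, pd_const]
      simp
    · exact pd_radial hx ((hχ.differentiable (by norm_num)).differentiableAt.hasDerivAt) i
  have hi : ∀ i, ∫ x : E, χ ‖x‖ * pd i (X i) x =
      -∫ x : E, deriv χ ‖x‖ * ((x i / ‖x‖) * X i x) := by
    intro i
    have h2 := integral_mul_fderiv_eq_neg_fderiv_mul_of_integrable (μ := (volume : Measure E))
      (f := fun x : E => χ ‖x‖) (g := X i) (v := EuclideanSpace.single i 1)
      (by
        have h3 := cutoff_integrable (G := fun x => (x i / ‖x‖) * X i x)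
          ((unit_cont i).mul (hX i).continuousOn) hdc hds hd0
        refine h3.congr (Eventually.of_forall fun x => ?_)
        have := hpd x i
        unfold pd at this
        simp only
        rw [this]
        ring)
      (cutoff_integrable (pd_cont (hX i) i) hc hs h0)
      (cutoff_integrable (hX i).continuousOn hc hs h0)
      (fun x _ => (hf.differentiable (by norm_num)).differentiableAt)
      (fun x hx => ((hX i).contDiffAt
        (isOpen_compl_singleton.mem_nhds (hne x hx))).differentiableAt (by norm_num))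
    refine h2.trans ?_
    congr 1
    refine integral_congr_ae (Eventually.of_forall fun x => ?_)
    have := hpd x i
    unfold pd at this
    simp only
    rw [this]
    ring
  have h5 : ∀ x : E, χ ‖x‖ * ∑ i, pd i (X i) x = ∑ i, χ ‖x‖ * pd i (X i) x :=
    fun x => Finset.mul_sum _ _ _
  simp only [h5]
  rw [integral_finsetSum _ fun i _ => cutoff_integrable (pd_cont (hX i) i) hc hs h0]
  simp only [hi]
  rw [Finset.sum_neg_distrib, ← integral_finsetSum _ fun i _ =>
    cutoff_integrable (G := fun x => (x i / ‖x‖) * X i x)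
      ((unit_cont i).mul (hX i).continuousOn) hdc hds hd0]
  rw [neg_eq_zero]
  rw [show (fun x : E => ∑ i, deriv χ ‖x‖ * ((x i / ‖x‖) * X i x)) = fun _ => 0 from ?_]
  · simp
  · funext x
    rw [← Finset.mul_sum]
    by_cases hx : x = 0
    · simp [hx]
    · have h6 : ∑ i, (x i / ‖x‖) * X i x = (∑ i, X i x * x i) / ‖x‖ := by
        rw [Finset.sum_div]
        exact Finset.sum_congr rfl fun i _ => by ring
      rw [h6, ht x hx]
      simp

/-- The divergence theorem on centred spheres. -/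
theorem sphInt_div_eq_zero {X : Fin 3 → E → ℝ} (hX : ∀ i, ContDiffOn ℝ 1 (X i) {0}ᶜ)
    (ht : ∀ x, x ≠ 0 → ∑ i, X i x * x i = 0) {r : ℝ} (hr : 0 < r) :
    ∫ ω, (∑ i, pd i (X i) (r • (ω : E))) ∂sph = 0 := by
  have hG : ContinuousOn (fun x : E => ∑ i, pd i (X i) x) {0}ᶜ :=
    continuousOn_finsetSum _ fun i _ => pd_cont (hX i) i
  set Φ : ℝ → ℝ := fun r => ∫ ω, (∑ i, pd i (X i) (r • (ω : E))) ∂sph with hΦ
  have hcont : ContinuousOn (fun r => r ^ 2 * Φ r) (Ioi 0) := by
    intro s hs
    refine ContinuousAt.continuousWithinAt ?_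
    exact (continuousAt_id.pow 2).mul (sphInt_continuousAt hG hs)
  have h1 : ∀ᵐ r ∂(volume : Measure ℝ), r ∈ Ioi (0:ℝ) → r ^ 2 * Φ r = 0 := by
    refine (isOpen_Ioi (a := (0 : ℝ))).ae_eq_zero_of_integral_contDiff_smul_eq_zero
      (hcont.locallyIntegrableOn (measurableSet_Ioi (a := (0 : ℝ)))) ?_
    intro χ hχ hs hU
    have h0 : (0 : ℝ) ∉ tsupport χ := fun h => absurd (hU h) (lt_irrefl (0 : ℝ))
    have h2 := integral_cutoff_div hX ht hχ hs hU
    rw [integral_polar (cutoff_integrable hG hχ.continuous hs h0)] at h2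
    have h3 : ∫ r in Ioi (0:ℝ), χ r • (r ^ 2 * Φ r) = 0 := by
      refine Eq.trans ?_ h2
      refine setIntegral_congr_fun measurableSet_Ioi fun s hs' => ?_
      simp only [smul_eq_mul, hΦ]
      have h4 : ∀ ω : Metric.sphere (0 : E) 1, ‖s • (ω : E)‖ = s :=
        fun ω => ray_norm (sphere_norm ω) hs'
      simp only [h4]
      rw [integral_const_mul]
      ring
    refine Eq.trans (Eq.symm ?_) h3
    refine setIntegral_eq_integral_of_forall_compl_eq_zero fun s hs' => ?_
    have : s ∉ tsupport χ := fun h => hs' (hU h)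
    rw [image_eq_zero_of_notMem_tsupport this, zero_smul]
  have h5 : (fun r => r ^ 2 * Φ r) =ᵐ[volume.restrict (Ioi 0)] fun _ => 0 :=
    (ae_restrict_iff' measurableSet_Ioi).2 h1
  have h6 := Measure.eqOn_open_of_ae_eq h5 isOpen_Ioi hcont continuousOn_const hr
  simp only at h6
  exact (mul_eq_zero.1 h6).resolve_left (by positivity)

theorem mixed_contDiffOn {h : E → Matrix (Fin 3) (Fin 3) ℝ} (H : Tensor h) (i : Fin 3) :
    ContDiffOn ℝ 1 (mixed h i) {0}ᶜ := by
  intro x hx
  refine ContDiffAt.contDiffWithinAt ?_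
  rw [mixed_eq]
  exact (ContDiffAt.sum fun j _ => (H.contDiffAt hx i j).mul (unit_contDiffAt hx j)).sub
    ((H.hrad_contDiffAt hx).mul (unit_contDiffAt hx i))

theorem mixed_tangential (h : E → Matrix (Fin 3) (Fin 3) ℝ) {x : E} (hx : x ≠ 0) :
    ∑ i, mixed h i x * x i = 0 := by
  have hr : ‖x‖ ≠ 0 := norm_ne_zero_iff.2 hx
  have hn := norm_sq_eq x
  have hh : hrad h x * ‖x‖ ^ 2 = ∑ i, ∑ j, h x i j * x i * x j := by
    unfold hrad
    rw [Finset.sum_mul]
    refine Finset.sum_congr rfl fun i _ => ?_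
    rw [Finset.sum_mul]
    refine Finset.sum_congr rfl fun j _ => ?_
    field_simp
  unfold mixed
  simp only [Fin.sum_univ_three] at hh ⊢
  field_simp
  linear_combination -hh + (hrad h x) * hn

theorem divMixed_cont {h : E → Matrix (Fin 3) (Fin 3) ℝ} (H : Tensor h) :
    ContinuousOn (divMixed h) {0}ᶜ :=
  continuousOn_finsetSum _ fun i _ => pd_cont (mixed_contDiffOn H i) i

/-- The mixed part of `h` drops out of the averages. -/
theorem sphAvg_divMixed {h : E → Matrix (Fin 3) (Fin 3) ℝ} (H : Tensor h) {r : ℝ} (hr : 0 < r) :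
    sphAvg (divMixed h) r = 0 := by
  unfold sphAvg divMixed
  rw [sphInt_div_eq_zero (fun i => mixed_contDiffOn H i) (fun x hx => mixed_tangential h hx) hr,
    mul_zero]

end Pool.Agent.K4H63.PI
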