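import Pool.Agent.K4H63.PI.Defs

/-!
# The geometry of the metric `φ(|x|)⁴ δ`
-/

set_option autoImplicit false

namespace Pool.Agent.K4H63.PI

open scoped BigOperators Topology
open Matrix Filter

/-- The Kronecker symbol. -/
def kd (i j : Fin 3) : ℝ := if i = j then 1 else 0

theorem norm_sq_eq (x : E) : ‖x‖ ^ 2 = x 0 ^ 2 + x 1 ^ 2 + x 2 ^ 2 := by
  rw [EuclideanSpace.norm_sq_eq]
  simp [Fin.sum_univ_three]

theorem sum_sq_eq (x : E) : ∑ i, x i ^ 2 = ‖x‖ ^ 2 := by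
  rw [norm_sq_eq, Fin.sum_univ_three]

theorem hasFDerivAt_norm' {x : E} (hx : x ≠ 0) :
    HasFDerivAt (fun y : E => ‖y‖) (‖x‖⁻¹ • innerSL ℝ x) x := by
  have hn : ‖x‖ ≠ 0 := norm_ne_zero_iff.2 hx
  have h1 := (hasStrictFDerivAt_norm_sq x).hasFDerivAt
  have h2 : HasFDerivAt (fun y : E => Real.sqrt (‖y‖ ^ 2))
      ((1 / (2 * Real.sqrt (‖x‖ ^ 2))) • (2 • innerSL ℝ x)) x :=
    h1.sqrt (by positivity)
  have h3 : (fun y : E => Real.sqrt (‖y‖ ^ 2)) = fun y : E => ‖y‖ := by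
    funext y
    exact Real.sqrt_sq (norm_nonneg y)
  rw [h3, Real.sqrt_sq (norm_nonneg x)] at h2
  have e : (1 / (2 * ‖x‖)) • ((2 : ℕ) • innerSL ℝ x) = ‖x‖⁻¹ • innerSL ℝ x := by
    rw [← Nat.cast_smul_eq_nsmul ℝ, smul_smul]
    congr 1
    push_cast
    field_simp
  rw [← e]
  exact h2

theorem pd_norm {x : E} (hx : x ≠ 0) (i : Fin 3) :
    pd i (fun y => ‖y‖) x = x i / ‖x‖ := by
  unfold pd
  rw [(hasFDerivAt_norm' hx).fderiv]
  simp only [ContinuousLinearMap.smul_apply, innerSL_apply_apply, smul_eq_mul,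
    EuclideanSpace.inner_single_right]
  simp
  ring

theorem hasFDerivAt_radial {x : E} (hx : x ≠ 0) {c : ℝ → ℝ} {c' : ℝ}
    (hc : HasDerivAt c c' ‖x‖) :
    HasFDerivAt (fun y : E => c ‖y‖) (c' • (‖x‖⁻¹ • innerSL ℝ x)) x :=
  hc.comp_hasFDerivAt x (hasFDerivAt_norm' hx)

theorem pd_radial {x : E} (hx : x ≠ 0) {c : ℝ → ℝ} {c' : ℝ} (hc : HasDerivAt c c' ‖x‖)
    (i : Fin 3) : pd i (fun y => c ‖y‖) x = c' * (x i / ‖x‖) := by
  unfold pd
  rw [(hasFDerivAt_radial hx hc).fderiv]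
  have := pd_norm hx i
  unfold pd at this
  rw [(hasFDerivAt_norm' hx).fderiv] at this
  rw [ContinuousLinearMap.smul_apply, this, smul_eq_mul]

/-- The coordinate functional. -/
noncomputable def pr (j : Fin 3) : E →L[ℝ] ℝ := EuclideanSpace.proj j

theorem pr_apply (j : Fin 3) (x : E) : pr j x = x j := rfl

theorem hasFDerivAt_coord (x : E) (j : Fin 3) :
    HasFDerivAt (fun y : E => y j) (pr j) x :=
  (pr j).hasFDerivAt

theorem pd_coord (x : E) (i j : Fin 3) : pd i (fun y => y j) x = kd i j := by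
  unfold pd kd
  rw [(hasFDerivAt_coord x j).fderiv, pr_apply]
  simp [eq_comm]

theorem pd_congr {F G : E → ℝ} {x : E} (h : F =ᶠ[𝓝 x] G) (i : Fin 3) : pd i F x = pd i G x := by
  unfold pd
  rw [h.fderiv_eq]

theorem metric_inv (φ : ℝ → ℝ) {x : E} (h : φ ‖x‖ ≠ 0) :
    (metric φ x)⁻¹ = ((φ ‖x‖) ^ 4)⁻¹ • (1 : Matrix (Fin 3) (Fin 3) ℝ) := by
  unfold metric
  apply Matrix.inv_eq_right_inv
  rw [Matrix.smul_mul, Matrix.mul_smul, Matrix.one_mul, smul_smul,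
    mul_inv_cancel₀ (pow_ne_zero 4 h), one_smul]

/-- `f_j = 2 ∂_j φ / φ`. -/
noncomputable def ff (φ : ℝ → ℝ) (j : Fin 3) (x : E) : ℝ :=
  2 * deriv φ ‖x‖ / (φ ‖x‖ * ‖x‖) * x j

theorem pd_metric (φ : ℝ → ℝ) {x : E} (hx : x ≠ 0) (hd : DifferentiableAt ℝ φ ‖x‖)
    (m i j : Fin 3) (h0 : φ ‖x‖ ≠ 0) :
    pd m (fun y => metric φ y i j) x = 2 * (φ ‖x‖) ^ 4 * ff φ m x * kd i j := by
  have hn : ‖x‖ ≠ 0 := norm_ne_zero_iff.2 hx
  have h1 : HasDerivAt (fun r => (φ r) ^ 4 * kd i j) (4 * (φ ‖x‖) ^ 3 * deriv φ ‖x‖ * kd i j) ‖x‖ := by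
    have := (hd.hasDerivAt.fun_pow 4).mul_const (kd i j)
    simpa using this
  have h2 := pd_radial hx h1 m
  have h3 : (fun y => metric φ y i j) = fun y : E => (φ ‖y‖) ^ 4 * kd i j := by
    funext y
    simp [metric, kd, Matrix.one_apply]
  rw [h3, h2]
  unfold ff
  field_simp
  ring

theorem chr_metric (φ : ℝ → ℝ) {x : E} (hx : x ≠ 0) (hd : DifferentiableAt ℝ φ ‖x‖)
    (h0 : φ ‖x‖ ≠ 0) (k i j : Fin 3) :
    chr (metric φ) k i j x =
      kd k i * ff φ j x + kd k j * ff φ i x - kd i j * ff φ k x := by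
  unfold chr
  rw [metric_inv φ h0]
  simp only [pd_metric φ hx hd _ _ _ h0, Matrix.smul_apply, smul_eq_mul, Matrix.one_apply]
  have e : (φ ‖x‖) ^ 4 ≠ 0 := pow_ne_zero 4 h0
  fin_cases k <;> fin_cases i <;> fin_cases j <;>
    simp [kd] <;> field_simp <;> ring

end Pool.Agent.K4H63.PI
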