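import Pool.Agent.K4H63.PI.Rad

/-!
# The key inequality and the mass function along a ray
-/

set_option autoImplicit false

namespace Pool.Agent.K4H63.PI

open scoped BigOperators Topology
open Matrix Filter

theorem sum_unit {x : E} (hx : x ≠ 0) : ∑ i, (x i / ‖x‖) ^ 2 = 1 := by
  have hr : ‖x‖ ≠ 0 := norm_ne_zero_iff.2 hx
  have := norm_sq_eq x
  rw [Fin.sum_univ_three]
  field_simp
  linear_combination -this

theorem momentumNorm_metric {φ : ℝ → ℝ} (h : E → Matrix (Fin 3) (Fin 3) ℝ) {x : E}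
    (h0 : φ ‖x‖ ≠ 0) : momentumNorm (metric φ) h x =
      Real.sqrt (((φ ‖x‖) ^ 4)⁻¹ * ∑ i, (momentum (metric φ) h i x) ^ 2) := by
  unfold momentumNorm
  rw [metric_inv φ h0]
  congr 1
  simp [Fin.sum_univ_three, Matrix.one_apply]
  ring

theorem radial_le {φ : ℝ → ℝ} (hφ : Good φ) (h : E → Matrix (Fin 3) (Fin 3) ℝ) {x : E}
    (hx : x ≠ 0) : |((φ ‖x‖) ^ 2)⁻¹ * ∑ j, (x j / ‖x‖) * momentum (metric φ) h j x| ≤
      momentumNorm (metric φ) h x := by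
  have h0 : φ ‖x‖ ≠ 0 := (hφ.pos _ (norm_pos_iff.2 hx)).ne'
  rw [momentumNorm_metric h h0]
  apply Real.abs_le_sqrt
  rw [mul_pow]
  have h1 := Finset.sum_mul_sq_le_sq_mul_sq Finset.univ (fun j => x j / ‖x‖)
    (fun j => momentum (metric φ) h j x)
  rw [sum_unit hx, one_mul] at h1
  have e : (((φ ‖x‖) ^ 2)⁻¹) ^ 2 = ((φ ‖x‖) ^ 4)⁻¹ := by
    rw [← inv_pow, ← pow_mul, inv_pow]
  rw [e]
  exact mul_le_mul_of_nonneg_left h1 (by positivity)

theorem frob (h : Matrix (Fin 3) (Fin 3) ℝ) (w : Fin 3 → ℝ) (hw : ∑ i, w i ^ 2 = 1) (a q : ℝ)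
    (ha : a = ∑ i, ∑ j, h i j * w i * w j) (hq : q = ∑ i, h i i - a) :
    a ^ 2 + q ^ 2 / 2 ≤ ∑ i, ∑ j, (h i j) ^ 2 := by
  have h1 : 0 ≤ ∑ i, ∑ j, (h i j - a * (w i * w j) - q / 2 * (kd i j - w i * w j)) ^ 2 :=
    Finset.sum_nonneg fun i _ => Finset.sum_nonneg fun j _ => sq_nonneg _
  have h2 : ∑ i, ∑ j, (h i j - a * (w i * w j) - q / 2 * (kd i j - w i * w j)) ^ 2 =
      ∑ i, ∑ j, (h i j) ^ 2 - (a ^ 2 + q ^ 2 / 2) := by
    simp only [Fin.sum_univ_three] at hw ha hq ⊢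
    simp only [kd]
    simp only [if_true, Fin.reduceEq, if_false]
    linear_combination (a ^ 2 * (w 0 ^ 2 + w 1 ^ 2 + w 2 ^ 2 + 1) +
      q ^ 2 / 4 * (w 0 ^ 2 + w 1 ^ 2 + w 2 ^ 2 - 1) -
      a * q * (w 0 ^ 2 + w 1 ^ 2 + w 2 ^ 2)) * hw + (2 * a - q) * ha + q * hq
  linarith

theorem frob_at (h : E → Matrix (Fin 3) (Fin 3) ℝ) {x : E} (hx : x ≠ 0) :
    (hrad h x) ^ 2 + (qq h x) ^ 2 / 2 ≤ ∑ i, ∑ j, (h x i j) ^ 2 :=
  frob (h x) (fun i => x i / ‖x‖) (sum_unit hx) _ _ rfl rfl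

/-- The square norm of the part of `h` transverse to the spherically symmetric tensors:
`|h|² - h(e,e)² - (tr_S h)²/2 = 2 |β|² + |h°|²` (Euclidean norms), where `β` is the mixed part and
`h°` the trace-free tangential part. -/
noncomputable def transverse (h : E → Matrix (Fin 3) (Fin 3) ℝ) (x : E) : ℝ :=
  ∑ i, ∑ j, (h x i j) ^ 2 - (hrad h x) ^ 2 - (qq h x) ^ 2 / 2

theorem transverse_nonneg (h : E → Matrix (Fin 3) (Fin 3) ℝ) {x : E} (hx : x ≠ 0) :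
    0 ≤ transverse h x := by
  have := frob_at h hx
  unfold transverse
  linarith

/-- The dominant energy condition, radial part, in coordinates. -/
theorem dec_radial {φ : ℝ → ℝ} (hφ : Good φ) {h : E → Matrix (Fin 3) (Fin 3) ℝ} (H : Tensor h)
    {x : E} (hx : x ≠ 0) (hdec : momentumNorm (metric φ) h x ≤ energy (metric φ) h x) :
    |2 * (φ ‖x‖) ^ 2 * (divMixed h x + (2 * hrad h x - qq h x) / ‖x‖ - dr (qq h) x +
        ‖x‖ * psi φ ‖x‖ * (2 * hrad h x + qq h x))| ≤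
      (φ ‖x‖) ^ 8 * scal (metric φ) x + 2 * hrad h x * qq h x + (qq h x) ^ 2 / 2 -
        transverse h x := by
  have hr : 0 < ‖x‖ := norm_pos_iff.2 hx
  have hp : 0 < φ ‖x‖ := hφ.pos _ hr
  have h1 := (radial_le hφ h hx).trans hdec
  rw [radial_momentum hφ H hx] at h1
  unfold energy at h1
  rw [trg_metric h hp.ne', nsq_metric h hp.ne'] at h1
  have ht : tr0 h x = hrad h x + qq h x := by unfold qq; ring
  rw [ht] at h1
  unfold transverse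
  generalize hrad h x = A at *
  generalize qq h x = Q at *
  generalize dr (qq h) x = dQ at *
  generalize divMixed h x = D at *
  generalize scal (metric φ) x = S at *
  generalize psi φ ‖x‖ = ps at *
  generalize (∑ i, ∑ j, (h x i j) ^ 2) = N at *
  generalize φ ‖x‖ = P at *
  generalize ‖x‖ = r at *
  set B := D + (2 * A - Q) / r - dQ + r * ps * (2 * A + Q) with hB
  have e1 : |(P ^ 2)⁻¹ * ((P ^ 4)⁻¹ * B)| * (2 * P ^ 8) = |2 * P ^ 2 * B| := by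
    rw [← abs_of_pos (show (0:ℝ) < 2 * P ^ 8 by positivity), ← abs_mul]
    congr 1
    field_simp
  have e2 : (1 / 2 * (S - (P ^ 8)⁻¹ * N + ((P ^ 4)⁻¹ * (A + Q)) ^ 2)) * (2 * P ^ 8) =
      P ^ 8 * S - N + (A + Q) ^ 2 := by
    field_simp
  have e3 := mul_le_mul_of_nonneg_right h1 (show (0:ℝ) ≤ 2 * P ^ 8 by positivity)
  rw [e1, e2] at e3
  linarith

/-- The algebra behind the monotonicity of the mass function. -/
theorem key_algebra {P r Q A dQ D S ps N : ℝ} (hP : 0 < P) (hr : 0 < r)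
    (h3 : |2 * P ^ 2 * (D + (2 * A - Q) / r - dQ + r * ps * (2 * A + Q))| ≤
      P ^ 8 * S + 2 * A * Q + Q ^ 2 / 2 - N)
    (hu : |r * Q| ≤ 2 * P ^ 2 * (1 + r ^ 2 * ps)) :
    r * Q * D + (1 + r ^ 2 * ps) * N ≤ (1 + r ^ 2 * ps) * (P ^ 8 * S) +
      r * Q * dQ + (3 / 2 - r ^ 2 * ps / 2) * Q ^ 2 := by
  set B := D + (2 * A - Q) / r - dQ + r * ps * (2 * A + Q) with hB
  have h4 : (r * Q) * (2 * P ^ 2 * B) ≤
      (2 * P ^ 2 * (1 + r ^ 2 * ps)) * (P ^ 8 * S + 2 * A * Q + Q ^ 2 / 2 - N) := by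
    refine (le_abs_self _).trans ?_
    rw [abs_mul]
    exact mul_le_mul hu h3 (abs_nonneg _) ((abs_nonneg _).trans hu)
  have h5 : r * Q * B ≤ (1 + r ^ 2 * ps) * (P ^ 8 * S + 2 * A * Q + Q ^ 2 / 2 - N) := by
    have : 0 < 2 * P ^ 2 := by positivity
    nlinarith [this]
  have h6 : r * Q * B = r * Q * D + 2 * A * Q - Q ^ 2 - r * Q * dQ +
      r ^ 2 * ps * (2 * A * Q + Q ^ 2) := by
    rw [hB]
    field_simp
    ring
  rw [h6] at h5
  linarith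

/-- The key inequality. -/
theorem key {φ : ℝ → ℝ} (hφ : Good φ) {h : E → Matrix (Fin 3) (Fin 3) ℝ} (H : Tensor h)
    {x : E} (hx : x ≠ 0) (hdec : momentumNorm (metric φ) h x ≤ energy (metric φ) h x)
    (hu : |‖x‖ * qq h x| ≤ 2 * (φ ‖x‖) ^ 2 * (1 + ‖x‖ ^ 2 * psi φ ‖x‖)) :
    ‖x‖ * qq h x * divMixed h x + (1 + ‖x‖ ^ 2 * psi φ ‖x‖) * transverse h x ≤
      (1 + ‖x‖ ^ 2 * psi φ ‖x‖) * ((φ ‖x‖) ^ 8 * scal (metric φ) x) +
      ‖x‖ * qq h x * dr (qq h) x + (3 / 2 - ‖x‖ ^ 2 * psi φ ‖x‖ / 2) * (qq h x) ^ 2 :=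
  key_algebra (hφ.pos _ (norm_pos_iff.2 hx)) (norm_pos_iff.2 hx) (dec_radial hφ H hx hdec) hu

end Pool.Agent.K4H63.PI
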