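import Pool.Agent.K4H63.PI.Cases

/-!
# Linear momentum: averages of divergences and of products with coordinate functions
-/

set_option autoImplicit false

namespace Pool.Agent.K4H63.PI

open scoped BigOperators Topology
open Matrix Filter Set MeasureTheory

/-- The coordinate functions on the unit sphere, extended radially. -/
noncomputable def un (j : Fin 3) (x : E) : ℝ := x j / ‖x‖

theorem un_smooth (j : Fin 3) : ContDiffOn ℝ 1 (un j) {0}ᶜ := fun _ hx =>
  (unit_contDiffAt hx j).contDiffWithinAt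

theorem un_cont (j : Fin 3) : ContinuousOn (un j) {0}ᶜ := (un_smooth j).continuousOn

theorem pd_un {x : E} (hx : x ≠ 0) (i j : Fin 3) :
    pd i (un j) x = kd i j / ‖x‖ - x i * x j / ‖x‖ ^ 3 := pd_unit hx i j

theorem un_ray {w : E} (hw : ‖w‖ = 1) {r : ℝ} (hr : 0 < r) (j : Fin 3) :
    un j (r • w) = w j := by
  unfold un
  rw [ray_norm hw hr, PiLp.smul_apply, smul_eq_mul]
  field_simp

theorem dr_mul {F G : E → ℝ} {x : E} (hF : DifferentiableAt ℝ F x) (hG : DifferentiableAt ℝ G x) :
    dr (fun y => F y * G y) x = F x * dr G x + G x * dr F x := by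
  unfold dr
  rw [Finset.mul_sum, Finset.mul_sum, ← Finset.sum_add_distrib]
  refine Finset.sum_congr rfl fun i _ => ?_
  rw [pd_mul hF hG]
  ring

theorem dr_sub {F G : E → ℝ} {x : E} (hF : DifferentiableAt ℝ F x) (hG : DifferentiableAt ℝ G x) :
    dr (fun y => F y - G y) x = dr F x - dr G x := by
  unfold dr
  rw [← Finset.sum_sub_distrib]
  refine Finset.sum_congr rfl fun i _ => ?_
  rw [pd_sub hF hG]
  ring

theorem dr_un {x : E} (hx : x ≠ 0) (j : Fin 3) : dr (un j) x = 0 := by
  have hr : ‖x‖ ≠ 0 := norm_ne_zero_iff.2 hx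
  have hn := norm_sq_eq x
  unfold dr
  simp only [pd_un hx]
  fin_cases j <;> simp [Fin.sum_univ_three, kd] <;> field_simp <;> rw [hn] <;> ring

theorem smooth_mul {F G : E → ℝ} (hF : ContDiffOn ℝ 1 F {0}ᶜ) (hG : ContDiffOn ℝ 1 G {0}ᶜ) :
    ContDiffOn ℝ 1 (fun x => F x * G x) {0}ᶜ := hF.mul hG

theorem smooth_diff {F : E → ℝ} (hF : ContDiffOn ℝ 1 F {0}ᶜ) {x : E} (hx : x ≠ 0) :
    DifferentiableAt ℝ F x :=
  (hF.contDiffAt (isOpen_compl_singleton.mem_nhds hx)).differentiableAt (by norm_num)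

theorem sphAvg_zero_of {X : Fin 3 → E → ℝ} (hX : ∀ i, ContDiffOn ℝ 1 (X i) {0}ᶜ)
    (ht : ∀ x, x ≠ 0 → ∑ i, X i x * x i = 0) {r : ℝ} (hr : 0 < r) :
    sphAvg (fun x => ∑ i, pd i (X i) x) r = 0 := by
  unfold sphAvg
  rw [sphInt_div_eq_zero hX ht hr, mul_zero]

/-- The divergence theorem: the average of `div V` is `(d/dr + 2/r)` of the average of the radial
component. -/
theorem sphAvg_div {V : Fin 3 → E → ℝ} (hV : ∀ i, ContDiffOn ℝ 1 (V i) {0}ᶜ) {r : ℝ}
    (hr : 0 < r) : sphAvg (fun x => ∑ i, pd i (V i) x) r =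
      sphAvg (dr (fun x => ∑ i, V i x * un i x)) r +
        2 / r * sphAvg (fun x => ∑ i, V i x * un i x) r := by
  set W : E → ℝ := fun x => ∑ i, V i x * un i x with hW
  have cW : ContDiffOn ℝ 1 W {0}ᶜ := ContDiffOn.sum fun i _ => (hV i).mul (un_smooth i)
  have h1 := sphAvg_zero_of (X := fun i x => V i x - W x * un i x)
    (fun i => (hV i).sub (cW.mul (un_smooth i))) (fun x hx => by
      have hr : ‖x‖ ≠ 0 := norm_ne_zero_iff.2 hx
      have hn := norm_sq_eq x
      simp only [hW, un, Fin.sum_univ_three]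
      field_simp
      linear_combination (V 0 x * x 0 + V 1 x * x 1 + V 2 x * x 2) * hn) hr
  have h2 : ∀ w : E, ‖w‖ = 1 → (∑ i, pd i (fun x => V i x - W x * un i x) (r • w)) =
      (fun x => (∑ i, pd i (V i) x) - (dr W x + 2 / r * W x)) (r • w) := by
    intro w hw
    have hx := ray_ne hw hr
    have hrn := ray_norm hw hr
    have hrx : ‖r • w‖ ≠ 0 := norm_ne_zero_iff.2 hx
    have hn := norm_sq_eq (r • w)
    have dW := smooth_diff cW hx
    simp only
    have h3 : ∀ i, pd i (fun x => V i x - W x * un i x) (r • w) =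
        pd i (V i) (r • w) - (W (r • w) * (kd i i / ‖r • w‖ -
          (r • w) i * (r • w) i / ‖r • w‖ ^ 3) + un i (r • w) * pd i W (r • w)) := by
      intro i
      have d1 : DifferentiableAt ℝ (fun x => W x * un i x) (r • w) :=
        dW.mul (smooth_diff (un_smooth i) hx)
      rw [pd_sub (smooth_diff (hV i) hx) d1,
        pd_mul dW (smooth_diff (un_smooth i) hx), pd_un hx]
    simp only [h3]
    rw [Finset.sum_sub_distrib, Finset.sum_add_distrib, ← Finset.mul_sum]
    have h4 : ∑ i, (kd i i / ‖r • w‖ - (r • w) i * (r • w) i / ‖r • w‖ ^ 3) = 2 / ‖r • w‖ := by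
      simp only [Fin.sum_univ_three, kd]
      simp only [if_true]
      field_simp
      linear_combination hn
    rw [h4]
    unfold dr un
    rw [hrn]
    ring
  have h5 := sphAvg_congr (F := fun x => ∑ i, pd i (fun x => V i x - W x * un i x) x)
    (G := fun x => (∑ i, pd i (V i) x) - (dr W x + 2 / r * W x)) (r := r) h2
  rw [h5] at h1
  have cD : ContinuousOn (fun x => ∑ i, pd i (V i) x) {0}ᶜ :=
    continuousOn_finsetSum _ fun i _ => pd_cont (hV i) i
  rw [sphAvg_sub (F := fun x => ∑ i, pd i (V i) x) (G := fun x => dr W x + 2 / r * W x) cD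
    ((dr_cont cW).add (continuousOn_const.mul cW.continuousOn)) hr,
    sphAvg_add (F := dr W) (G := fun x => 2 / r * W x) (dr_cont cW)
      (continuousOn_const.mul cW.continuousOn) hr, sphAvg_mul] at h1
  linarith

/-- The average of `u_j div X` for a tangential vector field `X`. -/
theorem sphAvg_un_div {X : Fin 3 → E → ℝ} (hX : ∀ i, ContDiffOn ℝ 1 (X i) {0}ᶜ)
    (ht : ∀ x, x ≠ 0 → ∑ i, X i x * x i = 0) (j : Fin 3) {r : ℝ} (hr : 0 < r) :
    sphAvg (fun x => un j x * ∑ i, pd i (X i) x) r = -(sphAvg (X j) r) / r := by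
  have h1 := sphAvg_zero_of (X := fun i x => un j x * X i x)
    (fun i => (un_smooth j).mul (hX i)) (fun x hx => by
      have : ∑ i, un j x * X i x * x i = un j x * ∑ i, X i x * x i := by
        rw [Finset.mul_sum]
        exact Finset.sum_congr rfl fun i _ => by ring
      rw [this, ht x hx, mul_zero]) hr
  have h2 : ∀ w : E, ‖w‖ = 1 → (∑ i, pd i (fun x => un j x * X i x) (r • w)) =
      (fun x => un j x * ∑ i, pd i (X i) x + 1 / r * X j x) (r • w) := by
    intro w hw
    have hx := ray_ne hw hr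
    have hrn := ray_norm hw hr
    have hrx : ‖r • w‖ ≠ 0 := norm_ne_zero_iff.2 hx
    have h3 : ∀ i, pd i (fun x => un j x * X i x) (r • w) =
        un j (r • w) * pd i (X i) (r • w) + X i (r • w) * (kd i j / ‖r • w‖ -
          (r • w) i * (r • w) j / ‖r • w‖ ^ 3) := by
      intro i
      rw [pd_mul (smooth_diff (un_smooth j) hx) (smooth_diff (hX i) hx), pd_un hx]
    simp only [h3]
    rw [Finset.sum_add_distrib, ← Finset.mul_sum]
    congr 1
    have h4 : ∑ i, X i (r • w) * (kd i j / ‖r • w‖ - (r • w) i * (r • w) j / ‖r • w‖ ^ 3) =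
        X j (r • w) / ‖r • w‖ - (∑ i, X i (r • w) * (r • w) i) * ((r • w) j / ‖r • w‖ ^ 3) := by
      rw [Finset.sum_mul]
      have : X j (r • w) / ‖r • w‖ = ∑ i, X i (r • w) * (kd i j / ‖r • w‖) := by
        rw [Finset.sum_eq_single j (fun i _ hij => by simp [kd, hij]) (by simp)]
        simp [kd]
        ring
      rw [this, ← Finset.sum_sub_distrib]
      exact Finset.sum_congr rfl fun i _ => by ring
    rw [h4, ht _ hx, hrn]
    ring
  have h5 := sphAvg_congr (F := fun x => ∑ i, pd i (fun x => un j x * X i x) x)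
    (G := fun x => un j x * ∑ i, pd i (X i) x + 1 / r * X j x) (r := r) h2
  rw [h5] at h1
  have cD : ContinuousOn (fun x => ∑ i, pd i (X i) x) {0}ᶜ :=
    continuousOn_finsetSum _ fun i _ => pd_cont (hX i) i
  rw [sphAvg_add (F := fun x => un j x * ∑ i, pd i (X i) x) (G := fun x => 1 / r * X j x)
    ((un_cont j).mul cD) (continuousOn_const.mul (hX j).continuousOn) hr, sphAvg_mul] at h1
  field_simp at h1 ⊢
  linarith

/-- The tangential part of the constant vector field `e_k`. -/
noncomputable def tn (k i : Fin 3) (x : E) : ℝ := kd k i - un k x * un i x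

theorem tn_smooth (k i : Fin 3) : ContDiffOn ℝ 1 (tn k i) {0}ᶜ :=
  contDiffOn_const.sub ((un_smooth k).mul (un_smooth i))

theorem tn_tangential (k : Fin 3) {x : E} (hx : x ≠ 0) : ∑ i, tn k i x * x i = 0 := by
  have hr : ‖x‖ ≠ 0 := norm_ne_zero_iff.2 hx
  have hn := norm_sq_eq x
  unfold tn un
  fin_cases k <;> simp [Fin.sum_univ_three, kd] <;> field_simp <;> rw [hn] <;> ring

theorem div_tn (k : Fin 3) {x : E} (hx : x ≠ 0) :
    ∑ i, pd i (tn k i) x = -(2 * un k x / ‖x‖) := by
  have hr : ‖x‖ ≠ 0 := norm_ne_zero_iff.2 hx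
  have hn := norm_sq_eq x
  have h1 : ∀ i, pd i (tn k i) x = -(un k x * (kd i i / ‖x‖ - x i * x i / ‖x‖ ^ 3) +
      un i x * (kd i k / ‖x‖ - x i * x k / ‖x‖ ^ 3)) := by
    intro i
    have d := smooth_diff (un_smooth k) hx
    have d' := smooth_diff (un_smooth i) hx
    have d1 : DifferentiableAt ℝ (fun y => un k y * un i y) x := d.mul d'
    rw [show tn k i = fun y => kd k i - un k y * un i y from rfl,
      pd_sub (differentiableAt_const _) d1, pd_const, pd_mul d d', pd_un hx, pd_un hx]
    ring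
  simp only [h1]
  unfold un
  fin_cases k <;> simp [Fin.sum_univ_three, kd] <;> field_simp <;> rw [hn] <;> ring

theorem sphAvg_un (k : Fin 3) {r : ℝ} (hr : 0 < r) : sphAvg (un k) r = 0 := by
  have h1 := sphAvg_zero_of (X := fun i => tn k i) (fun i => tn_smooth k i)
    (fun x hx => tn_tangential k hx) hr
  rw [sphAvg_congr (G := fun x => -(2 / r) * un k x) (fun w hw => by
    rw [div_tn k (ray_ne hw hr), ray_norm hw hr]
    ring), sphAvg_mul] at h1
  have : -(2 / r) ≠ 0 := by
    have : 0 < 2 / r := by positivity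
    linarith
  exact (mul_eq_zero.1 h1).resolve_left this

theorem sphAvg_un_un (j k : Fin 3) {r : ℝ} (hr : 0 < r) :
    sphAvg (fun x => un j x * un k x) r = kd j k / 3 := by
  have h1 := sphAvg_un_div (X := fun i => tn k i) (fun i => tn_smooth k i)
    (fun x hx => tn_tangential k hx) j hr
  have cu : ContinuousOn (fun x => un j x * un k x) {0}ᶜ := (un_cont j).mul (un_cont k)
  rw [sphAvg_congr (G := fun x => -(2 / r) * (un j x * un k x)) (fun w hw => by
    rw [div_tn k (ray_ne hw hr), ray_norm hw hr]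
    ring), sphAvg_mul] at h1
  have h2 : sphAvg (tn k j) r = kd k j - sphAvg (fun x => un k x * un j x) r := by
    rw [show tn k j = fun x => kd k j - un k x * un j x from rfl,
      sphAvg_sub (F := fun _ => kd k j) (G := fun x => un k x * un j x) continuousOn_const
        ((un_cont k).mul (un_cont j)) hr, sphAvg_const]
  have h3 : sphAvg (fun x => un k x * un j x) r = sphAvg (fun x => un j x * un k x) r :=
    sphAvg_congr fun w _ => mul_comm _ _
  have h4 : kd k j = kd j k := by simp [kd, eq_comm]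
  rw [h2, h3, h4] at h1
  field_simp at h1
  linarith

end Pool.Agent.K4H63.PI
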