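import Pool.Agent.K4H63.PI.Lin1

/-!
# Linear momentum: the transport equation for the average of `h(ν, ·)`
-/

set_option autoImplicit false

namespace Pool.Agent.K4H63.PI

open scoped BigOperators Topology
open Matrix Filter Set MeasureTheory

/-- `φ⁴` times the momentum density of `(φ⁴ δ, h)`. -/
noncomputable def JJ (φ : ℝ → ℝ) (h : E → Matrix (Fin 3) (Fin 3) ℝ) (j : Fin 3) (x : E) : ℝ :=
  ∑ i, pd i (fun y => h y i j) x - pd j (tr0 h) x + ∑ l, ff φ l x * h x l j +
    ff φ j x * tr0 h x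

theorem momentum_eq {φ : ℝ → ℝ} (hφ : Good φ) {h : E → Matrix (Fin 3) (Fin 3) ℝ}
    (H : Tensor h) {x : E} (hx : x ≠ 0) (j : Fin 3) :
    momentum (metric φ) h j x = ((φ ‖x‖) ^ 4)⁻¹ * JJ φ h j x := momentum_metric hφ H hx j

theorem Tensor.tr_smooth {h : E → Matrix (Fin 3) (Fin 3) ℝ} (H : Tensor h) :
    ContDiffOn ℝ 1 (tr0 h) {0}ᶜ := fun _ hx => (H.tr_contDiffAt hx).contDiffWithinAt

theorem ff_cont {φ : ℝ → ℝ} (hφ : Good φ) (l : Fin 3) : ContinuousOn (ff φ l) {0}ᶜ :=
  fun _ hx => (hasFDerivAt_ff hφ hx l).continuousAt.continuousWithinAt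

theorem JJ_cont {φ : ℝ → ℝ} (hφ : Good φ) {h : E → Matrix (Fin 3) (Fin 3) ℝ} (H : Tensor h)
    (j : Fin 3) : ContinuousOn (JJ φ h j) {0}ᶜ := by
  unfold JJ
  refine ((ContinuousOn.sub ?_ (pd_cont H.tr_smooth j)).add ?_).add
    ((ff_cont hφ j).mul H.tr_smooth.continuousOn)
  · exact continuousOn_finsetSum _ fun i _ => pd_cont (H.smooth i j) i
  · exact continuousOn_finsetSum _ fun l _ => (ff_cont hφ l).mul (H.smooth l j).continuousOn

theorem dr_congr {F G : E → ℝ} {x : E} (h : F =ᶠ[𝓝 x] G) : dr F x = dr G x := by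
  unfold dr
  refine Finset.sum_congr rfl fun i _ => ?_
  rw [pd_congr h]

theorem sphAvg_sum {F : Fin 3 → E → ℝ} (hF : ∀ i, ContinuousOn (F i) {0}ᶜ) {r : ℝ} (hr : 0 < r) :
    sphAvg (fun x => ∑ i, F i x) r = ∑ i, sphAvg (F i) r := by
  unfold sphAvg
  rw [integral_finsetSum _ fun i _ => sph_integrable (hF i) hr, Finset.mul_sum]

theorem row_eq {h : E → Matrix (Fin 3) (Fin 3) ℝ} (H : Tensor h) {x : E} (hx : x ≠ 0)
    (j : Fin 3) : ∑ i, h x i j * un i x = mixed h j x + hrad h x * un j x := by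
  unfold mixed un
  rw [sub_add_cancel]
  refine Finset.sum_congr rfl fun i _ => ?_
  rw [H.symm x hx i j]

/-- The average of the `j`-th component of the momentum density. -/
theorem avg_JJ {φ : ℝ → ℝ} (hφ : Good φ) {h : E → Matrix (Fin 3) (Fin 3) ℝ} (H : Tensor h)
    {r : ℝ} (hr : 0 < r) {q q' : ℝ} (hq : ∀ w : E, ‖w‖ = 1 → qq h (r • w) = q)
    (hq' : ∀ w : E, ‖w‖ = 1 → dr (qq h) (r • w) = q') (j : Fin 3) :
    sphAvg (JJ φ h j) r = sphAvg (dr (mixed h j)) r + 2 / r * sphAvg (mixed h j) r +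
      psi φ r * r * (sphAvg (mixed h j) r + 2 * sphAvg (fun x => hrad h x * un j x) r) := by
  have cM := mixed_contDiffOn H j
  have cA := H.hrad_smooth
  have cQ := H.qq_smooth
  have cT := H.tr_smooth
  have cu := un_smooth j
  set Z : Fin 3 → E → ℝ := fun i x => h x i j - tr0 h x * kd i j with hZ
  have cZ : ∀ i, ContDiffOn ℝ 1 (Z i) {0}ᶜ := fun i =>
    (H.smooth i j).sub (cT.mul contDiffOn_const)
  have g := sphAvg_div (V := Z) cZ hr
  set W : E → ℝ := fun x => ∑ i, Z i x * un i x with hW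
  have hWe : ∀ x, x ≠ 0 → W x = mixed h j x - qq h x * un j x := by
    intro x hx
    have h1 := row_eq H hx j
    have h2 : W x = ∑ i, h x i j * un i x - tr0 h x * un j x := by
      simp only [hW, hZ, sub_mul, Finset.sum_sub_distrib]
      congr 1
      rw [Finset.sum_eq_single j (fun i _ hij => by simp [kd, hij]) (by simp)]
      simp [kd]
    rw [h2, h1]
    unfold qq
    ring
  have hWd : ∀ x, x ≠ 0 → dr W x = dr (mixed h j) x - un j x * dr (qq h) x := by
    intro x hx
    have h1 : W =ᶠ[𝓝 x] fun y => mixed h j y - qq h y * un j y := by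
      filter_upwards [eventually_ne_zero hx] with y hy
      exact hWe y hy
    have d1 : DifferentiableAt ℝ (fun y => qq h y * un j y) x :=
      (smooth_diff cQ hx).mul (smooth_diff cu hx)
    rw [dr_congr h1, dr_sub (smooth_diff cM hx) d1,
      dr_mul (smooth_diff cQ hx) (smooth_diff cu hx), dr_un hx]
    ring
  have g1 : sphAvg W r = sphAvg (mixed h j) r := by
    rw [sphAvg_congr (G := fun x => mixed h j x - q * un j x) (fun w hw => by
      rw [hWe _ (ray_ne hw hr), hq w hw]),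
      sphAvg_sub (F := mixed h j) (G := fun x => q * un j x) cM.continuousOn
        (continuousOn_const.mul cu.continuousOn) hr, sphAvg_mul, sphAvg_un j hr]
    ring
  have g2 : sphAvg (dr W) r = sphAvg (dr (mixed h j)) r := by
    rw [sphAvg_congr (G := fun x => dr (mixed h j) x - q' * un j x) (fun w hw => by
      rw [hWd _ (ray_ne hw hr), hq' w hw]
      ring),
      sphAvg_sub (F := dr (mixed h j)) (G := fun x => q' * un j x) (dr_cont cM)
        (continuousOn_const.mul cu.continuousOn) hr, sphAvg_mul, sphAvg_un j hr]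
    ring
  rw [g1, g2] at g
  -- pointwise form of `JJ`
  have h3 : ∀ w : E, ‖w‖ = 1 → JJ φ h j (r • w) =
      (fun x => (∑ i, pd i (Z i) x) + (psi φ r * r * (mixed h j x + 2 * (hrad h x * un j x)) +
        psi φ r * r * q * un j x)) (r • w) := by
    intro w hw
    have hx := ray_ne hw hr
    have hrn := ray_norm hw hr
    have hrx : ‖r • w‖ ≠ 0 := norm_ne_zero_iff.2 hx
    have e1 : ∀ i, pd i (Z i) (r • w) = pd i (fun y => h y i j) (r • w) -
        kd i j * pd i (tr0 h) (r • w) := by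
      intro i
      have d1 : DifferentiableAt ℝ (fun y => tr0 h y * kd i j) (r • w) :=
        (smooth_diff cT hx).mul (differentiableAt_const _)
      rw [show Z i = fun y => h y i j - tr0 h y * kd i j from rfl,
        pd_sub (H.diff hx i j) d1, pd_mul (smooth_diff cT hx) (differentiableAt_const _),
        pd_const]
      ring
    have e2 : ∑ i, pd i (Z i) (r • w) = ∑ i, pd i (fun y => h y i j) (r • w) -
        pd j (tr0 h) (r • w) := by
      simp only [e1, Finset.sum_sub_distrib]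
      congr 1
      rw [Finset.sum_eq_single j (fun i _ hij => by simp [kd, hij]) (by simp)]
      simp [kd]
    have e3 : ∀ l, ff φ l (r • w) = psi φ r * r * un l (r • w) := by
      intro l
      rw [ff_eq, hrn]
      unfold un
      rw [hrn]
      field_simp
    have e4 := row_eq H hx j
    have e5 : ∑ l, ff φ l (r • w) * h (r • w) l j =
        psi φ r * r * ∑ i, h (r • w) i j * un i (r • w) := by
      rw [Finset.mul_sum]
      exact Finset.sum_congr rfl fun l _ => by rw [e3 l]; ring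
    have e6 : tr0 h (r • w) = hrad h (r • w) + q := by
      rw [← hq w hw]; unfold qq; ring
    unfold JJ
    simp only
    rw [e2, e5, e4, e3 j, e6]
    ring
  have cD : ContinuousOn (fun x => ∑ i, pd i (Z i) x) {0}ᶜ :=
    continuousOn_finsetSum _ fun i _ => pd_cont (cZ i) i
  have cAu : ContinuousOn (fun x => hrad h x * un j x) {0}ᶜ :=
    cA.continuousOn.mul cu.continuousOn
  have c1 : ContinuousOn (fun x => mixed h j x + 2 * (hrad h x * un j x)) {0}ᶜ :=
    cM.continuousOn.add (continuousOn_const.mul cAu)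
  have c2 : ContinuousOn (fun x => psi φ r * r * (mixed h j x + 2 * (hrad h x * un j x))) {0}ᶜ :=
    continuousOn_const.mul c1
  have c3 : ContinuousOn (fun x => psi φ r * r * q * un j x) {0}ᶜ :=
    continuousOn_const.mul cu.continuousOn
  rw [sphAvg_congr (G := fun x => (∑ i, pd i (Z i) x) +
      (psi φ r * r * (mixed h j x + 2 * (hrad h x * un j x)) + psi φ r * r * q * un j x)) h3,
    sphAvg_add (F := fun x => ∑ i, pd i (Z i) x)
      (G := fun x => psi φ r * r * (mixed h j x + 2 * (hrad h x * un j x)) +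
        psi φ r * r * q * un j x) cD (c2.add c3) hr,
    sphAvg_add (F := fun x => psi φ r * r * (mixed h j x + 2 * (hrad h x * un j x))) c2 c3 hr,
    sphAvg_mul, sphAvg_mul, sphAvg_un j hr, g,
    sphAvg_add (F := mixed h j) (G := fun x => 2 * (hrad h x * un j x)) cM.continuousOn
      (continuousOn_const.mul cAu) hr, sphAvg_mul]
  ring

/-- The radial component of `JJ`. -/
theorem radial_JJ {φ : ℝ → ℝ} (hφ : Good φ) {h : E → Matrix (Fin 3) (Fin 3) ℝ} (H : Tensor h)
    {x : E} (hx : x ≠ 0) : ∑ k, un k x * JJ φ h k x =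
      divMixed h x + (2 * hrad h x - qq h x) / ‖x‖ - dr (qq h) x +
        ‖x‖ * psi φ ‖x‖ * (2 * hrad h x + qq h x) := by
  have h1 := radial_momentum hφ H hx
  have hp := hφ.pos _ (norm_pos_iff.2 hx)
  have e : (φ ‖x‖) ^ 4 ≠ 0 := by positivity
  simp only [momentum_eq hφ H hx] at h1
  have h2 : ∑ j, (x j / ‖x‖) * (((φ ‖x‖) ^ 4)⁻¹ * JJ φ h j x) =
      ((φ ‖x‖) ^ 4)⁻¹ * ∑ k, un k x * JJ φ h k x := by
    rw [Finset.mul_sum]
    unfold un
    exact Finset.sum_congr rfl fun j _ => by ring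
  rw [h2] at h1
  exact mul_left_cancel₀ (inv_ne_zero e) h1

/-- The average of `u_j` times the radial component of the momentum density. -/
theorem avg_un_radial {φ : ℝ → ℝ} (hφ : Good φ) {h : E → Matrix (Fin 3) (Fin 3) ℝ} (H : Tensor h)
    {r : ℝ} (hr : 0 < r) {q q' : ℝ} (hq : ∀ w : E, ‖w‖ = 1 → qq h (r • w) = q)
    (hq' : ∀ w : E, ‖w‖ = 1 → dr (qq h) (r • w) = q') (j : Fin 3) :
    sphAvg (fun x => un j x * ∑ k, un k x * JJ φ h k x) r = -(sphAvg (mixed h j) r) / r +
      2 / r * (1 + r ^ 2 * psi φ r) * sphAvg (fun x => hrad h x * un j x) r := by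
  have cA := H.hrad_smooth
  have cu := un_smooth j
  have g := sphAvg_un_div (X := mixed h) (fun i => mixed_contDiffOn H i)
    (fun x hx => mixed_tangential h hx) j hr
  have h3 : ∀ w : E, ‖w‖ = 1 → (un j (r • w) * ∑ k, un k (r • w) * JJ φ h k (r • w)) =
      (fun x => un j x * ∑ i, pd i (mixed h i) x + (2 / r * (1 + r ^ 2 * psi φ r) *
        (hrad h x * un j x) + (-(q / r) - q' + r * psi φ r * q) * un j x)) (r • w) := by
    intro w hw
    have hx := ray_ne hw hr
    rw [radial_JJ hφ H hx, ray_norm hw hr, hq w hw, hq' w hw]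
    simp only [divMixed]
    field_simp
    ring
  have cD : ContinuousOn (fun x => un j x * ∑ i, pd i (mixed h i) x) {0}ᶜ :=
    cu.continuousOn.mul (continuousOn_finsetSum _ fun i _ => pd_cont (mixed_contDiffOn H i) i)
  have cAu : ContinuousOn (fun x => hrad h x * un j x) {0}ᶜ :=
    cA.continuousOn.mul cu.continuousOn
  have c2 : ContinuousOn (fun x => 2 / r * (1 + r ^ 2 * psi φ r) * (hrad h x * un j x)) {0}ᶜ :=
    continuousOn_const.mul cAu
  have c3 : ContinuousOn (fun x => (-(q / r) - q' + r * psi φ r * q) * un j x) {0}ᶜ :=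
    continuousOn_const.mul cu.continuousOn
  rw [sphAvg_congr (F := fun x => un j x * ∑ k, un k x * JJ φ h k x)
      (G := fun x => un j x * ∑ i, pd i (mixed h i) x + (2 / r * (1 + r ^ 2 * psi φ r) *
        (hrad h x * un j x) + (-(q / r) - q' + r * psi φ r * q) * un j x)) h3,
    sphAvg_add (F := fun x => un j x * ∑ i, pd i (mixed h i) x)
      (G := fun x => 2 / r * (1 + r ^ 2 * psi φ r) * (hrad h x * un j x) +
        (-(q / r) - q' + r * psi φ r * q) * un j x) cD (c2.add c3) hr,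
    sphAvg_add (F := fun x => 2 / r * (1 + r ^ 2 * psi φ r) * (hrad h x * un j x))
      (G := fun x => (-(q / r) - q' + r * psi φ r * q) * un j x) c2 c3 hr, sphAvg_mul, sphAvg_mul, sphAvg_un j hr, g]
  ring

/-- The momentum density tested with the vector fields `y e_j + (1 - y) u_j u`. -/
noncomputable def JT (φ : ℝ → ℝ) (h : E → Matrix (Fin 3) (Fin 3) ℝ) (y : ℝ) (j : Fin 3)
    (x : E) : ℝ := y * JJ φ h j x + (1 - y) * (un j x * ∑ k, un k x * JJ φ h k x)

theorem radJJ_cont {φ : ℝ → ℝ} (hφ : Good φ) {h : E → Matrix (Fin 3) (Fin 3) ℝ} (H : Tensor h) :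
    ContinuousOn (fun x => ∑ k, un k x * JJ φ h k x) {0}ᶜ :=
  continuousOn_finsetSum _ fun k _ => (un_cont k).mul (JJ_cont hφ H k)

theorem JT_cont {φ : ℝ → ℝ} (hφ : Good φ) {h : E → Matrix (Fin 3) (Fin 3) ℝ} (H : Tensor h)
    (y : ℝ) (j : Fin 3) : ContinuousOn (JT φ h y j) {0}ᶜ :=
  (continuousOn_const.mul (JJ_cont hφ H j)).add
    (continuousOn_const.mul ((un_cont j).mul (radJJ_cont hφ H)))

/-- The transport equation for the average `B_j` of the mixed part. -/
theorem transport {φ : ℝ → ℝ} (hφ : Good φ) {h : E → Matrix (Fin 3) (Fin 3) ℝ} (H : Tensor h)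
    {r : ℝ} (hr : 0 < r) {q q' : ℝ} (hq : ∀ w : E, ‖w‖ = 1 → qq h (r • w) = q)
    (hq' : ∀ w : E, ‖w‖ = 1 → dr (qq h) (r • w) = q') (j : Fin 3) :
    sphAvg (JT φ h (pp φ r) j) r = pp φ r * sphAvg (dr (mixed h j)) r +
      sphAvg (mixed h j) r / r * ((pp φ r) ^ 2 + 2 * pp φ r - 1) := by
  have c1 : ContinuousOn (fun x => pp φ r * JJ φ h j x) {0}ᶜ :=
    continuousOn_const.mul (JJ_cont hφ H j)
  have c2 : ContinuousOn (fun x => (1 - pp φ r) * (un j x * ∑ k, un k x * JJ φ h k x)) {0}ᶜ :=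
    continuousOn_const.mul ((un_cont j).mul (radJJ_cont hφ H))
  rw [show JT φ h (pp φ r) j = fun x => pp φ r * JJ φ h j x +
    (1 - pp φ r) * (un j x * ∑ k, un k x * JJ φ h k x) from rfl,
    sphAvg_add (F := fun x => pp φ r * JJ φ h j x) c1 c2 hr, sphAvg_mul, sphAvg_mul,
    avg_JJ hφ H hr hq hq' j, avg_un_radial hφ H hr hq hq' j]
  unfold pp
  field_simp
  ring

end Pool.Agent.K4H63.PI
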