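import Pool.Agent.K4H63.PI.Lin2

/-!
# Linear momentum: the dominant energy condition tested with vector fields
-/

set_option autoImplicit false

namespace Pool.Agent.K4H63.PI

open scoped BigOperators Topology
open Matrix Filter Set MeasureTheory

theorem frob2 (a b c d e f w0 w1 w2 v0 v1 v2 A Q : ℝ) (hw : w0 ^ 2 + w1 ^ 2 + w2 ^ 2 = 1)
    (h0 : v0 = a * w0 + b * w1 + c * w2) (h1 : v1 = b * w0 + d * w1 + e * w2)
    (h2 : v2 = c * w0 + e * w1 + f * w2) (hA : A = v0 * w0 + v1 * w1 + v2 * w2)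
    (hQ : Q = a + d + f - A) :
    A ^ 2 + Q ^ 2 / 2 + 2 * (v0 ^ 2 + v1 ^ 2 + v2 ^ 2 - A ^ 2) ≤
      a ^ 2 + d ^ 2 + f ^ 2 + 2 * (b ^ 2 + c ^ 2 + e ^ 2) := by
  have key : 0 ≤ (a - 2 * w0 * v0 + A * w0 ^ 2 - Q / 2 * (1 - w0 ^ 2)) ^ 2 +
      (d - 2 * w1 * v1 + A * w1 ^ 2 - Q / 2 * (1 - w1 ^ 2)) ^ 2 +
      (f - 2 * w2 * v2 + A * w2 ^ 2 - Q / 2 * (1 - w2 ^ 2)) ^ 2 +
      2 * (b - w0 * v1 - w1 * v0 + A * w0 * w1 + Q / 2 * (w0 * w1)) ^ 2 +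
      2 * (c - w0 * v2 - w2 * v0 + A * w0 * w2 + Q / 2 * (w0 * w2)) ^ 2 +
      2 * (e - w1 * v2 - w2 * v1 + A * w1 * w2 + Q / 2 * (w1 * w2)) ^ 2 := by positivity
  have id : (a - 2 * w0 * v0 + A * w0 ^ 2 - Q / 2 * (1 - w0 ^ 2)) ^ 2 +
      (d - 2 * w1 * v1 + A * w1 ^ 2 - Q / 2 * (1 - w1 ^ 2)) ^ 2 +
      (f - 2 * w2 * v2 + A * w2 ^ 2 - Q / 2 * (1 - w2 ^ 2)) ^ 2 +
      2 * (b - w0 * v1 - w1 * v0 + A * w0 * w1 + Q / 2 * (w0 * w1)) ^ 2 +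
      2 * (c - w0 * v2 - w2 * v0 + A * w0 * w2 + Q / 2 * (w0 * w2)) ^ 2 +
      2 * (e - w1 * v2 - w2 * v1 + A * w1 * w2 + Q / 2 * (w1 * w2)) ^ 2 =
      a ^ 2 + d ^ 2 + f ^ 2 + 2 * (b ^ 2 + c ^ 2 + e ^ 2) -
        (A ^ 2 + Q ^ 2 / 2 + 2 * (v0 ^ 2 + v1 ^ 2 + v2 ^ 2 - A ^ 2)) := by
    -- `⟨h, w vᵀ⟩ = |v|²`
    have k1 : a * w0 * v0 + b * (w0 * v1 + w1 * v0) + c * (w0 * v2 + w2 * v0) + d * w1 * v1 +
        e * (w1 * v2 + w2 * v1) + f * w2 * v2 = v0 ^ 2 + v1 ^ 2 + v2 ^ 2 := by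
      linear_combination (-v0) * h0 + (-v1) * h1 + (-v2) * h2
    have k2 : a * w0 ^ 2 + d * w1 ^ 2 + f * w2 ^ 2 + 2 * (b * w0 * w1 + c * w0 * w2 +
        e * w1 * w2) = A := by
      linear_combination (-w0) * h0 + (-w1) * h1 + (-w2) * h2 - hA
    have k3 : v0 * w0 + v1 * w1 + v2 * w2 = A := hA.symm
    have k4 : a + d + f = Q + A := by linarith
    set s := w0 ^ 2 + w1 ^ 2 + w2 ^ 2 with hs
    set n := v0 ^ 2 + v1 ^ 2 + v2 ^ 2 with hn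
    -- expand the left side in terms of the invariants
    have big : (a - 2 * w0 * v0 + A * w0 ^ 2 - Q / 2 * (1 - w0 ^ 2)) ^ 2 +
      (d - 2 * w1 * v1 + A * w1 ^ 2 - Q / 2 * (1 - w1 ^ 2)) ^ 2 +
      (f - 2 * w2 * v2 + A * w2 ^ 2 - Q / 2 * (1 - w2 ^ 2)) ^ 2 +
      2 * (b - w0 * v1 - w1 * v0 + A * w0 * w1 + Q / 2 * (w0 * w1)) ^ 2 +
      2 * (c - w0 * v2 - w2 * v0 + A * w0 * w2 + Q / 2 * (w0 * w2)) ^ 2 +
      2 * (e - w1 * v2 - w2 * v1 + A * w1 * w2 + Q / 2 * (w1 * w2)) ^ 2 =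
      (a ^ 2 + d ^ 2 + f ^ 2 + 2 * (b ^ 2 + c ^ 2 + e ^ 2)) -
      4 * (a * w0 * v0 + b * (w0 * v1 + w1 * v0) + c * (w0 * v2 + w2 * v0) + d * w1 * v1 +
        e * (w1 * v2 + w2 * v1) + f * w2 * v2) +
      2 * (A + Q / 2) * (a * w0 ^ 2 + d * w1 ^ 2 + f * w2 ^ 2 + 2 * (b * w0 * w1 +
        c * w0 * w2 + e * w1 * w2)) + 2 * s * n + 2 * (v0 * w0 + v1 * w1 + v2 * w2) ^ 2 -
      4 * (A + Q / 2) * s * (v0 * w0 + v1 * w1 + v2 * w2) + (A + Q / 2) ^ 2 * s ^ 2 -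
      Q * (a + d + f) + 2 * Q * (v0 * w0 + v1 * w1 + v2 * w2) -
      Q * (A + Q / 2) * s + 3 * (Q / 2) ^ 2 := by
      rw [hs, hn]
      ring
    rw [big, k1, k2, k3, k4, hw]
    ring
  linarith

theorem transverse_ge {h : E → Matrix (Fin 3) (Fin 3) ℝ} (H : Tensor h) {x : E} (hx : x ≠ 0) :
    2 * ∑ i, (mixed h i x) ^ 2 ≤ transverse h x := by
  have hw := sum_unit hx
  rw [Fin.sum_univ_three] at hw
  have s10 := H.symm x hx 1 0
  have s20 := H.symm x hx 2 0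
  have s21 := H.symm x hx 2 1
  set w0 := x 0 / ‖x‖ with hw0
  set w1 := x 1 / ‖x‖ with hw1
  set w2 := x 2 / ‖x‖ with hw2
  have hA : hrad h x = (h x 0 0 * w0 + h x 0 1 * w1 + h x 0 2 * w2) * w0 +
      (h x 0 1 * w0 + h x 1 1 * w1 + h x 1 2 * w2) * w1 +
      (h x 0 2 * w0 + h x 1 2 * w1 + h x 2 2 * w2) * w2 := by
    unfold hrad
    simp only [Fin.sum_univ_three, s10, s20, s21, ← hw0, ← hw1, ← hw2]
    ring
  have hQ : qq h x = h x 0 0 + h x 1 1 + h x 2 2 - hrad h x := by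
    unfold qq tr0
    simp only [Fin.sum_univ_three]
  have f2 := frob2 (h x 0 0) (h x 0 1) (h x 0 2) (h x 1 1) (h x 1 2) (h x 2 2) w0 w1 w2 _ _ _
    (hrad h x) (qq h x) hw rfl rfl rfl hA hQ
  have hX : ∑ i, (mixed h i x) ^ 2 = (h x 0 0 * w0 + h x 0 1 * w1 + h x 0 2 * w2) ^ 2 +
      (h x 0 1 * w0 + h x 1 1 * w1 + h x 1 2 * w2) ^ 2 +
      (h x 0 2 * w0 + h x 1 2 * w1 + h x 2 2 * w2) ^ 2 - (hrad h x) ^ 2 := by
    unfold mixed
    simp only [Fin.sum_univ_three, s10, s20, s21, ← hw0, ← hw1, ← hw2]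
    linear_combination (hrad h x) ^ 2 * hw + 2 * hrad h x * hA
  have hN : ∑ i, ∑ j, (h x i j) ^ 2 = (h x 0 0) ^ 2 + (h x 1 1) ^ 2 + (h x 2 2) ^ 2 +
      2 * ((h x 0 1) ^ 2 + (h x 0 2) ^ 2 + (h x 1 2) ^ 2) := by
    simp only [Fin.sum_univ_three, s10, s20, s21]
    ring
  unfold transverse
  rw [hX, hN]
  linarith

/-- The average of the transverse part is at least `3 |B|²`. -/
theorem avg_transverse_ge {h : E → Matrix (Fin 3) (Fin 3) ℝ} (H : Tensor h) {r : ℝ}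
    (hr : 0 < r) : 3 * ∑ i, (sphAvg (mixed h i) r) ^ 2 ≤ sphAvg (transverse h) r := by
  set B : Fin 3 → ℝ := fun i => sphAvg (mixed h i) r with hB
  have cM := fun i => (mixed_contDiffOn H i).continuousOn
  have c1 : ∀ i, ContinuousOn (fun x => 6 * B i * mixed h i x) {0}ᶜ := fun i =>
    continuousOn_const.mul (cM i)
  have c2 : ∀ i j, ContinuousOn (fun x => 9 / 2 * (B i * B j) * (un i x * un j x)) {0}ᶜ :=
    fun i j => continuousOn_const.mul ((un_cont i).mul (un_cont j))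
  have c1' : ContinuousOn (fun x => ∑ i, 6 * B i * mixed h i x) {0}ᶜ :=
    continuousOn_finsetSum _ fun i _ => c1 i
  have c2'' : ∀ i, ContinuousOn (fun x => ∑ j, 9 / 2 * (B i * B j) * (un i x * un j x)) {0}ᶜ :=
    fun i => continuousOn_finsetSum _ fun j _ => c2 i j
  have c2' : ContinuousOn (fun x => ∑ i, ∑ j, 9 / 2 * (B i * B j) * (un i x * un j x)) {0}ᶜ :=
    continuousOn_finsetSum _ fun i _ => c2'' i
  have h1 := sphAvg_mono (r := r)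
    (F := fun x => ((∑ i, 6 * B i * mixed h i x) +
      ∑ i, ∑ j, 9 / 2 * (B i * B j) * (un i x * un j x)) + -(9 / 2) * ∑ i, (B i) ^ 2)
    (G := transverse h) ((c1'.add c2').add continuousOn_const) H.transverse_cont hr
    (fun w hw => by
      have hx := ray_ne hw hr
      refine le_trans ?_ (transverse_ge H hx)
      have ht := mixed_tangential h hx
      have hu := sum_unit hx
      have hu0 := un_ray hw hr 0
      have hu1 := un_ray hw hr 1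
      have hu2 := un_ray hw hr 2
      have hwn := norm_sq_eq w
      rw [hw] at hwn
      simp only [PiLp.smul_apply, smul_eq_mul] at ht
      simp only [Fin.sum_univ_three] at ht ⊢
      rw [hu0, hu1, hu2]
      have ht' : mixed h 0 (r • w) * w 0 + mixed h 1 (r • w) * w 1 + mixed h 2 (r • w) * w 2
          = 0 := by
        have : r * (mixed h 0 (r • w) * w 0 + mixed h 1 (r • w) * w 1 +
            mixed h 2 (r • w) * w 2) = 0 := by linarith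
        exact (mul_eq_zero.1 this).resolve_left hr.ne'
      set X0 := mixed h 0 (r • w)
      set X1 := mixed h 1 (r • w)
      set X2 := mixed h 2 (r • w)
      have p0 := sq_nonneg (X0 - 3 / 2 * (B 0 - (B 0 * w 0 + B 1 * w 1 + B 2 * w 2) * w 0))
      have p1 := sq_nonneg (X1 - 3 / 2 * (B 1 - (B 0 * w 0 + B 1 * w 1 + B 2 * w 2) * w 1))
      have p2 := sq_nonneg (X2 - 3 / 2 * (B 2 - (B 0 * w 0 + B 1 * w 1 + B 2 * w 2) * w 2))
      set D := B 0 * w 0 + B 1 * w 1 + B 2 * w 2 with hD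
      have id : (X0 - 3 / 2 * (B 0 - D * w 0)) ^ 2 + (X1 - 3 / 2 * (B 1 - D * w 1)) ^ 2 +
          (X2 - 3 / 2 * (B 2 - D * w 2)) ^ 2 = (X0 ^ 2 + X1 ^ 2 + X2 ^ 2) -
          3 * (X0 * B 0 + X1 * B 1 + X2 * B 2) +
          9 / 4 * ((B 0 ^ 2 + B 1 ^ 2 + B 2 ^ 2) - D ^ 2) := by
        linear_combination 3 * D * ht' - 9 / 4 * D ^ 2 * hwn + 9 / 2 * D * hD
      have : D ^ 2 = B 0 * B 0 * (w 0 * w 0) + B 0 * B 1 * (w 0 * w 1) + B 0 * B 2 * (w 0 * w 2) +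
          (B 1 * B 0 * (w 1 * w 0) + B 1 * B 1 * (w 1 * w 1) + B 1 * B 2 * (w 1 * w 2)) +
          (B 2 * B 0 * (w 2 * w 0) + B 2 * B 1 * (w 2 * w 1) + B 2 * B 2 * (w 2 * w 2)) := by
        rw [hD]; ring
      nlinarith [p0, p1, p2, id, this])
  rw [sphAvg_add (F := fun x => (∑ i, 6 * B i * mixed h i x) +
      ∑ i, ∑ j, 9 / 2 * (B i * B j) * (un i x * un j x))
      (G := fun _ => -(9 / 2) * ∑ i, (B i) ^ 2) (c1'.add c2') continuousOn_const hr,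
    sphAvg_add (F := fun x => ∑ i, 6 * B i * mixed h i x)
      (G := fun x => ∑ i, ∑ j, 9 / 2 * (B i * B j) * (un i x * un j x)) c1' c2' hr,
    sphAvg_const, sphAvg_sum c1 hr, sphAvg_sum c2'' hr] at h1
  have e1 : ∀ i, sphAvg (fun x => 6 * B i * mixed h i x) r = 6 * (B i) ^ 2 := by
    intro i
    rw [sphAvg_mul]
    simp only [hB]
    ring
  have e2 : ∀ i, sphAvg (fun x => ∑ j, 9 / 2 * (B i * B j) * (un i x * un j x)) r =
      3 / 2 * (B i) ^ 2 := by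
    intro i
    rw [sphAvg_sum (c2 i) hr]
    have e3 : ∀ j, sphAvg (fun x => 9 / 2 * (B i * B j) * (un i x * un j x)) r =
        9 / 2 * (B i * B j) * (kd i j / 3) := by
      intro j
      rw [sphAvg_mul, sphAvg_un_un i j hr]
    simp only [e3]
    rw [Finset.sum_eq_single i (fun j _ hij => by simp [kd, Ne.symm hij]) (by simp)]
    simp [kd]
    ring
  simp only [e1, e2, ← Finset.mul_sum] at h1
  linarith

/-- The dominant energy condition tested with a vector. -/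
theorem dec_test {φ : ℝ → ℝ} (hφ : Good φ) {h : E → Matrix (Fin 3) (Fin 3) ℝ} (H : Tensor h)
    {x : E} (hx : x ≠ 0) (hdec : momentumNorm (metric φ) h x ≤ energy (metric φ) h x)
    {V : Fin 3 → ℝ} (hV : ∑ i, V i ^ 2 ≤ 1) :
    2 * (φ ‖x‖) ^ 2 * ∑ i, V i * JJ φ h i x ≤ (φ ‖x‖) ^ 8 * scal (metric φ) x +
      (2 * hrad h x * qq h x + (qq h x) ^ 2 / 2 - transverse h x) := by
  have hr : 0 < ‖x‖ := norm_pos_iff.2 hx
  have hp : 0 < φ ‖x‖ := hφ.pos _ hr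
  have h1 : ((φ ‖x‖) ^ 2)⁻¹ * ∑ i, V i * momentum (metric φ) h i x ≤
      momentumNorm (metric φ) h x := by
    rw [momentumNorm_metric h hp.ne']
    refine (le_abs_self _).trans (Real.abs_le_sqrt ?_)
    rw [mul_pow]
    have h1 := Finset.sum_mul_sq_le_sq_mul_sq Finset.univ V
      (fun j => momentum (metric φ) h j x)
    have h2 : (∑ i, V i ^ 2) * ∑ i, (momentum (metric φ) h i x) ^ 2 ≤
        ∑ i, (momentum (metric φ) h i x) ^ 2 :=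
      mul_le_of_le_one_left (Finset.sum_nonneg fun i _ => sq_nonneg _) hV
    have e : (((φ ‖x‖) ^ 2)⁻¹) ^ 2 = ((φ ‖x‖) ^ 4)⁻¹ := by
      rw [← inv_pow, ← pow_mul, inv_pow]
    rw [e]
    exact mul_le_mul_of_nonneg_left (h1.trans h2) (by positivity)
  have h3 : ∑ i, V i * momentum (metric φ) h i x =
      ((φ ‖x‖) ^ 4)⁻¹ * ∑ i, V i * JJ φ h i x := by
    rw [Finset.mul_sum]
    refine Finset.sum_congr rfl fun i _ => ?_
    rw [momentum_eq hφ H hx]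
    ring
  have h4 := h1.trans hdec
  rw [h3] at h4
  unfold energy at h4
  rw [trg_metric h hp.ne', nsq_metric h hp.ne'] at h4
  have ht : tr0 h x = hrad h x + qq h x := by unfold qq; ring
  rw [ht] at h4
  unfold transverse
  have h5 := mul_le_mul_of_nonneg_right h4 (show (0:ℝ) ≤ 2 * (φ ‖x‖) ^ 8 by positivity)
  have e1 : ((φ ‖x‖) ^ 2)⁻¹ * (((φ ‖x‖) ^ 4)⁻¹ * ∑ i, V i * JJ φ h i x) *
      (2 * (φ ‖x‖) ^ 8) = 2 * (φ ‖x‖) ^ 2 * ∑ i, V i * JJ φ h i x := by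
    field_simp
  have e2 : (1 / 2 * (scal (metric φ) x - ((φ ‖x‖) ^ 8)⁻¹ * ∑ i, ∑ j, (h x i j) ^ 2 +
      (((φ ‖x‖) ^ 4)⁻¹ * (hrad h x + qq h x)) ^ 2)) * (2 * (φ ‖x‖) ^ 8) =
      (φ ‖x‖) ^ 8 * scal (metric φ) x - ∑ i, ∑ j, (h x i j) ^ 2 +
        (hrad h x + qq h x) ^ 2 := by
    field_simp
  rw [e1, e2] at h5
  linarith

end Pool.Agent.K4H63.PI
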