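import Pool.Agent.K4H63.PI.Lin3

/-!
# Linear momentum: the monotone quantity
-/

set_option autoImplicit false

namespace Pool.Agent.K4H63.PI

open scoped BigOperators Topology
open Matrix Filter Set MeasureTheory

theorem psi_alg {P r y q F F' b2 BB BJ ps : ℝ} (hP : 0 < P) (hr : 0 < r) (hy : 0 < y)
    (hps : y = 1 + r ^ 2 * ps) (hF : F = P ^ 2 * r * (1 - y ^ 2) + r ^ 3 * q ^ 2 / (4 * P ^ 2))
    (hB : BJ = y * BB + b2 / r * (y ^ 2 + 2 * y - 1)) :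
    y * (2 * F * F' + (3 * r ^ 2 * F * b2 / P ^ 2 + r ^ 3 * F' * b2 / P ^ 2 +
      r ^ 3 * F * (2 * BB) / P ^ 2 - 2 * r ^ 3 * F * b2 * (r * P * ps / 2) / P ^ 3) -
      4 * r ^ 3 * b2 - r ^ 4 * (2 * BB)) =
    y * F' * (2 * F + r ^ 3 * b2 / P ^ 2) - 3 * r ^ 2 * y ^ 2 / P ^ 2 * b2 * F +
      2 * r ^ 3 * b2 * (r * q / (2 * P ^ 2)) ^ 2 - 2 * r ^ 4 * (1 - F / (P ^ 2 * r)) * BJ := by
  have h1 : ps = (y - 1) / r ^ 2 := by
    rw [hps]; field_simp; ring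
  have h2 : BB = (BJ - b2 / r * (y ^ 2 + 2 * y - 1)) / y := by
    rw [hB]; field_simp; ring
  rw [h1, h2, hF]
  field_simp
  ring

/-- The sign in the case where the linear momentum of the matter vanishes on the sphere. -/
theorem psi_sign_two {P r y q F F' b2 : ℝ} (hP : 0 < P) (hr : 0 < r) (hy : 0 < y)
    (hF0 : 0 ≤ F) (hb : 0 ≤ b2) (hF' : r ^ 2 / (2 * P ^ 2) * (y * (3 * b2)) ≤ F') :
    0 ≤ y * F' * (2 * F + r ^ 3 * b2 / P ^ 2) - 3 * r ^ 2 * y ^ 2 / P ^ 2 * b2 * F +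
      2 * r ^ 3 * b2 * (r * q / (2 * P ^ 2)) ^ 2 - 2 * r ^ 4 * (1 - F / (P ^ 2 * r)) * 0 := by
  have hF'0 : 0 ≤ F' := le_trans (by positivity) hF'
  have h1 : r ^ 2 / (2 * P ^ 2) * (y * (3 * b2)) * (y * (2 * F)) ≤ F' * (y * (2 * F)) :=
    mul_le_mul_of_nonneg_right hF' (by positivity)
  have h2 : r ^ 2 / (2 * P ^ 2) * (y * (3 * b2)) * (y * (2 * F)) =
      3 * r ^ 2 * y ^ 2 / P ^ 2 * b2 * F := by
    field_simp
  have h3 : 0 ≤ y * F' * (r ^ 3 * b2 / P ^ 2) := by positivity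
  have h4 : 0 ≤ 2 * r ^ 3 * b2 * (r * q / (2 * P ^ 2)) ^ 2 := by positivity
  nlinarith

/-- The sign in the case `tr_S h = 0`. -/
theorem psi_sign_one {P r y F T b BJ : ℝ} (hP : 0 < P) (hr : 0 < r) (hy : 0 < y)
    (hF : F = P ^ 2 * r * (1 - y ^ 2)) (hF0 : 0 < F) (hb : 0 ≤ b)
    (hPsi : 0 ≤ F ^ 2 + r ^ 3 * F * b ^ 2 / P ^ 2 - r ^ 4 * b ^ 2)
    (hT : 3 * b ^ 2 ≤ T) (hT' : 2 * P ^ 2 * BJ ≤ b * (T - 3 * b ^ 2)) :
    0 ≤ y * (r ^ 2 / (2 * P ^ 2) * (y * T)) * (2 * F + r ^ 3 * b ^ 2 / P ^ 2) -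
      3 * r ^ 2 * y ^ 2 / P ^ 2 * b ^ 2 * F +
      2 * r ^ 3 * b ^ 2 * (r * 0 / (2 * P ^ 2)) ^ 2 - 2 * r ^ 4 * (1 - F / (P ^ 2 * r)) * BJ := by
  have hG : 0 ≤ 2 * F + r ^ 3 * b ^ 2 / P ^ 2 - 2 * r ^ 2 * b := by
    have h1 : F * (2 * F + r ^ 3 * b ^ 2 / P ^ 2 - 2 * r ^ 2 * b) =
        (F ^ 2 + r ^ 3 * F * b ^ 2 / P ^ 2 - r ^ 4 * b ^ 2) + (r ^ 2 * b - F) ^ 2 := by
      ring
    have h2 : 0 ≤ F * (2 * F + r ^ 3 * b ^ 2 / P ^ 2 - 2 * r ^ 2 * b) := by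
      rw [h1]; positivity
    exact nonneg_of_mul_nonneg_right h2 hF0
  have hx : 1 - F / (P ^ 2 * r) = y ^ 2 := by
    rw [hF]; field_simp; ring
  rw [hx]
  have e : y * (r ^ 2 / (2 * P ^ 2) * (y * T)) * (2 * F + r ^ 3 * b ^ 2 / P ^ 2) -
      3 * r ^ 2 * y ^ 2 / P ^ 2 * b ^ 2 * F +
      2 * r ^ 3 * b ^ 2 * (r * 0 / (2 * P ^ 2)) ^ 2 - 2 * r ^ 4 * y ^ 2 * BJ =
      r ^ 2 * y ^ 2 / P ^ 2 * (T * (F + r ^ 3 * b ^ 2 / (2 * P ^ 2)) - 3 * b ^ 2 * F -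
        r ^ 2 * (2 * P ^ 2 * BJ)) := by
    field_simp
    ring
  rw [e]
  refine mul_nonneg (by positivity) ?_
  have h5 : r ^ 2 * (2 * P ^ 2 * BJ) ≤ r ^ 2 * (b * (T - 3 * b ^ 2)) :=
    mul_le_mul_of_nonneg_left hT' (by positivity)
  have h6 : T * (F + r ^ 3 * b ^ 2 / (2 * P ^ 2)) - 3 * b ^ 2 * F - r ^ 2 * (b * (T - 3 * b ^ 2)) =
      1 / 2 * ((T - 3 * b ^ 2) * (2 * F + r ^ 3 * b ^ 2 / P ^ 2 - 2 * r ^ 2 * b)) +
        3 * b ^ 2 * (r ^ 3 * b ^ 2 / (2 * P ^ 2)) := by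
    field_simp
    ring
  have h7 : 0 ≤ (T - 3 * b ^ 2) * (2 * F + r ^ 3 * b ^ 2 / P ^ 2 - 2 * r ^ 2 * b) :=
    mul_nonneg (by linarith) hG
  have h8 : 0 ≤ 3 * b ^ 2 * (r ^ 3 * b ^ 2 / (2 * P ^ 2)) := by positivity
  linarith

/-- If `f > 0` at `r₀` and `f' ≥ 0` wherever `f ≥ 0`, then `f` never goes below `f r₀`. -/
theorem pos_mono {f f' : ℝ → ℝ} {r₀ : ℝ} (hc : ∀ r, r₀ ≤ r → ContinuousAt f r)
    (hd : ∀ r, r₀ < r → HasDerivAt f (f' r) r) (h0 : 0 < f r₀)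
    (hn : ∀ r, r₀ < r → 0 ≤ f r → 0 ≤ f' r) : ∀ r, r₀ ≤ r → f r₀ ≤ f r := by
  have mono : ∀ b, r₀ ≤ b → (∀ s, r₀ < s → s < b → 0 ≤ f s) → f r₀ ≤ f b := by
    intro b hb hpos
    have : MonotoneOn f (Icc r₀ b) := by
      apply monotoneOn_of_deriv_nonneg (convex_Icc r₀ b)
      · exact fun r hr => (hc r hr.1).continuousWithinAt
      · intro r hr
        rw [interior_Icc] at hr
        exact (hd r hr.1).differentiableAt.differentiableWithinAt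
      · intro r hr
        rw [interior_Icc] at hr
        rw [(hd r hr.1).deriv]
        exact hn r hr.1 (hpos r hr.1 hr.2)
    exact this (left_mem_Icc.2 hb) (right_mem_Icc.2 hb) hb
  have hpos : ∀ b, r₀ ≤ b → 0 < f b := by
    intro b hb
    by_contra hneg
    have hneg := not_lt.1 hneg
    set S : Set ℝ := Icc r₀ b ∩ f ⁻¹' (Iic 0) with hS
    have hcl : IsClosed S := by
      refine ContinuousOn.preimage_isClosed_of_isClosed ?_ isClosed_Icc isClosed_Iic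
      exact fun r hr => (hc r hr.1).continuousWithinAt
    have hcomp : IsCompact S := isCompact_Icc.of_isClosed_subset hcl inter_subset_left
    have hne : S.Nonempty := ⟨b, right_mem_Icc.2 hb, hneg⟩
    have hmem := hcomp.sInf_mem hne
    set s := sInf S with hs
    have hlt : ∀ t, r₀ < t → t < s → 0 ≤ f t := by
      intro t ht1 ht2
      by_contra hlt
      have hlt := not_le.1 hlt
      have : s ≤ t := csInf_le hcomp.bddBelow ⟨⟨ht1.le, ht2.le.trans hmem.1.2⟩, hlt.le⟩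
      linarith
    have h1 := mono s hmem.1.1 hlt
    have h2 : f s ≤ 0 := hmem.2
    linarith
  intro r hr
  exact mono r hr fun s hs _ => (hpos s hs.le).le

/-- The outermost marginally trapped centred sphere. -/
theorem last_trapped {φ : ℝ → ℝ} (hφ : Good φ) {q : ℝ → ℝ} {r₁ : ℝ} (hr₁ : 0 < r₁)
    (hq : ∀ r, 0 < r → ContinuousAt q r)
    (h₁ : 2 * (φ r₁) ^ 2 * pp φ r₁ ≤ |r₁ * q r₁|)
    (hp : Tendsto (pp φ) atTop (𝓝 1))
    (hX : Tendsto (fun r => r * q r / (2 * (φ r) ^ 2)) atTop (𝓝 0)) :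
    ∃ r₀, r₁ ≤ r₀ ∧ 2 * (φ r₀) ^ 2 * pp φ r₀ = |r₀ * q r₀| ∧
      ∀ r, r₀ < r → |r * q r| < 2 * (φ r) ^ 2 * pp φ r := by
  set u : ℝ → ℝ := fun r => 2 * (φ r) ^ 2 * pp φ r - |r * q r| with hu
  have ucont : ∀ r, 0 < r → ContinuousAt u r := fun r hr =>
    ((((hφ.cont hr).pow 2).const_mul 2).mul (hφ.pp_cont hr)).sub
      ((continuousAt_id.mul (hq r hr)).abs)
  have h2 : Tendsto (fun r => pp φ r - |r * q r / (2 * (φ r) ^ 2)|) atTop (𝓝 (1 - |0|)) :=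
    hp.sub hX.abs
  rw [abs_zero, sub_zero] at h2
  have h3 : ∀ᶠ r in atTop, 0 < u r := by
    filter_upwards [h2.eventually (lt_mem_nhds (show (0:ℝ) < 1 by norm_num)),
      eventually_gt_atTop 0] with r hr hr0
    have hpos : 0 < 2 * (φ r) ^ 2 := by have := hφ.pos r hr0; positivity
    rw [abs_div, abs_of_pos hpos] at hr
    have : 0 < (pp φ r - |r * q r| / (2 * (φ r) ^ 2)) * (2 * (φ r) ^ 2) := mul_pos hr hpos
    rw [sub_mul, div_mul_cancel₀ _ hpos.ne'] at this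
    simp only [hu]
    linarith
  obtain ⟨R, hR⟩ := eventually_atTop.1 h3
  set S : Set ℝ := {r | r₁ ≤ r ∧ u r ≤ 0} with hS
  have hne : S.Nonempty := ⟨r₁, le_rfl, by simp only [hu]; linarith⟩
  have hbdd : BddAbove S := by
    refine ⟨R, fun r hr => ?_⟩
    by_contra hlt
    exact absurd hr.2 (not_le.2 (hR r (not_le.1 hlt).le))
  set r₀ := sSup S with hr₀
  have h10 : r₁ ≤ r₀ := le_csSup hbdd ⟨le_rfl, by simp only [hu]; linarith⟩
  have h00 : 0 < r₀ := hr₁.trans_le h10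
  have hgt : ∀ r, r₀ < r → 0 < u r := by
    intro r hr
    by_contra hle
    exact absurd (le_csSup hbdd (show r ∈ S from ⟨h10.trans hr.le, not_lt.1 hle⟩)) (not_le.2 hr)
  have hle0 : u r₀ ≤ 0 := by
    have hcl : r₀ ∈ closure S := csSup_mem_closure hne hbdd
    obtain ⟨s, hs, hlim⟩ := mem_closure_iff_seq_limit.1 hcl
    exact le_of_tendsto ((ucont r₀ h00).tendsto.comp hlim) (Eventually.of_forall fun n => (hs n).2)
  have hge0 : 0 ≤ u r₀ := by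
    have h4 : Tendsto u (𝓝[>] r₀) (𝓝 (u r₀)) := (ucont r₀ h00).tendsto.mono_left nhdsWithin_le_nhds
    exact ge_of_tendsto h4 (eventually_nhdsWithin_of_forall fun r hr => (hgt r hr).le)
  have h0 : u r₀ = 0 := le_antisymm hle0 hge0
  refine ⟨r₀, h10, ?_, fun r hr => ?_⟩
  · simp only [hu] at h0; linarith
  · have := hgt r hr
    simp only [hu] at this
    linarith

/-- The sum of the squares of the averages of the mixed part. -/
noncomputable def B2 (h : E → Matrix (Fin 3) (Fin 3) ℝ) (r : ℝ) : ℝ :=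
  ∑ j, (sphAvg (mixed h j) r) ^ 2

theorem B2_hasDerivAt {h : E → Matrix (Fin 3) (Fin 3) ℝ} (H : Tensor h) {r : ℝ} (hr : 0 < r) :
    HasDerivAt (B2 h) (2 * ∑ j, sphAvg (mixed h j) r * sphAvg (dr (mixed h j)) r) r := by
  have h1 : ∀ j ∈ Finset.univ, HasDerivAt (fun s => (sphAvg (mixed h j) s) ^ 2)
      (2 * (sphAvg (mixed h j) r * sphAvg (dr (mixed h j)) r)) r := by
    intro j _
    have := (sphAvg_hasDerivAt (mixed_contDiffOn H j) hr).fun_pow 2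
    refine HasDerivAt.congr_deriv this ?_
    simp
    ring
  have h2 := HasDerivAt.fun_sum h1
  rw [← Finset.mul_sum] at h2
  exact h2

/-- Four times the square of the quasilocal rest mass. -/
noncomputable def PsiF (φ : ℝ → ℝ) (h : E → Matrix (Fin 3) (Fin 3) ℝ) (r : ℝ) : ℝ :=
  (FF φ (sphAvg (qq h)) r) ^ 2 + r ^ 3 * FF φ (sphAvg (qq h)) r * B2 h r / (φ r) ^ 2 -
    r ^ 4 * B2 h r

theorem PsiF_hasDerivAt {φ : ℝ → ℝ} (hφ : Good φ) {h : E → Matrix (Fin 3) (Fin 3) ℝ}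
    (H : Tensor h) {r F' : ℝ} (hr : 0 < r) (hF : HasDerivAt (FF φ (sphAvg (qq h))) F' r) :
    HasDerivAt (PsiF φ h) (2 * FF φ (sphAvg (qq h)) r * F' +
      (3 * r ^ 2 * FF φ (sphAvg (qq h)) r * B2 h r / (φ r) ^ 2 +
      r ^ 3 * F' * B2 h r / (φ r) ^ 2 + r ^ 3 * FF φ (sphAvg (qq h)) r *
      (2 * ∑ j, sphAvg (mixed h j) r * sphAvg (dr (mixed h j)) r) / (φ r) ^ 2 -
      2 * r ^ 3 * FF φ (sphAvg (qq h)) r * B2 h r * (r * φ r * psi φ r / 2) / (φ r) ^ 3) -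
      4 * r ^ 3 * B2 h r -
      r ^ 4 * (2 * ∑ j, sphAvg (mixed h j) r * sphAvg (dr (mixed h j)) r)) r := by
  have hp := hφ.pos r hr
  have d1 := (hφ.diff hr).hasDerivAt
  have hd : deriv φ r = r * φ r * psi φ r / 2 := by
    unfold psi
    field_simp
  rw [hd] at d1
  have dB := B2_hasDerivAt H hr
  have dr3 := (hasDerivAt_id r).fun_pow 3
  have dr4 := (hasDerivAt_id r).fun_pow 4
  have t1 := hF.fun_pow 2
  have t2 := ((dr3.mul hF).mul dB).div (d1.fun_pow 2) (by positivity)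
  have t3 := dr4.mul dB
  have t4 := (t1.add t2).sub t3
  have t5 : HasDerivAt (PsiF φ h) _ r := t4
  refine t5.congr_deriv ?_
  simp only [id, Pi.mul_apply]
  field_simp
  ring

end Pool.Agent.K4H63.PI
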