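import Pool.Agent.K4H63.PI.Asym

/-!
# The ray argument
-/

set_option autoImplicit false

namespace Pool.Agent.K4H63.PI

open scoped BigOperators Topology
open Matrix Filter Set MeasureTheory

/-- Mean curvature of the centred sphere through `x` in the metric `φ⁴ δ`,
`H = φ⁻² (2/r + 4 φ'/φ)`. -/
noncomputable def meanCurv (φ : ℝ → ℝ) (x : E) : ℝ :=
  ((φ ‖x‖) ^ 2)⁻¹ * (2 / ‖x‖ + 4 * deriv φ ‖x‖ / φ ‖x‖)

/-- The trace of `h` over the tangent plane of the centred sphere through `x`. -/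
noncomputable def trS (φ : ℝ → ℝ) (h : E → Matrix (Fin 3) (Fin 3) ℝ) (x : E) : ℝ :=
  ((φ ‖x‖) ^ 4)⁻¹ * qq h x

/-- The divergence, on the centred sphere through `x`, of the 1-form `β = h(ν, ·)`. -/
noncomputable def divS (φ : ℝ → ℝ) (h : E → Matrix (Fin 3) (Fin 3) ℝ) (x : E) : ℝ :=
  ((φ ‖x‖) ^ 6)⁻¹ * divMixed h x

/-- `2 |β|² + |h°|²`, where `β = h(ν, ·)` on the sphere and `h°` is the trace-free part of the
restriction of `h` to the sphere (norms of `φ⁴ δ`). -/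
noncomputable def transS (φ : ℝ → ℝ) (h : E → Matrix (Fin 3) (Fin 3) ℝ) (x : E) : ℝ :=
  ((φ ‖x‖) ^ 8)⁻¹ * transverse h x

theorem meanCurv_eq {φ : ℝ → ℝ} (hφ : Good φ) {x : E} (hx : x ≠ 0) :
    meanCurv φ x = 2 * pp φ ‖x‖ / ((φ ‖x‖) ^ 2 * ‖x‖) := by
  have hr : 0 < ‖x‖ := norm_pos_iff.2 hx
  have hp := hφ.pos _ hr
  unfold meanCurv pp psi
  field_simp
  ring

theorem untrapped_iff {φ : ℝ → ℝ} (hφ : Good φ) (h : E → Matrix (Fin 3) (Fin 3) ℝ) {x : E}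
    (hx : x ≠ 0) : |trS φ h x| ≤ meanCurv φ x ↔
      |‖x‖ * qq h x| ≤ 2 * (φ ‖x‖) ^ 2 * pp φ ‖x‖ := by
  have hr : 0 < ‖x‖ := norm_pos_iff.2 hx
  have hp := hφ.pos _ hr
  rw [meanCurv_eq hφ hx]
  unfold trS
  rw [abs_mul, abs_mul, abs_of_pos hr, abs_of_pos (show (0:ℝ) < ((φ ‖x‖) ^ 4)⁻¹ by positivity),
    le_div_iff₀ (by positivity)]
  have e : ((φ ‖x‖) ^ 4)⁻¹ * |qq h x| * ((φ ‖x‖) ^ 2 * ‖x‖) =
      (‖x‖ * |qq h x|) * ((φ ‖x‖) ^ 2)⁻¹ := by
    field_simp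
  rw [e, mul_inv_le_iff₀ (by positivity)]
  constructor <;> intro hh <;> linarith

theorem cond_iff {φ : ℝ → ℝ} (hφ : Good φ) (h : E → Matrix (Fin 3) (Fin 3) ℝ) {x : E}
    (hx : x ≠ 0) : 0 ≤ trS φ h x * divS φ h x + meanCurv φ x * transS φ h x / 2 ↔
      0 ≤ ‖x‖ * qq h x * divMixed h x + pp φ ‖x‖ * transverse h x := by
  have hr : 0 < ‖x‖ := norm_pos_iff.2 hx
  have hp := hφ.pos _ hr
  rw [meanCurv_eq hφ hx]
  unfold trS divS transS
  have e : ((φ ‖x‖) ^ 4)⁻¹ * qq h x * (((φ ‖x‖) ^ 6)⁻¹ * divMixed h x) +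
      2 * pp φ ‖x‖ / ((φ ‖x‖) ^ 2 * ‖x‖) * (((φ ‖x‖) ^ 8)⁻¹ * transverse h x) / 2 =
      (‖x‖ * qq h x * divMixed h x + pp φ ‖x‖ * transverse h x) *
        ((φ ‖x‖) ^ 10 * ‖x‖)⁻¹ := by
    field_simp
  rw [e]
  constructor
  · intro hh
    exact nonneg_of_mul_nonneg_left hh (by positivity)
  · intro hh
    positivity

/-- The ray argument: along a ray on which `(tr_S h) div_S β + H (2|β|² + |h°|²)/2 ≥ 0` at the
untrapped points, every trapped point is enclosed by a centred sphere satisfying the Penrose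
inequality. -/
theorem ray_theorem {φ : ℝ → ℝ} {h : E → Matrix (Fin 3) (Fin 3) ℝ} {m : ℝ} (hφ : Good φ)
    (H : Tensor h) (flat : FlatEnd φ m) (decay : Decay h) {ω : E} (hω : ‖ω‖ = 1) {r₁ : ℝ}
    (hr₁ : 0 < r₁)
    (dec : ∀ r : ℝ, r₁ ≤ r → momentumNorm (metric φ) h (r • ω) ≤ energy (metric φ) h (r • ω))
    (ray : ∀ r : ℝ, r₁ ≤ r → |trS φ h (r • ω)| ≤ meanCurv φ (r • ω) →
      0 ≤ trS φ h (r • ω) * divS φ h (r • ω) + meanCurv φ (r • ω) * transS φ h (r • ω) / 2)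
    (trapped : meanCurv φ (r₁ • ω) ≤ |trS φ h (r₁ • ω)|) :
    ∃ r₀, r₁ ≤ r₀ ∧ Real.sqrt (sphereArea φ r₀ / (16 * Real.pi)) ≤ m := by
  obtain ⟨C, hC⟩ := decay
  have hbd : ∀ r : ℝ, 1 ≤ r → |(fun r : ℝ => qq h (r • ω)) r| ≤ 12 * C / r ^ 2 := by
    intro r hr
    have h0 : 0 < r := by linarith
    have h1 := hC (r • ω) (by rw [ray_norm hω h0]; exact hr)
    rw [ray_norm hω h0] at h1
    have h2 := qq_bound (ray_ne hω h0) h1
    calc |qq h (r • ω)| ≤ 12 * (C / r ^ 2) := h2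
      _ = 12 * C / r ^ 2 := by ring
  have hq : ∀ r : ℝ, 0 < r → HasDerivAt (fun r : ℝ => qq h (r • ω)) (dr (qq h) (r • ω)) r :=
    fun r hr => hasDerivAt_ray hω hr (H.qq_diff (ray_ne hω hr))
  have hlim : Tendsto (FF φ (fun r : ℝ => qq h (r • ω))) atTop (𝓝 (2 * m)) := by
    have := (flat.YY hφ).add (tendsto_sq_term flat.one hbd)
    rw [add_zero] at this
    exact this
  obtain ⟨r₀, h1, h2⟩ := oned hφ (q := fun r : ℝ => qq h (r • ω))
    (F' := fun r : ℝ => r ^ 2 / (2 * (φ r) ^ 2) *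
      (pp φ r * ((φ r) ^ 8 * scal (metric φ) (r • ω)) + r * qq h (r • ω) * dr (qq h) (r • ω) +
        (3 / 2 - r ^ 2 * psi φ r / 2) * (qq h (r • ω)) ^ 2)) (m := m) hr₁
    (fun r hr => (hq r hr).continuousAt)
    (fun r hr => hasDerivAt_FF hφ hr (ray_norm hω hr) (hq r hr))
    (by
      intro r hr hu
      have h0 : 0 < r := hr₁.trans_le hr
      have hx := ray_ne hω h0
      have hn := ray_norm hω h0
      have hu' : |‖r • ω‖ * qq h (r • ω)| ≤ 2 * (φ ‖r • ω‖) ^ 2 * pp φ ‖r • ω‖ := by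
        rw [hn]; exact hu
      have k1 := key hφ H hx (dec r hr) hu'
      have k2 := (cond_iff hφ h hx).1 (ray r hr ((untrapped_iff hφ h hx).2 hu'))
      rw [hn] at k1 k2
      have hp := hφ.pos r h0
      refine mul_nonneg (by positivity) ?_
      unfold pp at k2 ⊢
      linarith)
    (by
      have hx := ray_ne hω hr₁
      have hn := ray_norm hω hr₁
      by_contra hlt
      have h3 := (untrapped_iff hφ h hx).2 (by rw [hn]; exact (not_le.1 hlt).le)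
      have h4 : |trS φ h (r₁ • ω)| = meanCurv φ (r₁ • ω) := le_antisymm h3 trapped
      have hp := hφ.pos r₁ hr₁
      rw [meanCurv_eq hφ hx, hn] at h4
      unfold trS at h4
      rw [hn, abs_mul, abs_of_pos (show (0:ℝ) < ((φ r₁) ^ 4)⁻¹ by positivity)] at h4
      apply hlt
      rw [abs_mul, abs_of_pos hr₁]
      field_simp at h4
      nlinarith [h4])
    (flat.pp hφ) (tendsto_X flat.one hbd) hlim
  refine ⟨r₀, h1, ?_⟩
  rw [sqrt_area hφ (hr₁.trans_le h1)]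
  linarith

/-- If the area radius tends to infinity at the other end there is a sphere with negative mean
curvature. -/
theorem exists_neg {φ : ℝ → ℝ} (hφ : Good φ)
    (second : Tendsto (fun r => (φ r) ^ 2 * r) (𝓝[>] 0) atTop) :
    ∃ r₁, 0 < r₁ ∧ pp φ r₁ < 0 := by
  have h1 : ∀ᶠ r in 𝓝[>] (0:ℝ), (φ 1) ^ 2 * 1 < (φ r) ^ 2 * r ∧ r ∈ Ioo (0:ℝ) 1 :=
    (second.eventually_gt_atTop _).and (Ioo_mem_nhdsGT one_pos)
  obtain ⟨r₂, h2, h3, h4⟩ := h1.exists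
  have hd : ∀ r, 0 < r → HasDerivAt (fun r => (φ r) ^ 2 * r) ((φ r) ^ 2 * pp φ r) r := by
    intro r hr
    have hp := hφ.pos r hr
    have d := ((hφ.diff hr).hasDerivAt.fun_pow 2).mul (hasDerivAt_id r)
    refine HasDerivAt.congr_deriv (f := fun r => (φ r) ^ 2 * r) d ?_
    unfold pp psi
    simp only [id]
    field_simp
    ring
  obtain ⟨r₁, h5, h6⟩ := exists_hasDerivAt_eq_slope (fun r => (φ r) ^ 2 * r)
    (fun r => (φ r) ^ 2 * pp φ r) h4
    (fun r hr => (hd r (h3.trans_le hr.1)).continuousAt.continuousWithinAt)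
    (fun r hr => hd r (h3.trans hr.1))
  refine ⟨r₁, h3.trans h5.1, ?_⟩
  have h7 : (φ r₁) ^ 2 * pp φ r₁ < 0 := by
    rw [h6]
    exact div_neg_of_neg_of_pos (by linarith) (by linarith)
  have := hφ.pos r₁ (h3.trans h5.1)
  by_contra hge
  have : 0 ≤ (φ r₁) ^ 2 * pp φ r₁ := mul_nonneg (by positivity) (not_lt.1 hge)
  linarith

end Pool.Agent.K4H63.PI
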