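import Pool.Agent.K4H63.PI.Div

/-!
# The averaged argument
-/

set_option autoImplicit false

namespace Pool.Agent.K4H63.PI

open scoped BigOperators Topology
open Matrix Filter Set MeasureTheory

/-- The component `h(ν, ν)`, `ν` the unit normal of the centred spheres in the metric `φ⁴ δ`. -/
noncomputable def hNN (φ : ℝ → ℝ) (h : E → Matrix (Fin 3) (Fin 3) ℝ) (x : E) : ℝ :=
  ((φ ‖x‖) ^ 4)⁻¹ * hrad h x

/-- Mean curvature of the centred sphere of radius `r` in the metric `φ⁴ δ`. -/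
noncomputable def sphereH (φ : ℝ → ℝ) (r : ℝ) : ℝ :=
  ((φ r) ^ 2)⁻¹ * (2 / r + 4 * deriv φ r / φ r)

/-- The average of `(tr_g h)² - |h|²` over the centred sphere of radius `r` is at most its value at
the rotational average of `h`. -/
def AvgCond (φ : ℝ → ℝ) (h : E → Matrix (Fin 3) (Fin 3) ℝ) (r : ℝ) : Prop :=
  sphAvg (fun x => (trg (metric φ) h x) ^ 2 - nsq (metric φ) h x) r ≤
    2 * sphAvg (hNN φ h) r * sphAvg (trS φ h) r + (sphAvg (trS φ h) r) ^ 2 / 2

theorem sphereH_eq {φ : ℝ → ℝ} (hφ : Good φ) {r : ℝ} (hr : 0 < r) :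
    sphereH φ r = 2 * pp φ r / ((φ r) ^ 2 * r) := by
  have hp := hφ.pos _ hr
  unfold sphereH pp psi
  field_simp
  ring

theorem Tensor.qq_smooth {h : E → Matrix (Fin 3) (Fin 3) ℝ} (H : Tensor h) :
    ContDiffOn ℝ 1 (qq h) {0}ᶜ := fun _ hx => (H.qq_contDiffAt hx).contDiffWithinAt

theorem Tensor.hrad_smooth {h : E → Matrix (Fin 3) (Fin 3) ℝ} (H : Tensor h) :
    ContDiffOn ℝ 1 (hrad h) {0}ᶜ := fun _ hx => (H.hrad_contDiffAt hx).contDiffWithinAt

theorem Tensor.transverse_cont {h : E → Matrix (Fin 3) (Fin 3) ℝ} (H : Tensor h) :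
    ContinuousOn (transverse h) {0}ᶜ := by
  unfold transverse
  refine ContinuousOn.sub (ContinuousOn.sub ?_ (H.hrad_smooth.continuousOn.pow 2)) ?_
  · exact continuousOn_finsetSum _ fun i _ => continuousOn_finsetSum _ fun j _ =>
      (H.smooth i j).continuousOn.pow 2
  · exact (H.qq_smooth.continuousOn.pow 2).div_const _

theorem sphAvg_trS {φ : ℝ → ℝ} (h : E → Matrix (Fin 3) (Fin 3) ℝ) {r : ℝ} (hr : 0 < r) :
    sphAvg (trS φ h) r = ((φ r) ^ 4)⁻¹ * sphAvg (qq h) r := by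
  rw [← sphAvg_mul]
  refine sphAvg_congr fun w hw => ?_
  unfold trS
  rw [ray_norm hw hr]

theorem sphAvg_hNN {φ : ℝ → ℝ} (h : E → Matrix (Fin 3) (Fin 3) ℝ) {r : ℝ} (hr : 0 < r) :
    sphAvg (hNN φ h) r = ((φ r) ^ 4)⁻¹ * sphAvg (hrad h) r := by
  rw [← sphAvg_mul]
  refine sphAvg_congr fun w hw => ?_
  unfold hNN
  rw [ray_norm hw hr]

theorem quad_at {φ : ℝ → ℝ} (hφ : Good φ) (h : E → Matrix (Fin 3) (Fin 3) ℝ) {x : E}
    (hx : x ≠ 0) : (trg (metric φ) h x) ^ 2 - nsq (metric φ) h x =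
      ((φ ‖x‖) ^ 8)⁻¹ * (2 * hrad h x * qq h x + (qq h x) ^ 2 / 2 - transverse h x) := by
  have hp := hφ.pos _ (norm_pos_iff.2 hx)
  rw [trg_metric h hp.ne', nsq_metric h hp.ne']
  have ht : tr0 h x = hrad h x + qq h x := by unfold qq; ring
  rw [ht]
  unfold transverse
  field_simp
  ring

theorem sphAvg_quad {φ : ℝ → ℝ} (hφ : Good φ) (h : E → Matrix (Fin 3) (Fin 3) ℝ) {r : ℝ}
    (hr : 0 < r) : sphAvg (fun x => (trg (metric φ) h x) ^ 2 - nsq (metric φ) h x) r =
      ((φ r) ^ 8)⁻¹ *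
        sphAvg (fun x => 2 * hrad h x * qq h x + (qq h x) ^ 2 / 2 - transverse h x) r := by
  rw [← sphAvg_mul]
  refine sphAvg_congr fun w hw => ?_
  rw [quad_at hφ h (ray_ne hw hr), ray_norm hw hr]

theorem avgCond_iff {φ : ℝ → ℝ} (hφ : Good φ) (h : E → Matrix (Fin 3) (Fin 3) ℝ) {r : ℝ}
    (hr : 0 < r) : AvgCond φ h r ↔
      sphAvg (fun x => 2 * hrad h x * qq h x + (qq h x) ^ 2 / 2 - transverse h x) r ≤
        2 * sphAvg (hrad h) r * sphAvg (qq h) r + (sphAvg (qq h) r) ^ 2 / 2 := by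
  have hp := hφ.pos _ hr
  unfold AvgCond
  rw [sphAvg_quad hφ h hr, sphAvg_trS h hr, sphAvg_hNN h hr]
  have e : 2 * (((φ r) ^ 4)⁻¹ * sphAvg (hrad h) r) * (((φ r) ^ 4)⁻¹ * sphAvg (qq h) r) +
      (((φ r) ^ 4)⁻¹ * sphAvg (qq h) r) ^ 2 / 2 = ((φ r) ^ 8)⁻¹ *
      (2 * sphAvg (hrad h) r * sphAvg (qq h) r + (sphAvg (qq h) r) ^ 2 / 2) := by
    field_simp
  rw [e]
  exact mul_le_mul_iff_right₀ (by positivity)

/-- The dominant energy condition averaged over a sphere. -/
theorem dec_avg {φ : ℝ → ℝ} (hφ : Good φ) {h : E → Matrix (Fin 3) (Fin 3) ℝ} (H : Tensor h)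
    {r : ℝ} (hr : 0 < r) {p : E} (hp : ‖p‖ = r)
    (hdec : ∀ w : E, ‖w‖ = 1 →
      momentumNorm (metric φ) h (r • w) ≤ energy (metric φ) h (r • w)) :
    |2 * (φ r) ^ 2 * (0 + (2 * sphAvg (hrad h) r - sphAvg (qq h) r) / r - sphAvg (dr (qq h)) r +
        r * psi φ r * (2 * sphAvg (hrad h) r + sphAvg (qq h) r))| ≤
      (φ r) ^ 8 * scal (metric φ) p +
        sphAvg (fun x => 2 * hrad h x * qq h x + (qq h x) ^ 2 / 2 - transverse h x) r := by
  have cA := H.hrad_smooth.continuousOn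
  have cQ := H.qq_smooth.continuousOn
  have cN := H.transverse_cont
  have cD := divMixed_cont H
  have cdQ := dr_cont H.qq_smooth
  have cG : ContinuousOn (fun x => 2 * hrad h x * qq h x + (qq h x) ^ 2 / 2 - transverse h x)
      {0}ᶜ := (((continuousOn_const.mul cA).mul cQ).add ((cQ.pow 2).div_const _)).sub cN
  set a : ℝ := 2 * (φ r) ^ 2 with ha
  set b : ℝ := 2 * (1 / r) + 2 * (r * psi φ r) with hb
  set c : ℝ := r * psi φ r - 1 / r with hc
  have h1 := sphAvg_abs_le (r := r)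
    (F := fun x => a * ((divMixed h x - dr (qq h) x) + (b * hrad h x + c * qq h x)))
    (G := fun x => (φ r) ^ 8 * scal (metric φ) p +
      (2 * hrad h x * qq h x + (qq h x) ^ 2 / 2 - transverse h x))
    (continuousOn_const.mul ((cD.sub cdQ).add ((continuousOn_const.mul cA).add
      (continuousOn_const.mul cQ))))
    (continuousOn_const.add cG) hr
    (fun w hw => by
      have hx := ray_ne hw hr
      have h2 := dec_radial hφ H hx (hdec w hw)
      have hp0 : p ≠ 0 := by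
        rw [← norm_pos_iff, hp]; exact hr
      have hs : scal (metric φ) (r • w) = scal (metric φ) p := by
        rw [scal_metric hφ hx, scal_metric hφ hp0, ray_norm hw hr, hp]
      rw [ray_norm hw hr, hs] at h2
      have e1 : a * ((divMixed h (r • w) - dr (qq h) (r • w)) +
          (b * hrad h (r • w) + c * qq h (r • w))) =
          2 * (φ r) ^ 2 * (divMixed h (r • w) + (2 * hrad h (r • w) - qq h (r • w)) / r -
            dr (qq h) (r • w) + r * psi φ r * (2 * hrad h (r • w) + qq h (r • w))) := by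
        rw [ha, hb, hc]
        ring
      rw [e1]
      linarith)
  rw [sphAvg_mul, sphAvg_add (F := fun x => divMixed h x - dr (qq h) x)
    (G := fun x => b * hrad h x + c * qq h x) (cD.sub cdQ)
    ((continuousOn_const.mul cA).add (continuousOn_const.mul cQ)) hr,
    sphAvg_sub cD cdQ hr,
    sphAvg_add (F := fun x => b * hrad h x) (G := fun x => c * qq h x)
      (continuousOn_const.mul cA) (continuousOn_const.mul cQ) hr,
    sphAvg_mul, sphAvg_mul, sphAvg_divMixed H hr,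
    sphAvg_add (F := fun _ => (φ r) ^ 8 * scal (metric φ) p) continuousOn_const cG hr,
    sphAvg_const] at h1
  refine le_trans (le_of_eq ?_) h1
  congr 1
  rw [ha, hb, hc]
  ring

/-- The averaged argument. -/
theorem avg_theorem {φ : ℝ → ℝ} {h : E → Matrix (Fin 3) (Fin 3) ℝ} {m : ℝ} (hφ : Good φ)
    (H : Tensor h) (flat : FlatEnd φ m) (decay : Decay h) {r₁ : ℝ} (hr₁ : 0 < r₁)
    (dec : ∀ x : E, r₁ ≤ ‖x‖ → momentumNorm (metric φ) h x ≤ energy (metric φ) h x)
    (cond : ∀ r : ℝ, r₁ ≤ r → |sphAvg (trS φ h) r| ≤ sphereH φ r → AvgCond φ h r)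
    (trapped : sphereH φ r₁ ≤ |sphAvg (trS φ h) r₁|) :
    ∃ r₀, r₁ ≤ r₀ ∧ Real.sqrt (sphereArea φ r₀ / (16 * Real.pi)) ≤ m := by
  obtain ⟨C, hC⟩ := decay
  set e : E := EuclideanSpace.single 0 1 with he
  have hen : ‖e‖ = 1 := by simp [he]
  have cQ := H.qq_smooth.continuousOn
  have hbd : ∀ r : ℝ, 1 ≤ r → |sphAvg (qq h) r| ≤ 12 * C / r ^ 2 := by
    intro r hr
    have h0 : 0 < r := by linarith
    have h1 := sphAvg_abs_le (F := qq h) (G := fun _ => 12 * C / r ^ 2) cQ continuousOn_const h0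
      (fun w hw => by
        have h2 := hC (r • w) (by rw [ray_norm hw h0]; exact hr)
        rw [ray_norm hw h0] at h2
        calc |qq h (r • w)| ≤ 12 * (C / r ^ 2) := qq_bound (ray_ne hw h0) h2
          _ = 12 * C / r ^ 2 := by ring)
    rwa [sphAvg_const] at h1
  have hq : ∀ r : ℝ, 0 < r → HasDerivAt (sphAvg (qq h)) (sphAvg (dr (qq h)) r) r :=
    fun r hr => sphAvg_hasDerivAt H.qq_smooth hr
  have hlim : Tendsto (FF φ (sphAvg (qq h))) atTop (𝓝 (2 * m)) := by
    have := (flat.YY hφ).add (tendsto_sq_term flat.one hbd)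
    rw [add_zero] at this
    exact this
  have huntr : ∀ r : ℝ, 0 < r → (|sphAvg (trS φ h) r| * ((φ r) ^ 4 * r) =
      |r * sphAvg (qq h) r| ∧ sphereH φ r * ((φ r) ^ 4 * r) = 2 * (φ r) ^ 2 * pp φ r) := by
    intro r hr
    have hp := hφ.pos r hr
    constructor
    · rw [sphAvg_trS h hr, abs_mul, abs_mul, abs_of_pos hr,
        abs_of_pos (show (0:ℝ) < ((φ r) ^ 4)⁻¹ by positivity)]
      field_simp
    · rw [sphereH_eq hφ hr]
      field_simp
  obtain ⟨r₀, h1, h2⟩ := oned hφ (q := sphAvg (qq h))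
    (F' := fun r : ℝ => r ^ 2 / (2 * (φ r) ^ 2) *
      (pp φ r * ((φ r) ^ 8 * scal (metric φ) (r • e)) + r * sphAvg (qq h) r *
        sphAvg (dr (qq h)) r + (3 / 2 - r ^ 2 * psi φ r / 2) * (sphAvg (qq h) r) ^ 2))
    (m := m) hr₁
    (fun r hr => (hq r hr).continuousAt)
    (fun r hr => hasDerivAt_FF hφ hr (ray_norm hen hr) (hq r hr))
    (by
      intro r hr hu
      have h0 : 0 < r := hr₁.trans_le hr
      have hp := hφ.pos r h0
      obtain ⟨u1, u2⟩ := huntr r h0
      have hun : |sphAvg (trS φ h) r| ≤ sphereH φ r := by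
        rw [← u1, ← u2] at hu
        exact le_of_mul_le_mul_right hu (by positivity)
      have k1 := (avgCond_iff hφ h h0).1 (cond r hr hun)
      have k2 := dec_avg hφ H h0 (ray_norm hen h0) (fun w hw => dec _ (by
        rw [ray_norm hw h0]; exact hr))
      have k3 := key_algebra (N := 0) (D := 0) (S := scal (metric φ) (r • e))
        (A := sphAvg (hrad h) r) (Q := sphAvg (qq h) r) (dQ := sphAvg (dr (qq h)) r)
        hp h0 (k2.trans (by
        have := add_le_add_right k1 ((φ r) ^ 8 * scal (metric φ) (r • e))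
        refine le_trans this (le_of_eq ?_)
        ring)) hu
      refine mul_nonneg (by positivity) ?_
      unfold pp
      linarith)
    (by
      obtain ⟨u1, u2⟩ := huntr r₁ hr₁
      have hp := hφ.pos r₁ hr₁
      rw [← u1, ← u2]
      exact mul_le_mul_of_nonneg_right trapped (by positivity))
    (flat.pp hφ) (tendsto_X flat.one hbd) hlim
  refine ⟨r₀, h1, ?_⟩
  rw [sqrt_area hφ (hr₁.trans_le h1)]
  linarith

end Pool.Agent.K4H63.PI
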