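import Pool.Agent.K4H63.PI.Scal

/-!
# Energy and momentum densities for the metric `φ(|x|)⁴ δ`
-/

set_option autoImplicit false

namespace Pool.Agent.K4H63.PI

open scoped BigOperators Topology
open Matrix Filter

/-- The (Euclidean) trace of the tangential part of `h` on the centred spheres. -/
noncomputable def qq (h : E → Matrix (Fin 3) (Fin 3) ℝ) (x : E) : ℝ := tr0 h x - hrad h x

/-- The radial derivative. -/
noncomputable def dr (F : E → ℝ) (x : E) : ℝ := ∑ i, (x i / ‖x‖) * pd i F x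

theorem trg_metric {φ : ℝ → ℝ} (h : E → Matrix (Fin 3) (Fin 3) ℝ) {x : E} (h0 : φ ‖x‖ ≠ 0) :
    trg (metric φ) h x = ((φ ‖x‖) ^ 4)⁻¹ * tr0 h x := by
  unfold trg tr0
  rw [metric_inv φ h0]
  simp [Fin.sum_univ_three, Matrix.one_apply]
  ring

theorem nsq_metric {φ : ℝ → ℝ} (h : E → Matrix (Fin 3) (Fin 3) ℝ) {x : E} (h0 : φ ‖x‖ ≠ 0) :
    nsq (metric φ) h x = ((φ ‖x‖) ^ 8)⁻¹ * ∑ i, ∑ j, (h x i j) ^ 2 := by
  unfold nsq
  rw [metric_inv φ h0]
  simp [Fin.sum_univ_three, Matrix.one_apply]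
  field_simp

/-- `T = h - (tr_g h) g` for the metric `φ⁴ δ`. -/
theorem trace_reversed {φ : ℝ → ℝ} (h : E → Matrix (Fin 3) (Fin 3) ℝ) {x : E} (h0 : φ ‖x‖ ≠ 0)
    (i j : Fin 3) :
    (h x - trg (metric φ) h x • metric φ x) i j = h x i j - tr0 h x * kd i j := by
  rw [trg_metric h h0]
  have e : (φ ‖x‖) ^ 4 ≠ 0 := pow_ne_zero 4 h0
  simp only [metric, Matrix.sub_apply, Matrix.smul_apply, smul_eq_mul, kd, Matrix.one_apply]
  field_simp

/-- Symmetric and differentiable away from the origin. -/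
structure Tensor (h : E → Matrix (Fin 3) (Fin 3) ℝ) : Prop where
  symm : ∀ x, x ≠ 0 → ∀ i j, h x i j = h x j i
  smooth : ∀ i j, ContDiffOn ℝ 1 (fun x => h x i j) {0}ᶜ

theorem Tensor.contDiffAt {h : E → Matrix (Fin 3) (Fin 3) ℝ} (H : Tensor h) {x : E} (hx : x ≠ 0)
    (i j : Fin 3) : ContDiffAt ℝ 1 (fun x => h x i j) x :=
  (H.smooth i j).contDiffAt (isOpen_compl_singleton.mem_nhds hx)

theorem Tensor.diff {h : E → Matrix (Fin 3) (Fin 3) ℝ} (H : Tensor h) {x : E} (hx : x ≠ 0)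
    (i j : Fin 3) : DifferentiableAt ℝ (fun x => h x i j) x :=
  (H.contDiffAt hx i j).differentiableAt (by norm_num)

theorem Tensor.tr_contDiffAt {h : E → Matrix (Fin 3) (Fin 3) ℝ} (H : Tensor h) {x : E}
    (hx : x ≠ 0) : ContDiffAt ℝ 1 (tr0 h) x := by
  unfold tr0
  exact ContDiffAt.sum fun i _ => H.contDiffAt hx i i

theorem Tensor.tr_diff {h : E → Matrix (Fin 3) (Fin 3) ℝ} (H : Tensor h) {x : E} (hx : x ≠ 0) :
    DifferentiableAt ℝ (tr0 h) x := (H.tr_contDiffAt hx).differentiableAt (by norm_num)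

theorem unit_contDiffAt {x : E} (hx : x ≠ 0) (i : Fin 3) :
    ContDiffAt ℝ 1 (fun y : E => y i / ‖y‖) x :=
  ((pr i).contDiff.contDiffAt).div (contDiffAt_norm ℝ hx) (norm_ne_zero_iff.2 hx)

theorem Tensor.hrad_contDiffAt {h : E → Matrix (Fin 3) (Fin 3) ℝ} (H : Tensor h) {x : E}
    (hx : x ≠ 0) : ContDiffAt ℝ 1 (hrad h) x := by
  unfold hrad
  exact ContDiffAt.sum fun i _ => ContDiffAt.sum fun j _ =>
    ((H.contDiffAt hx i j).mul (unit_contDiffAt hx i)).mul (unit_contDiffAt hx j)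

theorem Tensor.hrad_diff {h : E → Matrix (Fin 3) (Fin 3) ℝ} (H : Tensor h) {x : E} (hx : x ≠ 0) :
    DifferentiableAt ℝ (hrad h) x := (H.hrad_contDiffAt hx).differentiableAt (by norm_num)

theorem Tensor.qq_contDiffAt {h : E → Matrix (Fin 3) (Fin 3) ℝ} (H : Tensor h) {x : E}
    (hx : x ≠ 0) : ContDiffAt ℝ 1 (qq h) x :=
  (H.tr_contDiffAt hx).sub (H.hrad_contDiffAt hx)

theorem Tensor.qq_diff {h : E → Matrix (Fin 3) (Fin 3) ℝ} (H : Tensor h) {x : E} (hx : x ≠ 0) :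
    DifferentiableAt ℝ (qq h) x := (H.qq_contDiffAt hx).differentiableAt (by norm_num)

theorem pd_add {F G : E → ℝ} {x : E} (hF : DifferentiableAt ℝ F x) (hG : DifferentiableAt ℝ G x)
    (i : Fin 3) : pd i (fun y => F y + G y) x = pd i F x + pd i G x := by
  unfold pd
  rw [fderiv_fun_add hF hG, ContinuousLinearMap.add_apply]

theorem pd_sub {F G : E → ℝ} {x : E} (hF : DifferentiableAt ℝ F x) (hG : DifferentiableAt ℝ G x)
    (i : Fin 3) : pd i (fun y => F y - G y) x = pd i F x - pd i G x := by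
  unfold pd
  rw [fderiv_fun_sub hF hG, ContinuousLinearMap.sub_apply]

theorem pd_mul {F G : E → ℝ} {x : E} (hF : DifferentiableAt ℝ F x) (hG : DifferentiableAt ℝ G x)
    (i : Fin 3) : pd i (fun y => F y * G y) x = F x * pd i G x + G x * pd i F x := by
  unfold pd
  rw [fderiv_fun_mul hF hG]
  simp [smul_eq_mul]

theorem pd_sum {F : Fin 3 → E → ℝ} {x : E} (hF : ∀ j, DifferentiableAt ℝ (F j) x)
    (i : Fin 3) : pd i (fun y => ∑ j, F j y) x = ∑ j, pd i (F j) x := by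
  unfold pd
  rw [fderiv_fun_sum fun j _ => hF j]
  simp

theorem pd_const (c : ℝ) (x : E) (i : Fin 3) : pd i (fun _ => c) x = 0 := by
  unfold pd
  simp

/-- The momentum density of `(φ⁴ δ, h)`. -/
theorem momentum_metric {φ : ℝ → ℝ} (hφ : Good φ) {h : E → Matrix (Fin 3) (Fin 3) ℝ}
    (H : Tensor h) {x : E} (hx : x ≠ 0) (j : Fin 3) :
    momentum (metric φ) h j x = ((φ ‖x‖) ^ 4)⁻¹ *
      (∑ i, pd i (fun y => h y i j) x - pd j (tr0 h) x + ∑ l, ff φ l x * h x l j +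
        ff φ j x * tr0 h x) := by
  have hr : 0 < ‖x‖ := norm_pos_iff.2 hx
  have h0 : φ ‖x‖ ≠ 0 := (hφ.pos _ hr).ne'
  have hs := H.symm x hx
  have hT : ∀ i k, (h x - trg (metric φ) h x • metric φ x) i k = h x i k - tr0 h x * kd i k :=
    fun i k => trace_reversed h h0 i k
  have hpd : ∀ m i k, pd m (fun y => (h y - trg (metric φ) h y • metric φ y) i k) x =
      pd m (fun y => h y i k) x - kd i k * pd m (tr0 h) x := by
    intro m i k
    have h1 : (fun y => (h y - trg (metric φ) h y • metric φ y) i k) =ᶠ[𝓝 x]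
        fun y => h y i k - tr0 h y * kd i k := by
      filter_upwards [eventually_ne_zero hx] with y hy
      exact trace_reversed h (hφ.pos _ (norm_pos_iff.2 hy)).ne' i k
    rw [pd_congr h1, pd_sub (H.diff hx i k) ((H.tr_diff hx).mul_const _),
      pd_mul (H.tr_diff hx) (differentiableAt_const _), pd_const]
    ring
  unfold momentum cov
  rw [metric_inv φ h0]
  simp only [hpd, hT, chr_metric φ hx (hφ.diff hr) h0]
  have e : (φ ‖x‖) ^ 4 ≠ 0 := pow_ne_zero 4 h0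
  have s01 := hs 1 0
  have s02 := hs 2 0
  have s12 := hs 2 1
  fin_cases j <;>
    simp [Fin.sum_univ_three, kd, Matrix.one_apply, tr0, s01, s02, s12] <;> ring

end Pool.Agent.K4H63.PI
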