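import Pool.Agent.K4H63.PI.Ray

/-!
# The one-dimensional argument
-/

set_option autoImplicit false

namespace Pool.Agent.K4H63.PI

open scoped BigOperators Topology
open Matrix Filter Set

theorem Good.cont {φ : ℝ → ℝ} (h : Good φ) {r : ℝ} (hr : 0 < r) : ContinuousAt φ r :=
  (h.diff hr).continuousAt

theorem Good.psi_cont {φ : ℝ → ℝ} (h : Good φ) {r : ℝ} (hr : 0 < r) : ContinuousAt (psi φ) r :=
  (h.psi_diff hr).continuousAt

theorem Good.pp_cont {φ : ℝ → ℝ} (h : Good φ) {r : ℝ} (hr : 0 < r) : ContinuousAt (pp φ) r :=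
  continuousAt_const.add ((continuousAt_id.pow 2).mul (h.psi_cont hr))

theorem oned {φ : ℝ → ℝ} (hφ : Good φ) {q F' : ℝ → ℝ} {m r₁ : ℝ} (hr₁ : 0 < r₁)
    (hq : ∀ r, 0 < r → ContinuousAt q r)
    (hF : ∀ r, 0 < r → HasDerivAt (FF φ q) (F' r) r)
    (hF' : ∀ r, r₁ ≤ r → |r * q r| ≤ 2 * (φ r) ^ 2 * pp φ r → 0 ≤ F' r)
    (h₁ : 2 * (φ r₁) ^ 2 * pp φ r₁ ≤ |r₁ * q r₁|)
    (hp : Tendsto (pp φ) atTop (𝓝 1))
    (hX : Tendsto (fun r => r * q r / (2 * (φ r) ^ 2)) atTop (𝓝 0))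
    (hm : Tendsto (FF φ q) atTop (𝓝 (2 * m))) :
    ∃ r₀, r₁ ≤ r₀ ∧ (φ r₀) ^ 2 * r₀ ≤ 2 * m := by
  set u : ℝ → ℝ := fun r => 2 * (φ r) ^ 2 * pp φ r - |r * q r| with hu
  have ucont : ∀ r, 0 < r → ContinuousAt u r := fun r hr =>
    ((((hφ.cont hr).pow 2).const_mul 2).mul (hφ.pp_cont hr)).sub
      ((continuousAt_id.mul (hq r hr)).abs)
  -- eventually positive
  have h2 : Tendsto (fun r => pp φ r - |r * q r / (2 * (φ r) ^ 2)|) atTop (𝓝 (1 - |0|)) :=
    hp.sub hX.abs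
  rw [abs_zero, sub_zero] at h2
  have h3 : ∀ᶠ r in atTop, 0 < u r := by
    filter_upwards [h2.eventually (lt_mem_nhds (show (0:ℝ) < 1 by norm_num)),
      eventually_gt_atTop 0] with r hr hr0
    have hpos : 0 < 2 * (φ r) ^ 2 := by have := hφ.pos r hr0; positivity
    rw [abs_div, abs_of_pos hpos] at hr
    have : 0 < (pp φ r - |r * q r| / (2 * (φ r) ^ 2)) * (2 * (φ r) ^ 2) := mul_pos hr hpos
    rw [sub_mul, div_mul_cancel₀ _ hpos.ne'] at this
    simp only [hu]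
    linarith
  obtain ⟨R, hR⟩ := eventually_atTop.1 h3
  set S : Set ℝ := {r | r₁ ≤ r ∧ u r ≤ 0} with hS
  have hne : S.Nonempty := ⟨r₁, le_rfl, by simp only [hu]; linarith⟩
  have hbdd : BddAbove S := by
    refine ⟨R, fun r hr => ?_⟩
    by_contra hlt
    exact absurd hr.2 (not_le.2 (hR r (not_le.1 hlt).le))
  set r₀ := sSup S with hr₀
  have h10 : r₁ ≤ r₀ := le_csSup hbdd ⟨le_rfl, by simp only [hu]; linarith⟩
  have h00 : 0 < r₀ := hr₁.trans_le h10
  have hgt : ∀ r, r₀ < r → 0 < u r := by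
    intro r hr
    by_contra hle
    exact absurd (le_csSup hbdd (show r ∈ S from ⟨h10.trans hr.le, not_lt.1 hle⟩)) (not_le.2 hr)
  have hle0 : u r₀ ≤ 0 := by
    have hcl : r₀ ∈ closure S := csSup_mem_closure hne hbdd
    obtain ⟨s, hs, hlim⟩ := mem_closure_iff_seq_limit.1 hcl
    exact le_of_tendsto ((ucont r₀ h00).tendsto.comp hlim) (Eventually.of_forall fun n => (hs n).2)
  have hge0 : 0 ≤ u r₀ := by
    have h4 : Tendsto u (𝓝[>] r₀) (𝓝 (u r₀)) := (ucont r₀ h00).tendsto.mono_left nhdsWithin_le_nhds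
    exact ge_of_tendsto h4 (eventually_nhdsWithin_of_forall fun r hr => (hgt r hr).le)
  have h0 : u r₀ = 0 := le_antisymm hle0 hge0
  -- monotonicity
  have hmono : MonotoneOn (FF φ q) (Ici r₀) := by
    apply monotoneOn_of_deriv_nonneg (convex_Ici r₀)
    · exact fun r hr => (hF r (h00.trans_le hr)).continuousAt.continuousWithinAt
    · intro r hr
      rw [interior_Ici] at hr
      exact (hF r (h00.trans hr)).differentiableAt.differentiableWithinAt
    · intro r hr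
      rw [interior_Ici] at hr
      rw [(hF r (h00.trans hr)).deriv]
      refine hF' r (h10.trans (le_of_lt hr)) ?_
      have := hgt r hr
      simp only [hu] at this
      linarith
  have hlim : FF φ q r₀ ≤ 2 * m := by
    refine ge_of_tendsto hm ?_
    filter_upwards [eventually_ge_atTop r₀] with r hr
    exact hmono (mem_Ici.2 le_rfl) (mem_Ici.2 hr) hr
  refine ⟨r₀, h10, le_trans (le_of_eq ?_) hlim⟩
  have hpos : 0 < φ r₀ := hφ.pos r₀ h00
  have h5 : (2 * (φ r₀) ^ 2 * pp φ r₀) ^ 2 = (r₀ * q r₀) ^ 2 := by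
    have : 2 * (φ r₀) ^ 2 * pp φ r₀ = |r₀ * q r₀| := by
      simp only [hu] at h0; linarith
    rw [this, sq_abs]
  unfold FF YY
  field_simp
  linear_combination h5

end Pool.Agent.K4H63.PI
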