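import Pool.Agent.K4H63.PI.Lin4

/-!
# The mass function with the maximum of `|tr_S h|` over the centred spheres
-/

set_option autoImplicit false

namespace Pool.Agent.K4H63.PI

open scoped BigOperators Topology
open Matrix Filter Set MeasureTheory

/-- The maximum of `|qq h|` over the centred sphere of radius `r`. -/
noncomputable def peak (h : E → Matrix (Fin 3) (Fin 3) ℝ) (r : ℝ) : ℝ :=
  sSup ((fun ω : Metric.sphere (0 : E) 1 => |qq h (r • (ω : E))|) '' univ)

theorem peak_spec {h : E → Matrix (Fin 3) (Fin 3) ℝ} (H : Tensor h) {r : ℝ} (hr : 0 < r) :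
    (∃ w : E, ‖w‖ = 1 ∧ peak h r = |qq h (r • w)|) ∧
      ∀ w : E, ‖w‖ = 1 → |qq h (r • w)| ≤ peak h r := by
  have hc : ContinuousOn (fun ω : Metric.sphere (0 : E) 1 => |qq h (r • (ω : E))|) univ :=
    (sph_cont H.qq_smooth.continuousOn hr).abs.continuousOn
  have hne : (univ : Set (Metric.sphere (0 : E) 1)).Nonempty :=
    ⟨⟨EuclideanSpace.single 0 1, by simp⟩, trivial⟩
  obtain ⟨ω, _, h1, h2⟩ := isCompact_univ.exists_sSup_image_eq_and_ge hne hc
  refine ⟨⟨ω, sphere_norm ω, h1⟩, fun w hw => ?_⟩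
  have := h2 ⟨w, by simp [hw]⟩ trivial
  unfold peak
  rw [h1]
  exact this

theorem peak_continuousAt {h : E → Matrix (Fin 3) (Fin 3) ℝ} (H : Tensor h) {r : ℝ} (hr : 0 < r) :
    ContinuousAt (peak h) r := by
  have h1 : Continuous (fun p : ℝ × Metric.sphere (0 : E) 1 =>
      |qq h (max p.1 (r / 2) • (p.2 : E))|) := by
    refine Continuous.abs ?_
    refine H.qq_smooth.continuousOn.comp_continuous (by fun_prop) ?_
    rintro ⟨s, ω⟩
    exact ray_ne (sphere_norm ω) (lt_of_lt_of_le (by positivity) (le_max_right _ _))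
  have h2 := IsCompact.continuous_sSup (K := (univ : Set (Metric.sphere (0 : E) 1)))
    (f := fun (s : ℝ) (ω : Metric.sphere (0 : E) 1) => |qq h (max s (r / 2) • (ω : E))|)
    isCompact_univ h1
  refine h2.continuousAt.congr ?_
  filter_upwards [Ioi_mem_nhds (show r / 2 < r by linarith)] with s hs
  unfold peak
  rw [max_eq_left (le_of_lt hs)]

theorem dini_mono {f : ℝ → ℝ} {a b : ℝ} (hab : a ≤ b) (hc : ContinuousOn f (Icc a b))
    (hd : ∀ x ∈ Ico a b, ∃ g : ℝ → ℝ, ∃ g', HasDerivAt g g' x ∧ 0 ≤ g' ∧ g x = f x ∧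
      ∀ᶠ z in 𝓝[>] x, g z ≤ f z) : f a ≤ f b := by
  have key := image_le_of_liminf_slope_right_le_deriv_boundary (f := fun x => -f x) (a := a)
    (b := b) hc.neg (B := fun _ => -f a) (B' := fun _ => 0) le_rfl continuousOn_const
    (fun x _ => hasDerivWithinAt_const _ _ _) (fun x hx r hr => by
      obtain ⟨g, g', h1, h2, h3, h4⟩ := hd x hx
      have h5 : Tendsto (slope (fun y => -g y) x) (𝓝[>] x) (𝓝 (-g')) :=
        (hasDerivAt_iff_tendsto_slope.1 h1.fun_neg).mono_left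
          (nhdsWithin_mono _ (fun y hy => ne_of_gt hy))
      have h6 : ∀ᶠ z in 𝓝[>] x, slope (fun y => -g y) x z < r :=
        h5.eventually_lt_const (by linarith)
      refine Eventually.frequently ?_
      filter_upwards [h6, h4, self_mem_nhdsWithin] with z hz1 hz2 hz3
      refine lt_of_le_of_lt ?_ hz1
      rw [slope_def_field, slope_def_field]
      refine div_le_div_of_nonneg_right ?_ (sub_nonneg.2 (le_of_lt hz3))
      rw [h3]
      linarith)
  have := key (right_mem_Icc.2 hab)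
  linarith

/-- The condition at a point `r w` of the centred sphere: `|tr_S h|` is maximal there, and
`(tr_S h) div_S β + H (2 |β|² + |h°|²) / 2 ≥ 0`. -/
def PeakAt (φ : ℝ → ℝ) (h : E → Matrix (Fin 3) (Fin 3) ℝ) (r : ℝ) (w : E) : Prop :=
  (∀ v : E, ‖v‖ = 1 → |trS φ h (r • v)| ≤ |trS φ h (r • w)|) ∧
    0 ≤ trS φ h (r • w) * divS φ h (r • w) + meanCurv φ (r • w) * transS φ h (r • w) / 2

/-- If `tr_S h` is constant on an untrapped sphere, some point satisfies the condition. -/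
theorem peakAt_of_const {φ : ℝ → ℝ} (hφ : Good φ) {h : E → Matrix (Fin 3) (Fin 3) ℝ}
    (H : Tensor h) {r : ℝ} (hr : 0 < r) (hH : 0 ≤ sphereH φ r)
    (hc : ∃ c, ∀ w : E, ‖w‖ = 1 → trS φ h (r • w) = c) : ∃ w : E, ‖w‖ = 1 ∧ PeakAt φ h r w := by
  obtain ⟨c, hc⟩ := hc
  have hp := hφ.pos r hr
  by_contra hno
  push Not at hno
  set f : E → ℝ := fun x => c * ((φ r) ^ 6)⁻¹ * divMixed h x +
    sphereH φ r * ((φ r) ^ 8)⁻¹ / 2 * transverse h x with hf
  have cf : ContinuousOn f {0}ᶜ := (continuousOn_const.mul (divMixed_cont H)).add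
    (continuousOn_const.mul H.transverse_cont)
  have hfe : ∀ w : E, ‖w‖ = 1 → trS φ h (r • w) * divS φ h (r • w) +
      meanCurv φ (r • w) * transS φ h (r • w) / 2 = f (r • w) := by
    intro w hw
    rw [hc w hw]
    unfold divS transS meanCurv
    rw [ray_norm hw hr]
    simp only [hf]
    unfold sphereH
    ring
  have hneg : ∀ w : E, ‖w‖ = 1 → f (r • w) < 0 := by
    intro w hw
    have h1 := hno w hw
    unfold PeakAt at h1
    rw [not_and_or] at h1
    rcases h1 with h1 | h1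
    · exact absurd (fun v hv => by rw [hc v hv, hc w hw]) h1
    · rw [hfe w hw] at h1
      exact not_le.1 h1
  have cS : ContinuousOn (fun ω : Metric.sphere (0 : E) 1 => f (r • (ω : E))) univ :=
    (sph_cont cf hr).continuousOn
  have hne : (univ : Set (Metric.sphere (0 : E) 1)).Nonempty :=
    ⟨⟨EuclideanSpace.single 0 1, by simp⟩, trivial⟩
  obtain ⟨ω, _, hmax⟩ := isCompact_univ.exists_isMaxOn hne cS
  have hle : ∀ w : E, ‖w‖ = 1 → f (r • w) ≤ f (r • (ω : E)) := fun w hw =>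
    hmax (show (⟨w, by simp [hw]⟩ : Metric.sphere (0 : E) 1) ∈ univ from trivial)
  have h1 := sphAvg_mono (G := fun _ => f (r • (ω : E))) cf continuousOn_const hr hle
  have h2 : 0 ≤ sphAvg f r := by
    rw [sphAvg_add (F := fun x => c * ((φ r) ^ 6)⁻¹ * divMixed h x)
      (G := fun x => sphereH φ r * ((φ r) ^ 8)⁻¹ / 2 * transverse h x)
      (continuousOn_const.mul (divMixed_cont H)) (continuousOn_const.mul H.transverse_cont) hr,
      sphAvg_mul, sphAvg_mul, sphAvg_divMixed H hr, mul_zero, zero_add]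
    have h3 := sphAvg_mono (F := fun _ => (0:ℝ)) (G := transverse h) continuousOn_const
      H.transverse_cont hr (fun w hw => transverse_nonneg h (ray_ne hw hr))
    rw [sphAvg_const] at h3
    positivity
  rw [sphAvg_const] at h1
  have h4 := hneg ω (sphere_norm ω)
  linarith

theorem peak_theorem {φ : ℝ → ℝ} {h : E → Matrix (Fin 3) (Fin 3) ℝ} {m : ℝ} (hφ : Good φ)
    (H : Tensor h) (flat : FlatEnd φ m) (decay : Decay h) {r₁ : ℝ} (hr₁ : 0 < r₁)
    (dec : ∀ x : E, r₁ ≤ ‖x‖ → momentumNorm (metric φ) h x ≤ energy (metric φ) h x)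
    (cond : ∀ r : ℝ, r₁ ≤ r → (∀ w : E, ‖w‖ = 1 → |trS φ h (r • w)| ≤ sphereH φ r) →
      (∃ c, ∀ w : E, ‖w‖ = 1 → trS φ h (r • w) = c) ∨ ∃ w : E, ‖w‖ = 1 ∧ PeakAt φ h r w)
    (trapped : ∃ w : E, ‖w‖ = 1 ∧ sphereH φ r₁ ≤ |trS φ h (r₁ • w)|) :
    ∃ r₀, r₁ ≤ r₀ ∧ Real.sqrt (sphereArea φ r₀ / (16 * Real.pi)) ≤ m := by
  obtain ⟨C, hC⟩ := decay
  have hbd : ∀ r : ℝ, 1 ≤ r → |peak h r| ≤ 12 * C / r ^ 2 := by
    intro r hr
    have h0 : 0 < r := by linarith
    obtain ⟨⟨w, hw, h1⟩, _⟩ := peak_spec H h0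
    rw [h1, abs_abs]
    have h2 := hC (r • w) (by rw [ray_norm hw h0]; exact hr)
    rw [ray_norm hw h0] at h2
    calc |qq h (r • w)| ≤ 12 * (C / r ^ 2) := qq_bound (ray_ne hw h0) h2
      _ = 12 * C / r ^ 2 := by ring
  have hlim : Tendsto (FF φ (peak h)) atTop (𝓝 (2 * m)) := by
    have := (flat.YY hφ).add (tendsto_sq_term flat.one hbd)
    rw [add_zero] at this
    exact this
  have hpk0 : ∀ r, 0 < r → 0 ≤ peak h r := by
    intro r hr
    obtain ⟨⟨w, hw, h1⟩, _⟩ := peak_spec H hr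
    rw [h1]; exact abs_nonneg _
  have hS : ∀ r : ℝ, 0 < r → ∀ w : E, ‖w‖ = 1 → (|trS φ h (r • w)| * ((φ r) ^ 4 * r) =
      r * |qq h (r • w)| ∧ sphereH φ r * ((φ r) ^ 4 * r) = 2 * (φ r) ^ 2 * pp φ r) := by
    intro r hr w hw
    have hp := hφ.pos r hr
    constructor
    · unfold trS
      rw [ray_norm hw hr, abs_mul, abs_of_pos (show (0:ℝ) < ((φ r) ^ 4)⁻¹ by positivity)]
      field_simp
    · rw [sphereH_eq hφ hr]
      field_simp
  obtain ⟨r₀, h10, h0eq, hgt⟩ := last_trapped hφ (q := peak h) hr₁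
    (fun r hr => peak_continuousAt H hr)
    (by
      obtain ⟨w, hw, ht⟩ := trapped
      obtain ⟨u1, u2⟩ := hS r₁ hr₁ w hw
      have hp := hφ.pos r₁ hr₁
      rw [← u2, abs_mul, abs_of_pos hr₁, abs_of_nonneg (hpk0 r₁ hr₁)]
      refine (mul_le_mul_of_nonneg_right ht (by positivity)).trans ?_
      rw [u1]
      exact mul_le_mul_of_nonneg_left ((peak_spec H hr₁).2 w hw) hr₁.le)
    (flat.pp hφ) (tendsto_X flat.one hbd)
  have h00 : 0 < r₀ := hr₁.trans_le h10
  have hge : ∀ r, r₀ ≤ r → r * peak h r ≤ 2 * (φ r) ^ 2 * pp φ r := by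
    intro r hr
    have h0 := h00.trans_le hr
    rcases eq_or_lt_of_le hr with he | hlt
    · rw [← he, h0eq, abs_mul, abs_of_pos h00, abs_of_nonneg (hpk0 r₀ h00)]
    · have := hgt r hlt
      rw [abs_mul, abs_of_pos h0, abs_of_nonneg (hpk0 r h0)] at this
      exact this.le
  have hFc : ∀ r, 0 < r → ContinuousAt (FF φ (peak h)) r := by
    intro r hr
    have hp := hφ.pos r hr
    have c1 := peak_continuousAt H hr
    exact (((hφ.cont hr).pow 2).mul continuousAt_id).mul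
      (continuousAt_const.sub ((hφ.pp_cont hr).pow 2)) |>.add
      (((continuousAt_id.pow 3).mul (c1.pow 2)).div
        (continuousAt_const.mul ((hφ.cont hr).pow 2)) (by positivity))
  have hmono : ∀ b, r₀ ≤ b → FF φ (peak h) r₀ ≤ FF φ (peak h) b := by
    intro b hb
    refine dini_mono hb (fun r hr => (hFc r (h00.trans_le hr.1)).continuousWithinAt) ?_
    intro r hr
    have h0 := h00.trans_le hr.1
    have hp := hφ.pos r h0
    have hrr : r₁ ≤ r := h10.trans hr.1
    have hun : ∀ w : E, ‖w‖ = 1 → |trS φ h (r • w)| ≤ sphereH φ r := by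
      intro w hw
      obtain ⟨u1, u2⟩ := hS r h0 w hw
      refine le_of_mul_le_mul_right ?_ (show 0 < (φ r) ^ 4 * r by positivity)
      rw [u1, u2]
      exact (mul_le_mul_of_nonneg_left ((peak_spec H h0).2 w hw) h0.le).trans (hge r hr.1)
    have hw : ∃ w : E, ‖w‖ = 1 ∧ PeakAt φ h r w := by
      rcases cond r hrr hun with hc | hc
      · refine peakAt_of_const hφ H h0 ?_ hc
        have he : ‖(EuclideanSpace.single 0 1 : E)‖ = 1 := by simp
        exact (abs_nonneg _).trans (hun _ he)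
      · exact hc
    obtain ⟨w, hw, hmaxw, hcw⟩ := hw
    have hx := ray_ne hw h0
    have hn := ray_norm hw h0
    have hpk : peak h r = |qq h (r • w)| := by
      refine le_antisymm ?_ ((peak_spec H h0).2 w hw)
      obtain ⟨⟨v, hv, h1⟩, _⟩ := peak_spec H h0
      rw [h1]
      have h2 := mul_le_mul_of_nonneg_right (hmaxw v hv)
        (show 0 ≤ (φ r) ^ 4 * r by positivity)
      rw [(hS r h0 v hv).1, (hS r h0 w hw).1] at h2
      exact le_of_mul_le_mul_left h2 h0
    have dq : HasDerivAt (fun s : ℝ => qq h (s • w)) (dr (qq h) (r • w)) r :=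
      hasDerivAt_ray hw h0 (H.qq_diff hx)
    refine ⟨FF φ (fun s : ℝ => qq h (s • w)), _, hasDerivAt_FF hφ h0 hn dq, ?_, ?_, ?_⟩
    · have hu' : |‖r • w‖ * qq h (r • w)| ≤ 2 * (φ ‖r • w‖) ^ 2 * pp φ ‖r • w‖ := by
        rw [hn, abs_mul, abs_of_pos h0, ← hpk]
        exact hge r hr.1
      have k1 := key hφ H hx (dec _ (by rw [hn]; exact hrr)) hu'
      have k2 := (cond_iff hφ h hx).1 hcw
      rw [hn] at k1 k2
      refine mul_nonneg (by positivity) ?_
      unfold pp at k2 ⊢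
      linarith
    · unfold FF
      rw [hpk, sq_abs]
    · filter_upwards [self_mem_nhdsWithin] with z hz
      have hz0 : 0 < z := h0.trans hz
      have hpz := hφ.pos z hz0
      have h1 := (peak_spec H hz0).2 w hw
      have h2 : (qq h (z • w)) ^ 2 ≤ (peak h z) ^ 2 := by
        rw [← sq_abs (qq h (z • w))]
        exact pow_le_pow_left₀ (abs_nonneg _) h1 2
      unfold FF
      have h3 : z ^ 3 * (qq h (z • w)) ^ 2 / (4 * (φ z) ^ 2) ≤
          z ^ 3 * (peak h z) ^ 2 / (4 * (φ z) ^ 2) :=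
        div_le_div_of_nonneg_right (mul_le_mul_of_nonneg_left h2 (by positivity)) (by positivity)
      linarith
  have hlim2 : FF φ (peak h) r₀ ≤ 2 * m := by
    refine ge_of_tendsto hlim ?_
    filter_upwards [eventually_ge_atTop r₀] with r hr
    exact hmono r hr
  refine ⟨r₀, h10, ?_⟩
  rw [sqrt_area hφ h00]
  have hpos : 0 < φ r₀ := hφ.pos r₀ h00
  have h5 : (2 * (φ r₀) ^ 2 * pp φ r₀) ^ 2 = (r₀ * peak h r₀) ^ 2 := by
    rw [h0eq, sq_abs]
  have h6 : FF φ (peak h) r₀ = (φ r₀) ^ 2 * r₀ := by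
    unfold FF YY
    field_simp
    linear_combination -h5
  rw [h6] at hlim2
  linarith

end Pool.Agent.K4H63.PI
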