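import Pool.Agent.K4H63.PI.Avg

/-!
# Polar coordinates
-/

set_option autoImplicit false

namespace Pool.Agent.K4H63.PI

open scoped BigOperators Topology
open Matrix Filter Set MeasureTheory

theorem integral_polar {F : E → ℝ} (hF : Integrable F volume) :
    ∫ x, F x = ∫ r in Ioi (0:ℝ), r ^ 2 * ∫ ω, F (r • (ω : E)) ∂sph := by
  have hmp := (volume : Measure E).measurePreserving_homeomorphUnitSphereProd
  have hd : Module.finrank ℝ E - 1 = 2 := by simp
  rw [hd] at hmp
  set G : Metric.sphere (0:E) 1 × Ioi (0:ℝ) → ℝ := fun z => F (z.2.1 • (z.1 : E)) with hG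
  have hcomp : ∀ x : ({0}ᶜ : Set E), G (homeomorphUnitSphereProd E x) = F x.1 := by
    intro x
    simp only [hG, homeomorphUnitSphereProd_apply_snd_coe, homeomorphUnitSphereProd_apply_fst_coe]
    rw [smul_smul, mul_inv_cancel₀ (norm_ne_zero_iff.2 x.2), one_smul]
  have e1 : ∫ x, F x = ∫ x : ({(0)}ᶜ : Set E), F x.1 ∂((volume : Measure E).comap (↑)) := by
    rw [integral_subtype_comap (measurableSet_singleton _).compl F,
      restrict_compl_singleton]
  have e2 : ∫ x : ({(0)}ᶜ : Set E), F x.1 ∂((volume : Measure E).comap (↑)) =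
     ∫ z, G z ∂(sph.prod (Measure.volumeIoiPow 2)) := by
    unfold sph
    rw [← hmp.integral_comp (Homeomorph.measurableEmbedding _) G]
    exact integral_congr_ae (Eventually.of_forall fun x => (hcomp x).symm)
  have hint : Integrable G (sph.prod (Measure.volumeIoiPow 2)) := by
    have h3 : Integrable (fun x : ({0}ᶜ : Set E) => F x.1)
        ((volume : Measure E).comap (↑)) := by
      have h4 : IntegrableOn F ({0}ᶜ : Set E) volume := hF.integrableOn
      rw [integrableOn_iff_comap_subtypeVal (measurableSet_singleton _).compl] at h4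
      exact h4
    have h5 := hmp.integrable_comp_emb (g := G) (Homeomorph.measurableEmbedding _)
    refine h5.1 ?_
    refine h3.congr (Eventually.of_forall fun x => (hcomp x).symm)
  rw [e1, e2, integral_prod_symm _ hint]
  simp only [Measure.volumeIoiPow, ENNReal.ofReal]
  rw [integral_withDensity_eq_integral_smul,
    integral_subtype_comap measurableSet_Ioi
      fun a => Real.toNNReal (a ^ 2) • ∫ ω, F (a • (ω : E)) ∂sph]
  · refine setIntegral_congr_fun measurableSet_Ioi fun x hx => ?_
    rw [NNReal.smul_def, Real.coe_toNNReal _ (pow_nonneg (le_of_lt hx) _), smul_eq_mul]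
  · exact (measurable_subtype_coe.pow_const _).real_toNNReal

/-- A function continuous away from the origin, times a radial cutoff. -/
theorem cutoff_cont {G : E → ℝ} (hG : ContinuousOn G {0}ᶜ) {χ : ℝ → ℝ} (hχ : Continuous χ)
    (h0 : (0 : ℝ) ∉ tsupport χ) : Continuous fun x : E => χ ‖x‖ * G x := by
  rw [continuous_iff_continuousAt]
  intro x
  by_cases hx : x = 0
  · have h1 : (fun x : E => χ ‖x‖ * G x) =ᶠ[𝓝 x] fun _ => 0 := by
      have h2 : ∀ᶠ t in 𝓝 (0 : ℝ), χ t = 0 := by
        have := (notMem_tsupport_iff_eventuallyEq).1 h0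
        exact this
      have h3 : Tendsto (fun y : E => ‖y‖) (𝓝 x) (𝓝 0) := by
        have := (continuous_norm (E := E)).tendsto x
        rwa [hx, norm_zero, ← hx] at this
      filter_upwards [h3.eventually h2] with y hy
      rw [hy, zero_mul]
    exact continuousAt_const.congr h1.symm
  · exact ((hχ.comp continuous_norm).continuousAt).mul
      (hG.continuousAt (isOpen_compl_singleton.mem_nhds hx))

theorem cutoff_supp {G : E → ℝ} {χ : ℝ → ℝ} (hχ : HasCompactSupport χ) :
    HasCompactSupport fun x : E => χ ‖x‖ * G x := by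
  obtain ⟨R, hR⟩ := hχ.isCompact.isBounded.subset_closedBall (0 : ℝ)
  refine HasCompactSupport.intro (isCompact_closedBall (0 : E) R) fun x hx => ?_
  have : ‖x‖ ∉ tsupport χ := by
    intro h
    apply hx
    have := hR h
    rw [mem_closedBall_zero_iff] at this ⊢
    simpa using this
  rw [image_eq_zero_of_notMem_tsupport this, zero_mul]

theorem cutoff_integrable {G : E → ℝ} (hG : ContinuousOn G {0}ᶜ) {χ : ℝ → ℝ}
    (hχ : Continuous χ) (hs : HasCompactSupport χ) (h0 : (0 : ℝ) ∉ tsupport χ) :
    Integrable (fun x : E => χ ‖x‖ * G x) volume :=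
  (cutoff_cont hG hχ h0).integrable_of_hasCompactSupport (cutoff_supp hs)

end Pool.Agent.K4H63.PI
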