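import Pool.Agent.K4H63.PI.Mom

/-!
# The radial component of the momentum density
-/

set_option autoImplicit false

namespace Pool.Agent.K4H63.PI

open scoped BigOperators Topology
open Matrix Filter

theorem unit_diff {x : E} (hx : x ≠ 0) (j : Fin 3) :
    DifferentiableAt ℝ (fun y : E => y j / ‖y‖) x :=
  (unit_contDiffAt hx j).differentiableAt (by norm_num)

theorem pd_unit {x : E} (hx : x ≠ 0) (i j : Fin 3) :
    pd i (fun y : E => y j / ‖y‖) x = kd i j / ‖x‖ - x i * x j / ‖x‖ ^ 3 := by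
  have hr : ‖x‖ ≠ 0 := norm_ne_zero_iff.2 hx
  have h1 : (fun y : E => y j / ‖y‖) = fun y => y j * (fun r : ℝ => r⁻¹) ‖y‖ := by
    funext y
    rw [div_eq_mul_inv]
  have h2 : HasDerivAt (fun r : ℝ => r⁻¹) (-(‖x‖ ^ 2)⁻¹) ‖x‖ := hasDerivAt_inv hr
  rw [h1, pd_mul (hasFDerivAt_coord x j).differentiableAt
    (hasFDerivAt_radial hx h2).differentiableAt, pd_radial hx h2, pd_coord]
  field_simp
  ring

theorem mixed_eq (h : E → Matrix (Fin 3) (Fin 3) ℝ) (i : Fin 3) :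
    mixed h i = fun y => ∑ j, h y i j * (y j / ‖y‖) - hrad h y * (y i / ‖y‖) := rfl

theorem divMixed_eq {h : E → Matrix (Fin 3) (Fin 3) ℝ} (H : Tensor h) {x : E} (hx : x ≠ 0) :
    divMixed h x = ∑ i, ∑ j, (x j / ‖x‖) * pd i (fun y => h y i j) x
      + (tr0 h x - hrad h x) / ‖x‖ - dr (hrad h) x - 2 * hrad h x / ‖x‖ := by
  have hr : ‖x‖ ≠ 0 := norm_ne_zero_iff.2 hx
  have hn := norm_sq_eq x
  have hh : hrad h x * ‖x‖ ^ 2 = ∑ i, ∑ j, h x i j * x i * x j := by
    unfold hrad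
    rw [Finset.sum_mul]
    refine Finset.sum_congr rfl fun i _ => ?_
    rw [Finset.sum_mul]
    refine Finset.sum_congr rfl fun j _ => ?_
    field_simp
  have h1 : ∀ i, pd i (mixed h i) x =
      ∑ j, (h x i j * (kd i j / ‖x‖ - x i * x j / ‖x‖ ^ 3) +
        (x j / ‖x‖) * pd i (fun y => h y i j) x) -
      (hrad h x * (kd i i / ‖x‖ - x i * x i / ‖x‖ ^ 3) + (x i / ‖x‖) * pd i (hrad h) x) := by
    intro i
    have d1 : ∀ j, DifferentiableAt ℝ (fun y => h y i j * (y j / ‖y‖)) x :=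
      fun j => (H.diff hx i j).mul (unit_diff hx j)
    have d2 : DifferentiableAt ℝ (fun y => hrad h y * (y i / ‖y‖)) x :=
      (H.hrad_diff hx).mul (unit_diff hx i)
    have d3 : DifferentiableAt ℝ (fun y => ∑ j, h y i j * (y j / ‖y‖)) x :=
      DifferentiableAt.fun_sum fun j _ => d1 j
    rw [mixed_eq, pd_sub d3 d2, pd_sum d1, pd_mul (H.hrad_diff hx) (unit_diff hx i), pd_unit hx]
    congr 1
    refine Finset.sum_congr rfl fun j _ => ?_
    rw [pd_mul (H.diff hx i j) (unit_diff hx j), pd_unit hx]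
  unfold divMixed dr tr0
  simp only [h1]
  simp only [Fin.sum_univ_three] at hh ⊢
  simp only [kd]
  simp only [if_true, Fin.reduceEq, if_false]
  field_simp
  linear_combination hh - (hrad h x) * hn

theorem radial_momentum {φ : ℝ → ℝ} (hφ : Good φ) {h : E → Matrix (Fin 3) (Fin 3) ℝ}
    (H : Tensor h) {x : E} (hx : x ≠ 0) :
    ∑ j, (x j / ‖x‖) * momentum (metric φ) h j x = ((φ ‖x‖) ^ 4)⁻¹ *
      (divMixed h x + (2 * hrad h x - qq h x) / ‖x‖ - dr (qq h) x +
        ‖x‖ * psi φ ‖x‖ * (2 * hrad h x + qq h x)) := by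
  have hr : ‖x‖ ≠ 0 := norm_ne_zero_iff.2 hx
  have hn := norm_sq_eq x
  have h0 : φ ‖x‖ ≠ 0 := (hφ.pos _ (norm_pos_iff.2 hx)).ne'
  have e : (φ ‖x‖) ^ 4 ≠ 0 := pow_ne_zero 4 h0
  have hh : hrad h x * ‖x‖ ^ 2 = ∑ i, ∑ j, h x i j * x i * x j := by
    unfold hrad
    rw [Finset.sum_mul]
    refine Finset.sum_congr rfl fun i _ => ?_
    rw [Finset.sum_mul]
    refine Finset.sum_congr rfl fun j _ => ?_
    field_simp
  have hq : dr (qq h) x = dr (tr0 h) x - dr (hrad h) x := by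
    unfold dr
    rw [← Finset.sum_sub_distrib]
    refine Finset.sum_congr rfl fun i _ => ?_
    rw [show qq h = fun y => tr0 h y - hrad h y from rfl, pd_sub (H.tr_diff hx) (H.hrad_diff hx)]
    ring
  rw [hq, divMixed_eq H hx]
  simp only [momentum_metric hφ H hx, ff_eq]
  unfold qq dr
  simp only [Fin.sum_univ_three] at hh ⊢
  field_simp
  linear_combination -(psi φ ‖x‖) * hh - psi φ ‖x‖ * tr0 h x * hn

end Pool.Agent.K4H63.PI
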