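import Pool.Agent.K4H63.PI.Key

/-!
# The mass function along a ray
-/

set_option autoImplicit false

namespace Pool.Agent.K4H63.PI

open scoped BigOperators Topology
open Matrix Filter

theorem ray_norm {ω : E} (hω : ‖ω‖ = 1) {r : ℝ} (hr : 0 < r) : ‖r • ω‖ = r := by
  rw [norm_smul, hω, mul_one, Real.norm_of_nonneg hr.le]

theorem ray_ne {ω : E} (hω : ‖ω‖ = 1) {r : ℝ} (hr : 0 < r) : r • ω ≠ 0 := by
  rw [← norm_pos_iff, ray_norm hω hr]
  exact hr

theorem dr_eq {F : E → ℝ} {x : E} : dr F x = fderiv ℝ F x (‖x‖⁻¹ • x) := by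
  have hx : x = ∑ i, x i • EuclideanSpace.single i (1 : ℝ) := by
    ext j
    simp [Finset.sum_apply, Pi.single_apply]
  have h1 : ‖x‖⁻¹ • x = ∑ i, (x i / ‖x‖) • EuclideanSpace.single i (1 : ℝ) := by
    conv_lhs => rw [hx, Finset.smul_sum]
    refine Finset.sum_congr rfl fun i _ => ?_
    rw [smul_smul, ← hx]
    congr 1
    ring
  rw [h1, map_sum]
  unfold dr pd
  refine Finset.sum_congr rfl fun i _ => ?_
  rw [map_smul, smul_eq_mul]

theorem hasDerivAt_ray {F : E → ℝ} {ω : E} (hω : ‖ω‖ = 1) {r : ℝ} (hr : 0 < r)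
    (hF : DifferentiableAt ℝ F (r • ω)) :
    HasDerivAt (fun s : ℝ => F (s • ω)) (dr F (r • ω)) r := by
  have h1 : HasDerivAt (fun s : ℝ => s • ω) ω r := by
    simpa using (hasDerivAt_id r).smul_const ω
  have h2 := hF.hasFDerivAt.comp_hasDerivAt r h1
  rw [dr_eq, ray_norm hω hr, smul_smul, inv_mul_cancel₀ hr.ne', one_smul]
  exact h2

/-- `ρ' = 1 + r² ψ = 1 + 2 r φ'/φ`, the derivative of the area radius in arclength. -/
noncomputable def pp (φ : ℝ → ℝ) (r : ℝ) : ℝ := 1 + r ^ 2 * psi φ r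

/-- `ρ (1 - ρ'²)` for the area radius `ρ = φ² r`. -/
noncomputable def YY (φ : ℝ → ℝ) (r : ℝ) : ℝ := (φ r) ^ 2 * r * (1 - (pp φ r) ^ 2)

theorem hasDerivAt_YY {φ : ℝ → ℝ} (hφ : Good φ) {r : ℝ} (hr : 0 < r) {x : E} (hx : ‖x‖ = r) :
    HasDerivAt (YY φ) ((φ r) ^ 6 * r ^ 2 * pp φ r * scal (metric φ) x / 2) r := by
  have hx0 : x ≠ 0 := by
    rw [← norm_pos_iff, hx]; exact hr
  have hp := hφ.pos r hr
  rw [scal_metric hφ hx0, hx]
  have d1 := (hφ.diff hr).hasDerivAt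
  have d2 := (hφ.psi_diff hr).hasDerivAt
  have hd : deriv φ r = r * φ r * psi φ r / 2 := by
    unfold psi
    field_simp
  rw [hd] at d1
  have d3 : HasDerivAt (pp φ) (2 * r * psi φ r + r ^ 2 * deriv (psi φ) r) r := by
    have := (((hasDerivAt_id r).fun_pow 2).mul d2).const_add 1
    have h2 : HasDerivAt (pp φ) _ r := this
    refine h2.congr_deriv ?_
    simp
  have d4 := ((d1.fun_pow 2).mul (hasDerivAt_id r)).mul ((d3.fun_pow 2).const_sub 1)
  have h2 : HasDerivAt (YY φ) _ r := d4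
  refine h2.congr_deriv ?_
  simp only [id, pp, Pi.mul_apply]
  field_simp
  ring

/-- Twice the mass function along a ray. -/
noncomputable def FF (φ : ℝ → ℝ) (q : ℝ → ℝ) (r : ℝ) : ℝ :=
  YY φ r + r ^ 3 * (q r) ^ 2 / (4 * (φ r) ^ 2)

theorem hasDerivAt_FF {φ : ℝ → ℝ} (hφ : Good φ) {r : ℝ} (hr : 0 < r) {x : E} (hx : ‖x‖ = r)
    {q : ℝ → ℝ} {q' : ℝ} (hq : HasDerivAt q q' r) :
    HasDerivAt (FF φ q) (r ^ 2 / (2 * (φ r) ^ 2) *
      (pp φ r * ((φ r) ^ 8 * scal (metric φ) x) + r * q r * q' +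
        (3 / 2 - r ^ 2 * psi φ r / 2) * (q r) ^ 2)) r := by
  have hp := hφ.pos r hr
  have d0 := hasDerivAt_YY hφ hr hx
  have d1 := (hφ.diff hr).hasDerivAt
  have hd : deriv φ r = r * φ r * psi φ r / 2 := by
    unfold psi
    field_simp
  rw [hd] at d1
  have d4 := (((hasDerivAt_id r).fun_pow 3).mul (hq.fun_pow 2)).div
    ((d1.fun_pow 2).const_mul 4) (by positivity)
  have d5 := d0.add d4
  have h2 : HasDerivAt (FF φ q) _ r := d5
  refine h2.congr_deriv ?_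
  simp only [id, Pi.mul_apply]
  field_simp
  ring

end Pool.Agent.K4H63.PI
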