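import Pool.Agent.K4H63.PI.Geo

/-!
# Scalar curvature of `φ(|x|)⁴ δ`
-/

set_option autoImplicit false

namespace Pool.Agent.K4H63.PI

open scoped BigOperators Topology
open Matrix Filter

/-- `ψ(r) = 2 φ'(r) / (r φ(r))`. -/
noncomputable def psi (φ : ℝ → ℝ) (r : ℝ) : ℝ := 2 * deriv φ r / (φ r * r)

theorem ff_eq (φ : ℝ → ℝ) (j : Fin 3) (x : E) : ff φ j x = psi φ ‖x‖ * x j := rfl

/-- Regularity and positivity of the conformal factor. -/
structure Good (φ : ℝ → ℝ) : Prop where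
  smooth : ContDiffOn ℝ 2 φ (Set.Ioi 0)
  pos : ∀ r, 0 < r → 0 < φ r

theorem Good.diff {φ : ℝ → ℝ} (h : Good φ) {r : ℝ} (hr : 0 < r) : DifferentiableAt ℝ φ r :=
  (h.smooth.contDiffAt (Ioi_mem_nhds hr)).differentiableAt (by norm_num)

theorem Good.diff' {φ : ℝ → ℝ} (h : Good φ) {r : ℝ} (hr : 0 < r) :
    DifferentiableAt ℝ (deriv φ) r := by
  have h1 : ContDiffOn ℝ 1 (deriv φ) (Set.Ioi 0) := by
    have := h.smooth
    rw [show (2 : WithTop ℕ∞) = 1 + 1 by norm_num, contDiffOn_succ_iff_deriv_of_isOpen isOpen_Ioi] at this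
    exact this.2.2
  exact (h1.contDiffAt (Ioi_mem_nhds hr)).differentiableAt (by norm_num)

theorem Good.psi_diff {φ : ℝ → ℝ} (h : Good φ) {r : ℝ} (hr : 0 < r) :
    DifferentiableAt ℝ (psi φ) r := by
  unfold psi
  exact ((h.diff' hr).const_mul 2).div ((h.diff hr).mul differentiableAt_id)
    (mul_ne_zero (h.pos r hr).ne' hr.ne')

theorem hasFDerivAt_ff {φ : ℝ → ℝ} (h : Good φ) {x : E} (hx : x ≠ 0) (j : Fin 3) :
    HasFDerivAt (ff φ j)
      (psi φ ‖x‖ • pr j + x j • (deriv (psi φ) ‖x‖ • (‖x‖⁻¹ • innerSL ℝ x))) x := by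
  have hr : 0 < ‖x‖ := norm_pos_iff.2 hx
  have h1 := hasFDerivAt_radial hx (h.psi_diff hr).hasDerivAt
  have h2 := hasFDerivAt_coord x j
  exact h1.mul h2

theorem pd_ff {φ : ℝ → ℝ} (h : Good φ) {x : E} (hx : x ≠ 0) (m j : Fin 3) :
    pd m (ff φ j) x =
      psi φ ‖x‖ * kd m j + deriv (psi φ) ‖x‖ * (x m / ‖x‖) * x j := by
  unfold pd
  rw [(hasFDerivAt_ff h hx j).fderiv]
  have e1 : (pr j) (EuclideanSpace.single m 1) = kd m j := by
    rw [pr_apply]; simp [kd, eq_comm]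
  have e2 : (‖x‖⁻¹ • innerSL ℝ x) (EuclideanSpace.single m 1) = x m / ‖x‖ := by
    have := pd_norm hx m
    unfold pd at this
    rwa [(hasFDerivAt_norm' hx).fderiv] at this
  rw [ContinuousLinearMap.add_apply, ContinuousLinearMap.smul_apply,
    ContinuousLinearMap.smul_apply, ContinuousLinearMap.smul_apply, e1, e2]
  simp only [smul_eq_mul]
  ring

theorem eventually_ne_zero {x : E} (hx : x ≠ 0) : ∀ᶠ y in 𝓝 x, y ≠ 0 :=
  isOpen_ne.mem_nhds hx

theorem pd_chr {φ : ℝ → ℝ} (h : Good φ) {x : E} (hx : x ≠ 0) (m k i j : Fin 3) :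
    pd m (chr (metric φ) k i j) x =
      kd k i * pd m (ff φ j) x + kd k j * pd m (ff φ i) x - kd i j * pd m (ff φ k) x := by
  have h1 : chr (metric φ) k i j =ᶠ[𝓝 x]
      fun y => kd k i * ff φ j y + kd k j * ff φ i y - kd i j * ff φ k y := by
    filter_upwards [eventually_ne_zero hx] with y hy
    have hr : 0 < ‖y‖ := norm_pos_iff.2 hy
    exact chr_metric φ hy (h.diff hr) (h.pos _ hr).ne' k i j
  rw [pd_congr h1]
  have d := fun l : Fin 3 => (hasFDerivAt_ff h hx l)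
  have h2 := (((d j).const_mul (kd k i)).add ((d i).const_mul (kd k j))).sub
    ((d k).const_mul (kd i j))
  have h3 := h2.fderiv
  change fderiv ℝ (fun y => kd k i * ff φ j y + kd k j * ff φ i y - kd i j * ff φ k y) x = _ at h3
  unfold pd
  rw [h3, (d j).fderiv, (d i).fderiv, (d k).fderiv]
  simp only [ContinuousLinearMap.add_apply, ContinuousLinearMap.sub_apply,
    ContinuousLinearMap.smul_apply, smul_eq_mul]

theorem scal_metric {φ : ℝ → ℝ} (h : Good φ) {x : E} (hx : x ≠ 0) :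
    scal (metric φ) x = -((φ ‖x‖) ^ 4)⁻¹ *
      (4 * (3 * psi φ ‖x‖ + ‖x‖ * deriv (psi φ) ‖x‖) + 2 * ‖x‖ ^ 2 * (psi φ ‖x‖) ^ 2) := by
  have hr : 0 < ‖x‖ := norm_pos_iff.2 hx
  have h0 : φ ‖x‖ ≠ 0 := (h.pos _ hr).ne'
  have hs := norm_sq_eq x
  unfold scal
  rw [metric_inv φ h0]
  simp only [pd_chr h hx, pd_ff h hx, chr_metric φ hx (h.diff hr) h0, ff_eq]
  simp [Fin.sum_univ_three, kd, Matrix.one_apply]
  have e : (φ ‖x‖) ^ 4 ≠ 0 := pow_ne_zero 4 h0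
  field_simp
  linear_combination (4 * deriv (psi φ) ‖x‖ + 2 * ‖x‖ * (psi φ ‖x‖) ^ 2) * hs

end Pool.Agent.K4H63.PI
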