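import Pool.Agent.K4H63.PI.Cases

/-!
# Spheres of nonpositive scalar curvature: no condition on the second fundamental form

If `R ≤ 0` on a centred sphere, `tr_S h` has no zero there and `|tr_S h| ≤ H`, the dominant energy
condition multiplied by `1 / tr_S h` and averaged gives the monotonicity of the mass function,
without any condition on the other components of `h`.
-/

set_option autoImplicit false

namespace Pool.Agent.K4H63.PI

open scoped BigOperators Topology
open Matrix Filter Set MeasureTheory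

/-- The pointwise inequality behind the case `R ≤ 0`. -/
theorem sign_point {B Z Q A N k q σ : ℝ} (hσ : σ ^ 2 = 1) (hQ : 0 < σ * Q) (hq : 0 < q)
    (hk : σ * Q ≤ k) (hZ : Z ≤ 0) (hN : 0 ≤ N)
    (h3 : |B| ≤ Z + 2 * A * Q + Q ^ 2 / 2 - N) :
    σ * B ≤ k * (Z * (2 / q - σ * Q / q ^ 2) + 2 * σ * A + σ * Q / 2) := by
  set W := Z + 2 * A * Q + Q ^ 2 / 2 - N with hW
  have hW0 : 0 ≤ W := (abs_nonneg _).trans h3
  have hk0 : 0 < k := hQ.trans_le hk
  have hσ1 : |σ| = 1 := by
    have h4 : |σ| ^ 2 = 1 := by rw [sq_abs, hσ]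
    have h5 : (0:ℝ) ≤ |σ| := abs_nonneg σ
    nlinarith
  have h1 : σ * B ≤ W := by
    refine (le_abs_self _).trans ?_
    rw [abs_mul, hσ1, one_mul]
    exact h3
  set x := σ * Q with hx
  have hQx : Q = σ * x := by
    rw [hx, ← mul_assoc, ← sq, hσ, one_mul]
  have h2 : W ≤ k * (W / x) := by
    rw [mul_div_assoc', le_div_iff₀ hQ]
    nlinarith
  have h4 : W / x ≤ Z * (2 / q - x / q ^ 2) + 2 * σ * A + x / 2 := by
    have h5 : W = Z + 2 * σ * A * x + x ^ 2 / 2 - N := by
      rw [hW, hQx]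
      have : (σ * x) ^ 2 = x ^ 2 := by rw [mul_pow, hσ, one_mul]
      rw [this]
      ring
    have h6 : 2 / q - x / q ^ 2 ≤ 1 / x := by
      have h7 : 1 / x - (2 / q - x / q ^ 2) = (q - x) ^ 2 / (x * q ^ 2) := by
        field_simp
        ring
      have h8 : 0 ≤ (q - x) ^ 2 / (x * q ^ 2) := by positivity
      linarith
    have h9 : W / x = Z * (1 / x) + 2 * σ * A + x / 2 - N / x := by
      rw [h5]
      field_simp
    have h10 : Z * (1 / x) ≤ Z * (2 / q - x / q ^ 2) := mul_le_mul_of_nonpos_left h6 hZ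
    have h11 : 0 ≤ N / x := div_nonneg hN hQ.le
    rw [h9]
    linarith
  exact h1.trans (h2.trans (mul_le_mul_of_nonneg_left h4 hk0.le))

/-- A continuous function which is positive on a centred sphere has positive average. -/
theorem sphAvg_pos {F : E → ℝ} (hF : ContinuousOn F {0}ᶜ) {r : ℝ} (hr : 0 < r)
    (h : ∀ w : E, ‖w‖ = 1 → 0 < F (r • w)) : 0 < sphAvg F r := by
  have hc := sph_cont hF hr
  have hne : (univ : Set (Metric.sphere (0 : E) 1)).Nonempty :=
    ⟨⟨EuclideanSpace.single 0 1, by simp⟩, mem_univ _⟩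
  obtain ⟨w₀, _, hw₀⟩ := (isCompact_univ (X := Metric.sphere (0 : E) 1)).exists_isMinOn hne
    hc.continuousOn
  have h1 : 0 < F (r • (w₀ : E)) := h _ (sphere_norm w₀)
  have h2 := sphAvg_mono (F := fun _ => F (r • (w₀ : E))) (G := F) continuousOn_const hF hr
    (fun w hw => hw₀ (mem_univ (⟨w, by simpa using hw⟩ : Metric.sphere (0 : E) 1)))
  rw [sphAvg_const] at h2
  exact h1.trans_le h2

/-- The averaged inequality in the case `R ≤ 0`. -/
theorem sign_avg {φ : ℝ → ℝ} (hφ : Good φ) {h : E → Matrix (Fin 3) (Fin 3) ℝ} (H : Tensor h)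
    {r : ℝ} (hr : 0 < r) {p : E} (hp : ‖p‖ = r)
    (hdec : ∀ w : E, ‖w‖ = 1 →
      momentumNorm (metric φ) h (r • w) ≤ energy (metric φ) h (r • w))
    (hS : scal (metric φ) p ≤ 0) {σ : ℝ} (hσ : σ ^ 2 = 1)
    (hQ : ∀ w : E, ‖w‖ = 1 → 0 < σ * qq h (r • w))
    (hu : ∀ w : E, ‖w‖ = 1 → |r * qq h (r • w)| ≤ 2 * (φ r) ^ 2 * pp φ r) :
    0 ≤ pp φ r * ((φ r) ^ 8 * scal (metric φ) p) + r * sphAvg (qq h) r * sphAvg (dr (qq h)) r +
      (3 / 2 - r ^ 2 * psi φ r / 2) * (sphAvg (qq h) r) ^ 2 := by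
  have hP := hφ.pos r hr
  have cA := H.hrad_smooth.continuousOn
  have cQ := H.qq_smooth.continuousOn
  have cD := divMixed_cont H
  have cdQ := dr_cont H.qq_smooth
  set Qb := sphAvg (qq h) r with hQb
  set Ab := sphAvg (hrad h) r with hAb
  set Db := sphAvg (dr (qq h)) r with hDb
  set q := σ * Qb with hq
  have hq0 : 0 < q := by
    have := sphAvg_pos (F := fun x => σ * qq h x) (continuousOn_const.mul cQ) hr hQ
    rwa [sphAvg_mul] at this
  set Z := (φ r) ^ 8 * scal (metric φ) p with hZ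
  have hZ0 : Z ≤ 0 := mul_nonpos_of_nonneg_of_nonpos (by positivity) hS
  set k := 2 * (φ r) ^ 2 * pp φ r / r with hk
  set b : ℝ := 2 * (1 / r) + 2 * (r * psi φ r) with hb
  set c : ℝ := r * psi φ r - 1 / r with hc
  have h1 := sphAvg_mono (r := r)
    (F := fun x => (σ * (2 * (φ r) ^ 2)) * ((divMixed h x - dr (qq h) x) +
      (b * hrad h x + c * qq h x)))
    (G := fun x => k * (Z * (2 / q)) + ((k * (2 * σ)) * hrad h x +
      (k * (σ / 2 - Z * σ / q ^ 2)) * qq h x))
    (continuousOn_const.mul ((cD.sub cdQ).add ((continuousOn_const.mul cA).add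
      (continuousOn_const.mul cQ))))
    (continuousOn_const.add ((continuousOn_const.mul cA).add (continuousOn_const.mul cQ))) hr
    (fun w hw => by
      have hx := ray_ne hw hr
      have h2 := dec_radial hφ H hx (hdec w hw)
      have hp0 : p ≠ 0 := by
        rw [← norm_pos_iff, hp]; exact hr
      have hs : scal (metric φ) (r • w) = scal (metric φ) p := by
        rw [scal_metric hφ hx, scal_metric hφ hp0, ray_norm hw hr, hp]
      rw [ray_norm hw hr, hs] at h2
      have hk1 : σ * qq h (r • w) ≤ k := by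
        rw [hk, le_div_iff₀ hr]
        refine le_trans ?_ (hu w hw)
        rw [abs_mul, abs_of_pos hr]
        have h4 : |σ| = 1 := by
          have h5 : |σ| ^ 2 = 1 := by rw [sq_abs, hσ]
          have h6 : (0:ℝ) ≤ |σ| := abs_nonneg σ
          nlinarith
        have h7 : σ * qq h (r • w) ≤ |qq h (r • w)| := by
          refine (le_abs_self _).trans ?_
          rw [abs_mul, h4, one_mul]
        nlinarith
      have h3 := sign_point (k := k) (q := q) hσ (hQ w hw) hq0 hk1 hZ0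
        (transverse_nonneg h hx) h2
      refine le_trans (le_of_eq ?_) (h3.trans (le_of_eq ?_))
      · simp only [hb, hc]
        ring
      · ring)
  rw [sphAvg_mul, sphAvg_add (F := fun x => divMixed h x - dr (qq h) x)
    (G := fun x => b * hrad h x + c * qq h x) (cD.sub cdQ)
    ((continuousOn_const.mul cA).add (continuousOn_const.mul cQ)) hr,
    sphAvg_sub cD cdQ hr,
    sphAvg_add (F := fun x => b * hrad h x) (G := fun x => c * qq h x)
      (continuousOn_const.mul cA) (continuousOn_const.mul cQ) hr,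
    sphAvg_mul, sphAvg_mul, sphAvg_divMixed H hr,
    sphAvg_add (F := fun _ => k * (Z * (2 / q)))
      (G := fun x => (k * (2 * σ)) * hrad h x + (k * (σ / 2 - Z * σ / q ^ 2)) * qq h x)
      continuousOn_const
      ((continuousOn_const.mul cA).add (continuousOn_const.mul cQ)) hr,
    sphAvg_add (F := fun x => (k * (2 * σ)) * hrad h x)
      (G := fun x => (k * (σ / 2 - Z * σ / q ^ 2)) * qq h x)
      (continuousOn_const.mul cA) (continuousOn_const.mul cQ) hr,
    sphAvg_mul (k * (2 * σ)) (hrad h), sphAvg_mul (k * (σ / 2 - Z * σ / q ^ 2)) (qq h),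
    sphAvg_const, ← hQb, ← hAb, ← hDb] at h1
  have hQq : Qb = σ * q := by rw [hq, ← mul_assoc, ← sq, hσ, one_mul]
  -- multiply by q
  have h2 : q * (σ * (2 * (φ r) ^ 2) * (0 - Db + (b * Ab + c * Qb))) ≤
      q * (k * (Z * (2 / q)) + (k * (2 * σ) * Ab + k * (σ / 2 - Z * σ / q ^ 2) * Qb)) :=
    mul_le_mul_of_nonneg_left h1 hq0.le
  have h3 : q * (σ * (2 * (φ r) ^ 2) * (0 - Db + (b * Ab + c * Qb))) =
      2 * (φ r) ^ 2 * (Qb * (0 - Db + (b * Ab + c * Qb))) := by
    have : q * σ = Qb := by rw [hQq]; ring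
    linear_combination (2 * (φ r) ^ 2 * (0 - Db + (b * Ab + c * Qb))) * this
  have h4 : q * (k * (Z * (2 / q)) + (k * (2 * σ) * Ab + k * (σ / 2 - Z * σ / q ^ 2) * Qb)) =
      k * (Z + 2 * Ab * Qb + Qb ^ 2 / 2) := by
    have e1 : σ * Qb = q := rfl
    have e2 : Qb ^ 2 = q ^ 2 := by rw [hQq, mul_pow, hσ, one_mul]
    have e3 : q * (k * (Z * (2 / q)) + (k * (2 * σ) * Ab + k * (σ / 2 - Z * σ / q ^ 2) * Qb)) =
        k * (2 * Z + 2 * Ab * (σ * q) + q * (σ * Qb) / 2 - Z * (σ * Qb) / q) := by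
      field_simp
      ring
    rw [e3, e1, ← hQq, e2]
    field_simp
    ring
  rw [h3, h4] at h2
  have h5 : r * (Qb * (0 - Db + (b * Ab + c * Qb))) ≤ pp φ r * (Z + 2 * Ab * Qb + Qb ^ 2 / 2) := by
    have e4 : k * (Z + 2 * Ab * Qb + Qb ^ 2 / 2) =
        (2 * (φ r) ^ 2 / r) * (pp φ r * (Z + 2 * Ab * Qb + Qb ^ 2 / 2)) := by
      rw [hk]
      ring
    have e5 : 2 * (φ r) ^ 2 * (Qb * (0 - Db + (b * Ab + c * Qb))) =
        (2 * (φ r) ^ 2 / r) * (r * (Qb * (0 - Db + (b * Ab + c * Qb)))) := by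
      field_simp
    rw [e4, e5] at h2
    exact le_of_mul_le_mul_left h2 (by positivity)
  have h6 : r * (Qb * (0 - Db + (b * Ab + c * Qb))) = 2 * Ab * Qb - Qb ^ 2 - r * Qb * Db +
      r ^ 2 * psi φ r * (2 * Ab * Qb + Qb ^ 2) := by
    rw [hb, hc]
    field_simp
    ring
  rw [h6] at h5
  unfold pp at h5 ⊢
  linarith

end Pool.Agent.K4H63.PI
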