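import Pool.Agent.K4H63.PI.Sign1

/-!
# The averaged argument with spheres of nonpositive scalar curvature
-/

set_option autoImplicit false

namespace Pool.Agent.K4H63.PI

open scoped BigOperators Topology
open Matrix Filter Set MeasureTheory

/-- The one-dimensional argument started at an arbitrary radius. -/
theorem oned_alt {φ : ℝ → ℝ} (hφ : Good φ) {q F' : ℝ → ℝ} {m r₁ : ℝ} (hr₁ : 0 < r₁)
    (hq : ∀ r, 0 < r → ContinuousAt q r)
    (hF : ∀ r, 0 < r → HasDerivAt (FF φ q) (F' r) r)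
    (hF' : ∀ r, r₁ ≤ r → |r * q r| ≤ 2 * (φ r) ^ 2 * pp φ r → 0 ≤ F' r)
    (hp : Tendsto (pp φ) atTop (𝓝 1))
    (hX : Tendsto (fun r => r * q r / (2 * (φ r) ^ 2)) atTop (𝓝 0))
    (hm : Tendsto (FF φ q) atTop (𝓝 (2 * m))) :
    (∃ r₀, r₁ ≤ r₀ ∧ (φ r₀) ^ 2 * r₀ ≤ 2 * m) ∨ (0 < pp φ r₁ ∧ YY φ r₁ ≤ 2 * m) := by
  by_cases hex : ∃ r, r₁ ≤ r ∧ 2 * (φ r) ^ 2 * pp φ r ≤ |r * q r|
  · obtain ⟨r, h1, h2⟩ := hex
    obtain ⟨r₀, h3, h4⟩ := oned hφ (hr₁.trans_le h1) hq hF
      (fun s hs => hF' s (h1.trans hs)) h2 hp hX hm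
    exact Or.inl ⟨r₀, h1.trans h3, h4⟩
  · push Not at hex
    right
    have hpos := hφ.pos r₁ hr₁
    have h1 : 0 < pp φ r₁ := by
      have h2 := (abs_nonneg _).trans_lt (hex r₁ le_rfl)
      exact (mul_pos_iff_of_pos_left (by positivity)).1 h2
    refine ⟨h1, ?_⟩
    have hmono : MonotoneOn (FF φ q) (Ici r₁) := by
      apply monotoneOn_of_deriv_nonneg (convex_Ici r₁)
      · exact fun r hr => (hF r (hr₁.trans_le hr)).continuousAt.continuousWithinAt
      · intro r hr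
        rw [interior_Ici] at hr
        exact (hF r (hr₁.trans hr)).differentiableAt.differentiableWithinAt
      · intro r hr
        rw [interior_Ici] at hr
        rw [(hF r (hr₁.trans hr)).deriv]
        exact hF' r (le_of_lt hr) (hex r (le_of_lt hr)).le
    have hlim : FF φ q r₁ ≤ 2 * m := by
      refine ge_of_tendsto hm ?_
      filter_upwards [eventually_ge_atTop r₁] with r hr
      exact hmono (mem_Ici.2 le_rfl) (mem_Ici.2 hr) hr
    refine le_trans ?_ hlim
    unfold FF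
    have : 0 ≤ r₁ ^ 3 * (q r₁) ^ 2 / (4 * (φ r₁) ^ 2) := by positivity
    linarith

/-- In a region of nonnegative scalar curvature the Hawking mass is at least the one of an inner
minimal sphere. -/
theorem inner_region {φ : ℝ → ℝ} (hφ : Good φ) {rn r₁ : ℝ} (hrn : 0 < rn) (hlt : rn ≤ r₁)
    (hneg : pp φ rn < 0) (hpos : 0 < pp φ r₁)
    (hS : ∀ x : E, x ≠ 0 → ‖x‖ < r₁ → 0 ≤ scal (metric φ) x) :
    ∃ r₂, 0 < r₂ ∧ (φ r₂) ^ 2 * r₂ ≤ YY φ r₁ := by
  set S : Set ℝ := {r | r ∈ Icc rn r₁ ∧ pp φ r ≤ 0} with hSdef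
  have hne : S.Nonempty := ⟨rn, ⟨le_rfl, hlt⟩, hneg.le⟩
  have hbdd : BddAbove S := ⟨r₁, fun r hr => hr.1.2⟩
  set r₂ := sSup S with hr₂
  have h1 : rn ≤ r₂ := le_csSup hbdd ⟨⟨le_rfl, hlt⟩, hneg.le⟩
  have h0 : 0 < r₂ := hrn.trans_le h1
  have h2 : r₂ ≤ r₁ := csSup_le hne fun r hr => hr.1.2
  have hgt : ∀ r, r₂ < r → r ≤ r₁ → 0 < pp φ r := by
    intro r hr hr1
    by_contra hle
    exact absurd (le_csSup hbdd (show r ∈ S from ⟨⟨h1.trans hr.le, hr1⟩, not_lt.1 hle⟩))
      (not_le.2 hr)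
  have hle0 : pp φ r₂ ≤ 0 := by
    have hcl : r₂ ∈ closure S := csSup_mem_closure hne hbdd
    obtain ⟨s, hs, hlim⟩ := mem_closure_iff_seq_limit.1 hcl
    exact le_of_tendsto ((hφ.pp_cont h0).tendsto.comp hlim)
      (Eventually.of_forall fun n => (hs n).2)
  have h3 : r₂ < r₁ := by
    refine lt_of_le_of_ne h2 fun he => ?_
    rw [he] at hle0
    linarith
  have hge0 : 0 ≤ pp φ r₂ := by
    have h4 : Tendsto (pp φ) (𝓝[>] r₂) (𝓝 (pp φ r₂)) :=
      (hφ.pp_cont h0).tendsto.mono_left nhdsWithin_le_nhds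
    refine ge_of_tendsto h4 ?_
    filter_upwards [Ioo_mem_nhdsGT h3] with r hr
    exact (hgt r hr.1 hr.2.le).le
  have hz : pp φ r₂ = 0 := le_antisymm hle0 hge0
  set e : E := EuclideanSpace.single 0 1 with he
  have hen : ‖e‖ = 1 := by simp [he]
  have hmono : MonotoneOn (YY φ) (Icc r₂ r₁) := by
    apply monotoneOn_of_deriv_nonneg (convex_Icc r₂ r₁)
    · exact fun r hr =>
        (hasDerivAt_YY hφ (h0.trans_le hr.1) (ray_norm hen (h0.trans_le hr.1))).continuousAt.continuousWithinAt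
    · intro r hr
      rw [interior_Icc] at hr
      exact (hasDerivAt_YY hφ (h0.trans hr.1)
        (ray_norm hen (h0.trans hr.1))).differentiableAt.differentiableWithinAt
    · intro r hr
      rw [interior_Icc] at hr
      have hr0 := h0.trans hr.1
      rw [(hasDerivAt_YY hφ hr0 (ray_norm hen hr0)).deriv]
      have h5 := hS (r • e) (ray_ne hen hr0) (by rw [ray_norm hen hr0]; exact hr.2)
      have h6 := (hgt r hr.1 hr.2.le).le
      have h7 := hφ.pos r hr0
      positivity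
  refine ⟨r₂, h0, ?_⟩
  have h8 := hmono (left_mem_Icc.2 h2) (right_mem_Icc.2 h2) h2
  refine le_trans (le_of_eq ?_) h8
  unfold YY
  rw [hz]
  ring

/-- A centred sphere of radius `r` is of negative type if `|tr_S h| ≤ H` at each of its points,
`R ≤ 0`, and `tr_S h` has no zero on it in the case `R = 0`. -/
def NegType (φ : ℝ → ℝ) (h : E → Matrix (Fin 3) (Fin 3) ℝ) (r : ℝ) : Prop :=
  ∀ w : E, ‖w‖ = 1 → |trS φ h (r • w)| ≤ sphereH φ r ∧
    (scal (metric φ) (r • w) < 0 ∨ scal (metric φ) (r • w) = 0 ∧ trS φ h (r • w) ≠ 0)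

/-- By the dominant energy condition `tr_S h` has no zero where `R < 0`. -/
theorem negType_ne {φ : ℝ → ℝ} (hφ : Good φ) {h : E → Matrix (Fin 3) (Fin 3) ℝ} (H : Tensor h)
    {r : ℝ} (hr : 0 < r) (hn : NegType φ h r)
    (hdec : ∀ w : E, ‖w‖ = 1 →
      momentumNorm (metric φ) h (r • w) ≤ energy (metric φ) h (r • w)) :
    ∀ w : E, ‖w‖ = 1 → qq h (r • w) ≠ 0 := by
  intro w hw hz
  have hx := ray_ne hw hr
  rcases (hn w hw).2 with h1 | ⟨_, h1⟩
  · have h2 := dec_radial hφ H hx (hdec w hw)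
    have h3 := transverse_nonneg h hx
    have h4 := (abs_nonneg _).trans h2
    rw [hz] at h4
    have hp := hφ.pos _ (norm_pos_iff.2 hx)
    have h5 : (φ ‖r • w‖) ^ 8 * scal (metric φ) (r • w) < 0 :=
      mul_neg_of_pos_of_neg (by positivity) h1
    linarith
  · apply h1
    unfold trS
    rw [hz, mul_zero]

/-- `tr_S h` has one sign on the sphere. -/
theorem sign_const {F : E → ℝ} (hF : ContinuousOn F {0}ᶜ) {r : ℝ} (hr : 0 < r)
    (hne : ∀ w : E, ‖w‖ = 1 → F (r • w) ≠ 0) :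
    ∃ σ : ℝ, σ ^ 2 = 1 ∧ ∀ w : E, ‖w‖ = 1 → 0 < σ * F (r • w) := by
  have hrank : 1 < Module.rank ℝ E := by
    rw [← Module.finrank_eq_rank]
    simp
  have hpre : IsPreconnected (Metric.sphere (0 : E) 1) := isPreconnected_sphere hrank 0 1
  have hc : ContinuousOn (fun w : E => F (r • w)) (Metric.sphere (0 : E) 1) := by
    refine hF.comp (Continuous.continuousOn (by fun_prop)) ?_
    intro w hw
    exact ray_ne (by simpa using hw) hr
  set e : E := EuclideanSpace.single 0 1 with he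
  have hen : ‖e‖ = 1 := by simp [he]
  have hes : e ∈ Metric.sphere (0 : E) 1 := by simpa using hen
  have key : ∀ w : E, ‖w‖ = 1 → 0 < F (r • e) * F (r • w) := by
    intro w hw
    have hws : w ∈ Metric.sphere (0 : E) 1 := by simpa using hw
    by_contra hle
    have h1 := hne w hw
    have h2 := hne e hen
    rcases lt_or_gt_of_ne h2 with h3 | h3
    · have h4 : 0 < F (r • w) := by
        rcases lt_or_gt_of_ne h1 with h5 | h5
        · exact absurd (mul_pos_of_neg_of_neg h3 h5) hle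
        · exact h5
      obtain ⟨v, hv, hv0⟩ := hpre.intermediate_value hes hws hc
        (show (0:ℝ) ∈ Icc (F (r • e)) (F (r • w)) from ⟨h3.le, h4.le⟩)
      exact hne v (by simpa using hv) hv0
    · have h4 : F (r • w) < 0 := by
        rcases lt_or_gt_of_ne h1 with h5 | h5
        · exact h5
        · exact absurd (mul_pos h3 h5) hle
      obtain ⟨v, hv, hv0⟩ := hpre.intermediate_value hws hes hc
        (show (0:ℝ) ∈ Icc (F (r • w)) (F (r • e)) from ⟨h4.le, h3.le⟩)
      exact hne v (by simpa using hv) hv0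
  rcases lt_or_gt_of_ne (hne e hen) with h3 | h3
  · refine ⟨-1, by norm_num, fun w hw => ?_⟩
    have := key w hw
    have h4 : F (r • w) < 0 := by
      by_contra hge
      have := mul_nonpos_of_nonpos_of_nonneg h3.le (not_lt.1 hge)
      linarith
    linarith
  · refine ⟨1, by norm_num, fun w hw => ?_⟩
    have := key w hw
    rw [one_mul]
    exact (mul_pos_iff_of_pos_left h3).1 this

end Pool.Agent.K4H63.PI
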