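import Pool.Agent.K4H63.PI.Sign2

/-!
# The condition with the average of `1 / tr_S h`
-/

set_option autoImplicit false

namespace Pool.Agent.K4H63.PI

open scoped BigOperators Topology
open Matrix Filter Set MeasureTheory

/-- The pointwise inequality. -/
theorem inv_point {B Z Q A N k σ : ℝ} (hσ : σ ^ 2 = 1) (hQ : 0 < σ * Q)
    (hk : σ * Q ≤ k)
    (h3 : |B| ≤ Z + 2 * A * Q + Q ^ 2 / 2 - N) :
    σ * B ≤ k * (Z * (σ * Q)⁻¹ + 2 * σ * A + σ * Q / 2 - N * (σ * Q)⁻¹) := by
  set W := Z + 2 * A * Q + Q ^ 2 / 2 - N with hW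
  have hW0 : 0 ≤ W := (abs_nonneg _).trans h3
  have hσ1 : |σ| = 1 := by
    have h4 : |σ| ^ 2 = 1 := by rw [sq_abs, hσ]
    have h5 : (0:ℝ) ≤ |σ| := abs_nonneg σ
    nlinarith
  have h1 : σ * B ≤ W := by
    refine (le_abs_self _).trans ?_
    rw [abs_mul, hσ1, one_mul]
    exact h3
  set x := σ * Q with hx
  have hQx : Q = σ * x := by
    rw [hx, ← mul_assoc, ← sq, hσ, one_mul]
  have h2 : W ≤ k * (W / x) := by
    rw [mul_div_assoc', le_div_iff₀ hQ]
    nlinarith
  have h5 : W = Z + 2 * σ * A * x + x ^ 2 / 2 - N := by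
    rw [hW, hQx]
    have : (σ * x) ^ 2 = x ^ 2 := by rw [mul_pow, hσ, one_mul]
    rw [this]
    ring
  have h9 : W / x = Z * x⁻¹ + 2 * σ * A + x / 2 - N * x⁻¹ := by
    rw [h5]
    field_simp
  rw [h9] at h2
  exact h1.trans h2

theorem abs_sign {σ : ℝ} (hσ : σ ^ 2 = 1) : |σ| = 1 := by
  have h4 : |σ| ^ 2 = 1 := by rw [sq_abs, hσ]
  have h5 : (0:ℝ) ≤ |σ| := abs_nonneg σ
  nlinarith

/-- The averaged inequality with the average of `1 / tr_S h`. -/
theorem inv_avg {φ : ℝ → ℝ} (hφ : Good φ) {h : E → Matrix (Fin 3) (Fin 3) ℝ} (H : Tensor h)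
    {r : ℝ} (hr : 0 < r) {p : E} (hp : ‖p‖ = r)
    (hdec : ∀ w : E, ‖w‖ = 1 →
      momentumNorm (metric φ) h (r • w) ≤ energy (metric φ) h (r • w))
    {σ : ℝ} (hσ : σ ^ 2 = 1)
    (hQ : ∀ w : E, ‖w‖ = 1 → 0 < σ * qq h (r • w))
    (hu : ∀ w : E, ‖w‖ = 1 → |r * qq h (r • w)| ≤ 2 * (φ r) ^ 2 * pp φ r)
    (hc : (φ r) ^ 8 * scal (metric φ) p *
        (sphAvg (qq h) r * sphAvg (fun x => (qq h x)⁻¹) r - 1) ≤
      sphAvg (qq h) r * sphAvg (fun x => transverse h x * (qq h x)⁻¹) r) :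
    0 ≤ pp φ r * ((φ r) ^ 8 * scal (metric φ) p) + r * sphAvg (qq h) r * sphAvg (dr (qq h)) r +
      (3 / 2 - r ^ 2 * psi φ r / 2) * (sphAvg (qq h) r) ^ 2 := by
  have hP := hφ.pos r hr
  have cA := H.hrad_smooth.continuousOn
  have cQ := H.qq_smooth.continuousOn
  have cN := H.transverse_cont
  have cD := divMixed_cont H
  have cdQ := dr_cont H.qq_smooth
  -- the minimum over the sphere
  obtain ⟨δ, hδ, hmin⟩ : ∃ δ : ℝ, 0 < δ ∧ ∀ w : E, ‖w‖ = 1 → δ ≤ σ * qq h (r • w) := by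
    have hcc := sph_cont (F := fun x => σ * qq h x) (continuousOn_const.mul cQ) hr
    have hne : (univ : Set (Metric.sphere (0 : E) 1)).Nonempty :=
      ⟨⟨EuclideanSpace.single 0 1, by simp⟩, mem_univ _⟩
    obtain ⟨w₀, _, hw₀⟩ := (isCompact_univ (X := Metric.sphere (0 : E) 1)).exists_isMinOn hne
      hcc.continuousOn
    exact ⟨_, hQ _ (sphere_norm w₀), fun w hw =>
      hw₀ (mem_univ (⟨w, by simpa using hw⟩ : Metric.sphere (0 : E) 1))⟩
  set I : E → ℝ := fun x => (max (σ * qq h x) δ)⁻¹ with hI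
  have cI : ContinuousOn I {0}ᶜ := by
    have c1 : ContinuousOn (fun x => σ * qq h x) {0}ᶜ := continuousOn_const.mul cQ
    have c2 : ContinuousOn (fun x => max (σ * qq h x) δ) {0}ᶜ := by
      have c3 : Continuous (fun t : ℝ => max t δ) := by fun_prop
      exact c3.comp_continuousOn c1
    refine ContinuousOn.inv₀ c2 ?_
    intro x _
    exact (lt_of_lt_of_le hδ (le_max_right _ _)).ne'
  have hIw : ∀ w : E, ‖w‖ = 1 → I (r • w) = (σ * qq h (r • w))⁻¹ := by
    intro w hw
    simp only [hI]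
    rw [max_eq_left (hmin w hw)]
  have hinv : ∀ w : E, ‖w‖ = 1 → I (r • w) = σ * (qq h (r • w))⁻¹ := by
    intro w hw
    rw [hIw w hw, mul_inv]
    congr 1
    have h0 : σ ≠ 0 := by
      intro h0
      rw [h0] at hσ
      norm_num at hσ
    rw [inv_eq_iff_eq_inv, ← one_div, eq_div_iff h0, ← sq, hσ]
  set Qb := sphAvg (qq h) r with hQb
  set Ab := sphAvg (hrad h) r with hAb
  set Db := sphAvg (dr (qq h)) r with hDb
  set Ib := sphAvg (fun x => (qq h x)⁻¹) r with hIb
  set Mb := sphAvg (fun x => transverse h x * (qq h x)⁻¹) r with hMb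
  have hI1 : sphAvg I r = σ * Ib := by
    rw [hIb, ← sphAvg_mul]
    exact sphAvg_congr hinv
  have hI2 : sphAvg (fun x => transverse h x * I x) r = σ * Mb := by
    rw [hMb, ← sphAvg_mul]
    refine sphAvg_congr fun w hw => ?_
    rw [hinv w hw]
    ring
  set q := σ * Qb with hq
  have hq0 : 0 < q := by
    have := sphAvg_pos (F := fun x => σ * qq h x) (continuousOn_const.mul cQ) hr hQ
    rwa [sphAvg_mul] at this
  set Z := (φ r) ^ 8 * scal (metric φ) p with hZ
  set k := 2 * (φ r) ^ 2 * pp φ r / r with hk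
  have hkpos : 0 ≤ k := by
    set e : E := EuclideanSpace.single 0 1 with he
    have hen : ‖e‖ = 1 := by simp [he]
    have := (abs_nonneg _).trans (hu e hen)
    rw [hk]
    positivity
  set b : ℝ := 2 * (1 / r) + 2 * (r * psi φ r) with hb
  set c : ℝ := r * psi φ r - 1 / r with hc'
  have h1 := sphAvg_mono (r := r)
    (F := fun x => (σ * (2 * (φ r) ^ 2)) * ((divMixed h x - dr (qq h) x) +
      (b * hrad h x + c * qq h x)))
    (G := fun x => ((k * Z) * I x - k * (transverse h x * I x)) + ((k * (2 * σ)) * hrad h x +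
      (k * (σ / 2)) * qq h x))
    (continuousOn_const.mul ((cD.sub cdQ).add ((continuousOn_const.mul cA).add
      (continuousOn_const.mul cQ))))
    (((continuousOn_const.mul cI).sub (continuousOn_const.mul (cN.mul cI))).add
      ((continuousOn_const.mul cA).add (continuousOn_const.mul cQ))) hr
    (fun w hw => by
      have hx := ray_ne hw hr
      have h2 := dec_radial hφ H hx (hdec w hw)
      have hp0 : p ≠ 0 := by
        rw [← norm_pos_iff, hp]; exact hr
      have hs : scal (metric φ) (r • w) = scal (metric φ) p := by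
        rw [scal_metric hφ hx, scal_metric hφ hp0, ray_norm hw hr, hp]
      rw [ray_norm hw hr, hs] at h2
      have hk1 : σ * qq h (r • w) ≤ k := by
        rw [hk, le_div_iff₀ hr]
        refine le_trans ?_ (hu w hw)
        rw [abs_mul, abs_of_pos hr]
        have h7 : σ * qq h (r • w) ≤ |qq h (r • w)| := by
          refine (le_abs_self _).trans ?_
          rw [abs_mul, abs_sign hσ, one_mul]
        nlinarith
      have h3 := inv_point (k := k) hσ (hQ w hw) hk1 h2
      refine le_trans (le_of_eq ?_) (h3.trans (le_of_eq ?_))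
      · simp only [hb, hc']
        ring
      · simp only [hIw w hw, hZ]
        ring)
  rw [sphAvg_mul, sphAvg_add (F := fun x => divMixed h x - dr (qq h) x)
    (G := fun x => b * hrad h x + c * qq h x) (cD.sub cdQ)
    ((continuousOn_const.mul cA).add (continuousOn_const.mul cQ)) hr,
    sphAvg_sub cD cdQ hr,
    sphAvg_add (F := fun x => b * hrad h x) (G := fun x => c * qq h x)
      (continuousOn_const.mul cA) (continuousOn_const.mul cQ) hr,
    sphAvg_mul, sphAvg_mul, sphAvg_divMixed H hr,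
    sphAvg_add (F := fun x => (k * Z) * I x - k * (transverse h x * I x))
      (G := fun x => (k * (2 * σ)) * hrad h x + (k * (σ / 2)) * qq h x)
      ((continuousOn_const.mul cI).sub (continuousOn_const.mul (cN.mul cI)))
      ((continuousOn_const.mul cA).add (continuousOn_const.mul cQ)) hr,
    sphAvg_sub (F := fun x => (k * Z) * I x) (G := fun x => k * (transverse h x * I x))
      (continuousOn_const.mul cI) (continuousOn_const.mul (cN.mul cI)) hr,
    sphAvg_add (F := fun x => (k * (2 * σ)) * hrad h x)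
      (G := fun x => (k * (σ / 2)) * qq h x)
      (continuousOn_const.mul cA) (continuousOn_const.mul cQ) hr,
    sphAvg_mul (k * Z) I, sphAvg_mul k (fun x => transverse h x * I x),
    sphAvg_mul (k * (2 * σ)) (hrad h), sphAvg_mul (k * (σ / 2)) (qq h), hI1, hI2,
    ← hQb, ← hAb, ← hDb] at h1
  have hQq : Qb = σ * q := by rw [hq, ← mul_assoc, ← sq, hσ, one_mul]
  -- multiply by q
  have h2 : q * (σ * (2 * (φ r) ^ 2) * (0 - Db + (b * Ab + c * Qb))) ≤
      q * (k * Z * (σ * Ib) - k * (σ * Mb) + (k * (2 * σ) * Ab + k * (σ / 2) * Qb)) :=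
    mul_le_mul_of_nonneg_left h1 hq0.le
  have h3 : q * (σ * (2 * (φ r) ^ 2) * (0 - Db + (b * Ab + c * Qb))) =
      2 * (φ r) ^ 2 * (Qb * (0 - Db + (b * Ab + c * Qb))) := by
    have : q * σ = Qb := by rw [hQq]; ring
    linear_combination (2 * (φ r) ^ 2 * (0 - Db + (b * Ab + c * Qb))) * this
  have h4 : q * (k * Z * (σ * Ib) - k * (σ * Mb) + (k * (2 * σ) * Ab + k * (σ / 2) * Qb)) =
      k * (Z * (Qb * Ib) - Qb * Mb + 2 * Ab * Qb + Qb ^ 2 / 2) := by
    have : q * σ = Qb := by rw [hQq]; ring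
    linear_combination (k * Z * Ib - k * Mb + k * 2 * Ab + k / 2 * Qb) * this
  rw [h3, h4] at h2
  have h2' : 2 * (φ r) ^ 2 * (Qb * (0 - Db + (b * Ab + c * Qb))) ≤
      k * (Z + 2 * Ab * Qb + Qb ^ 2 / 2) :=
    h2.trans (mul_le_mul_of_nonneg_left (by linarith) hkpos)
  have h5 : r * (Qb * (0 - Db + (b * Ab + c * Qb))) ≤ pp φ r * (Z + 2 * Ab * Qb + Qb ^ 2 / 2) := by
    have e4 : k * (Z + 2 * Ab * Qb + Qb ^ 2 / 2) =
        (2 * (φ r) ^ 2 / r) * (pp φ r * (Z + 2 * Ab * Qb + Qb ^ 2 / 2)) := by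
      rw [hk]
      ring
    have e5 : 2 * (φ r) ^ 2 * (Qb * (0 - Db + (b * Ab + c * Qb))) =
        (2 * (φ r) ^ 2 / r) * (r * (Qb * (0 - Db + (b * Ab + c * Qb)))) := by
      field_simp
    rw [e4, e5] at h2'
    exact le_of_mul_le_mul_left h2' (by positivity)
  have h6 : r * (Qb * (0 - Db + (b * Ab + c * Qb))) = 2 * Ab * Qb - Qb ^ 2 - r * Qb * Db +
      r ^ 2 * psi φ r * (2 * Ab * Qb + Qb ^ 2) := by
    rw [hb, hc']
    field_simp
    ring
  rw [h6] at h5
  unfold pp at h5 ⊢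
  linarith

/-- The condition with the average of `1 / tr_S h`: `tr_S h` has no zero on the centred sphere of
radius `r` and `R (q · avg(1/tr_S h) - 1) ≤ q · avg((2|β|² + |h°|²) / tr_S h)`, where `q` is the
average of `tr_S h`. -/
def InvCond (φ : ℝ → ℝ) (h : E → Matrix (Fin 3) (Fin 3) ℝ) (r : ℝ) : Prop :=
  ∀ w : E, ‖w‖ = 1 → trS φ h (r • w) ≠ 0 ∧
    scal (metric φ) (r • w) *
        (sphAvg (trS φ h) r * sphAvg (fun x => (trS φ h x)⁻¹) r - 1) ≤
      sphAvg (trS φ h) r * sphAvg (fun x => transS φ h x * (trS φ h x)⁻¹) r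

theorem invCond_imp {φ : ℝ → ℝ} (hφ : Good φ) {h : E → Matrix (Fin 3) (Fin 3) ℝ}
    {r : ℝ} (hr : 0 < r) {p : E} (hp : ‖p‖ = r) (hc : InvCond φ h r) :
    (∀ w : E, ‖w‖ = 1 → qq h (r • w) ≠ 0) ∧
    (φ r) ^ 8 * scal (metric φ) p *
        (sphAvg (qq h) r * sphAvg (fun x => (qq h x)⁻¹) r - 1) ≤
      sphAvg (qq h) r * sphAvg (fun x => transverse h x * (qq h x)⁻¹) r := by
  have hP := hφ.pos r hr
  constructor
  · intro w hw hz
    apply (hc w hw).1
    unfold trS
    rw [hz, mul_zero]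
  · have h1 := (hc (r⁻¹ • p) (by
      rw [norm_smul, hp, Real.norm_of_nonneg (by positivity), inv_mul_cancel₀ hr.ne'])).2
    rw [smul_smul, mul_inv_cancel₀ hr.ne', one_smul] at h1
    have e1 : sphAvg (fun x => (trS φ h x)⁻¹) r = (φ r) ^ 4 * sphAvg (fun x => (qq h x)⁻¹) r := by
      rw [← sphAvg_mul]
      refine sphAvg_congr fun w hw => ?_
      unfold trS
      rw [ray_norm hw hr, mul_inv, inv_inv]
    have e2 : sphAvg (fun x => transS φ h x * (trS φ h x)⁻¹) r =
        ((φ r) ^ 4)⁻¹ * sphAvg (fun x => transverse h x * (qq h x)⁻¹) r := by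
      rw [← sphAvg_mul]
      refine sphAvg_congr fun w hw => ?_
      unfold trS transS
      rw [ray_norm hw hr, mul_inv, inv_inv]
      field_simp
    rw [e1, e2, sphAvg_trS h hr] at h1
    have h2 := mul_le_mul_of_nonneg_left h1 (show (0:ℝ) ≤ (φ r) ^ 8 by positivity)
    refine le_trans (le_of_eq ?_) (h2.trans (le_of_eq ?_))
    · field_simp
    · field_simp

end Pool.Agent.K4H63.PI
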