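import Pool.Agent.K4H63.PI.Sign3
import Pool.Agent.K4H63.PI.Sign4

/-!
# The averaged argument: conclusion
-/

set_option autoImplicit false

namespace Pool.Agent.K4H63.PI

open scoped BigOperators Topology
open Matrix Filter Set MeasureTheory

/-- Monotonicity of the mass function under the condition with the average of `1 / tr_S h`. -/
theorem inv_mono {φ : ℝ → ℝ} (hφ : Good φ) {h : E → Matrix (Fin 3) (Fin 3) ℝ} (H : Tensor h)
    {r : ℝ} (hr : 0 < r) {p : E} (hp : ‖p‖ = r)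
    (hdec : ∀ w : E, ‖w‖ = 1 →
      momentumNorm (metric φ) h (r • w) ≤ energy (metric φ) h (r • w))
    (hun : ∀ w : E, ‖w‖ = 1 → |trS φ h (r • w)| ≤ sphereH φ r) (hc : InvCond φ h r) :
    0 ≤ pp φ r * ((φ r) ^ 8 * scal (metric φ) p) + r * sphAvg (qq h) r * sphAvg (dr (qq h)) r +
      (3 / 2 - r ^ 2 * psi φ r / 2) * (sphAvg (qq h) r) ^ 2 := by
  have hP := hφ.pos r hr
  obtain ⟨hne, hc2⟩ := invCond_imp hφ hr hp hc
  obtain ⟨σ, hσ, hpos⟩ := sign_const H.qq_smooth.continuousOn hr hne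
  refine inv_avg hφ H hr hp hdec hσ hpos ?_ hc2
  intro w hw
  have h1 := hun w hw
  unfold trS at h1
  rw [ray_norm hw hr, sphereH_eq hφ hr, abs_mul,
    abs_of_pos (show (0:ℝ) < ((φ r) ^ 4)⁻¹ by positivity), le_div_iff₀ (by positivity)] at h1
  rw [abs_mul, abs_of_pos hr]
  have e : ((φ r) ^ 4)⁻¹ * |qq h (r • w)| * ((φ r) ^ 2 * r) =
      (r * |qq h (r • w)|) * ((φ r) ^ 2)⁻¹ := by
    field_simp
  rw [e, mul_inv_le_iff₀ (by positivity)] at h1
  linarith

/-- The averaged argument, general form: an inner region of nonnegative scalar curvature, and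
spheres on which `|tr_S h| ≤ H` and either `R < 0` or the condition with the average of
`1 / tr_S h` holds. -/
theorem full_theorem {φ : ℝ → ℝ} {h : E → Matrix (Fin 3) (Fin 3) ℝ} {m : ℝ} (hφ : Good φ)
    (H : Tensor h) (flat : FlatEnd φ m) (decay : Decay h)
    (second : Tendsto (fun r => (φ r) ^ 2 * r) (𝓝[>] 0) atTop)
    (dec : ∀ x : E, x ≠ 0 → momentumNorm (metric φ) h x ≤ energy (metric φ) h x) (R₀ : ℝ)
    (inner : ∀ x : E, x ≠ 0 → ‖x‖ < R₀ → 0 ≤ scal (metric φ) x)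
    (cond : ∀ r : ℝ, 0 < r → R₀ ≤ r → |sphAvg (trS φ h) r| ≤ sphereH φ r →
      AvgCond φ h r ∨ (∀ w : E, ‖w‖ = 1 → |trS φ h (r • w)| ≤ sphereH φ r) ∧
        ((∀ w : E, ‖w‖ = 1 → scal (metric φ) (r • w) < 0) ∨ InvCond φ h r)) :
    ∃ r₀, 0 < r₀ ∧ Real.sqrt (sphereArea φ r₀ / (16 * Real.pi)) ≤ m := by
  obtain ⟨C, hC⟩ := decay
  obtain ⟨rn, hrn, hneg⟩ := exists_neg hφ second
  set r₁ := max rn R₀ with hr₁def
  have hrn1 : rn ≤ r₁ := le_max_left _ _
  have hR1 : R₀ ≤ r₁ := le_max_right _ _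
  have hr₁ : 0 < r₁ := hrn.trans_le hrn1
  set e : E := EuclideanSpace.single 0 1 with he
  have hen : ‖e‖ = 1 := by simp [he]
  have cQ := H.qq_smooth.continuousOn
  have hbd : ∀ r : ℝ, 1 ≤ r → |sphAvg (qq h) r| ≤ 12 * C / r ^ 2 := by
    intro r hr
    have h0 : 0 < r := by linarith
    have h1 := sphAvg_abs_le (F := qq h) (G := fun _ => 12 * C / r ^ 2) cQ continuousOn_const h0
      (fun w hw => by
        have h2 := hC (r • w) (by rw [ray_norm hw h0]; exact hr)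
        rw [ray_norm hw h0] at h2
        calc |qq h (r • w)| ≤ 12 * (C / r ^ 2) := qq_bound (ray_ne hw h0) h2
          _ = 12 * C / r ^ 2 := by ring)
    rwa [sphAvg_const] at h1
  have hq : ∀ r : ℝ, 0 < r → HasDerivAt (sphAvg (qq h)) (sphAvg (dr (qq h)) r) r :=
    fun r hr => sphAvg_hasDerivAt H.qq_smooth hr
  have hlim : Tendsto (FF φ (sphAvg (qq h))) atTop (𝓝 (2 * m)) := by
    have := (flat.YY hφ).add (tendsto_sq_term flat.one hbd)
    rw [add_zero] at this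
    exact this
  have hfin : ∀ r₀, 0 < r₀ → (φ r₀) ^ 2 * r₀ ≤ 2 * m →
      ∃ r₀, 0 < r₀ ∧ Real.sqrt (sphereArea φ r₀ / (16 * Real.pi)) ≤ m := by
    intro r₀ h0 h1
    refine ⟨r₀, h0, ?_⟩
    rw [sqrt_area hφ h0]
    linarith
  rcases oned_alt hφ (q := sphAvg (qq h))
    (F' := fun r : ℝ => r ^ 2 / (2 * (φ r) ^ 2) *
      (pp φ r * ((φ r) ^ 8 * scal (metric φ) (r • e)) + r * sphAvg (qq h) r *
        sphAvg (dr (qq h)) r + (3 / 2 - r ^ 2 * psi φ r / 2) * (sphAvg (qq h) r) ^ 2))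
    (m := m) hr₁
    (fun r hr => (hq r hr).continuousAt)
    (fun r hr => hasDerivAt_FF hφ hr (ray_norm hen hr) (hq r hr))
    (by
      intro r hr hu
      have h0 : 0 < r := hr₁.trans_le hr
      have hp := hφ.pos r h0
      have hun : |sphAvg (trS φ h) r| ≤ sphereH φ r := by
        rw [sphAvg_trS h h0, sphereH_eq hφ h0, abs_mul,
          abs_of_pos (show (0:ℝ) < ((φ r) ^ 4)⁻¹ by positivity), le_div_iff₀ (by positivity)]
        rw [abs_mul, abs_of_pos h0] at hu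
        have e : ((φ r) ^ 4)⁻¹ * |sphAvg (qq h) r| * ((φ r) ^ 2 * r) =
            (r * |sphAvg (qq h) r|) * ((φ r) ^ 2)⁻¹ := by
          field_simp
        rw [e, mul_inv_le_iff₀ (by positivity)]
        linarith
      have hdec : ∀ w : E, ‖w‖ = 1 →
          momentumNorm (metric φ) h (r • w) ≤ energy (metric φ) h (r • w) :=
        fun w hw => dec _ (ray_ne hw h0)
      refine mul_nonneg (by positivity) ?_
      rcases cond r h0 (hR1.trans hr) hun with hc | ⟨hc1, hc2 | hc2⟩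
      · exact mass_mono hφ H h0 (ray_norm hen h0) hdec hu (Or.inl hc)
      · exact mass_mono hφ H h0 (ray_norm hen h0) hdec hu
          (Or.inr fun w hw => ⟨hc1 w hw, Or.inl (hc2 w hw)⟩)
      · exact inv_mono hφ H h0 (ray_norm hen h0) hdec hc1 hc2)
    (flat.pp hφ) (tendsto_X flat.one hbd) hlim with ⟨r₀, h1, h2⟩ | ⟨h1, h2⟩
  · exact hfin r₀ (hr₁.trans_le h1) h2
  · have hr₁R : r₁ = R₀ := by
      rcases max_choice rn R₀ with h3 | h3
      · rw [hr₁def, h3] at h1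
        linarith
      · exact h3
    obtain ⟨r₂, h3, h4⟩ := inner_region hφ hrn hrn1 hneg h1
      (fun x hx hlt => inner x hx (by rwa [hr₁R] at hlt))
    exact hfin r₂ h3 (h4.trans h2)

end Pool.Agent.K4H63.PI
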